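import Mathlib

set_option autoImplicit false
set_option linter.unusedVariables false
set_option maxHeartbeats 4000000

/-!
Sums of absolute values for the rank six case (type E8).
-/

namespace Pool.Agent.TH190.E8

lemma pair_le {x y m : ℤ} (hx : m ≤ x) (hy : m ≤ y) : |x - y| ≤ (x - m) + (y - m) := by
  rw [abs_le]; constructor <;> linarith

/-- six numbers -/
lemma s15 (t0 t1 t2 t3 t4 t5 : ℤ) :
    ∃ m : ℤ, (m = t0 ∨ m = t1 ∨ m = t2 ∨ m = t3 ∨ m = t4 ∨ m = t5) ∧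
    m ≤ t0 ∧ m ≤ t1 ∧ m ≤ t2 ∧ m ≤ t3 ∧ m ≤ t4 ∧ m ≤ t5 ∧
    |t0 - t1| + |t0 - t2| + |t0 - t3| + |t0 - t4| + |t0 - t5| + |t1 - t2| + |t1 - t3| + |t1 - t4| +
    |t1 - t5| + |t2 - t3| + |t2 - t4| + |t2 - t5| + |t3 - t4| + |t3 - t5| + |t4 - t5| ≤
    5 * (t0 + t1 + t2 + t3 + t4 + t5 - 6 * m) := by
  obtain ⟨m, hm, h0, h1, h2, h3, h4, h5⟩ : ∃ m : ℤ, (m = t0 ∨ m = t1 ∨ m = t2 ∨ m = t3 ∨ m = t4 ∨
      m = t5) ∧ m ≤ t0 ∧ m ≤ t1 ∧ m ≤ t2 ∧ m ≤ t3 ∧ m ≤ t4 ∧ m ≤ t5 :=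
    ⟨min t0 (min t1 (min t2 (min t3 (min t4 t5)))), by omega⟩
  refine ⟨m, hm, h0, h1, h2, h3, h4, h5, ?_⟩
  have := pair_le h0 h1
  have := pair_le h0 h2
  have := pair_le h0 h3
  have := pair_le h0 h4
  have := pair_le h0 h5
  have := pair_le h1 h2
  have := pair_le h1 h3
  have := pair_le h1 h4
  have := pair_le h1 h5
  have := pair_le h2 h3
  have := pair_le h2 h4
  have := pair_le h2 h5
  have := pair_le h3 h4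
  have := pair_le h3 h5
  have := pair_le h4 h5
  linarith

/-- five numbers -/
lemma s10 (t0 t1 t2 t3 t4 : ℤ) :
    ∃ m : ℤ, (m = t0 ∨ m = t1 ∨ m = t2 ∨ m = t3 ∨ m = t4) ∧
    |t0 - t1| + |t0 - t2| + |t0 - t3| + |t0 - t4| + |t1 - t2| + |t1 - t3| + |t1 - t4| +
    |t2 - t3| + |t2 - t4| + |t3 - t4| ≤ 4 * (t0 + t1 + t2 + t3 + t4 - 5 * m) := by
  obtain ⟨m, hm, h0, h1, h2, h3, h4⟩ : ∃ m : ℤ, (m = t0 ∨ m = t1 ∨ m = t2 ∨ m = t3 ∨ m = t4) ∧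
      m ≤ t0 ∧ m ≤ t1 ∧ m ≤ t2 ∧ m ≤ t3 ∧ m ≤ t4 :=
    ⟨min t0 (min t1 (min t2 (min t3 t4))), by omega⟩
  refine ⟨m, hm, ?_⟩
  have := pair_le h0 h1
  have := pair_le h0 h2
  have := pair_le h0 h3
  have := pair_le h0 h4
  have := pair_le h1 h2
  have := pair_le h1 h3
  have := pair_le h1 h4
  have := pair_le h2 h3
  have := pair_le h2 h4
  have := pair_le h3 h4
  linarith

/-- three numbers with sum zero, as differences -/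
lemma s3 (s0 s1 s2 : ℤ) (h : s0 + s1 + s2 = 0) :
    |s0| + |s1| + |s2| ≤ -2 * (2 * s0 + s1) ∨ |s0| + |s1| + |s2| ≤ -2 * (2 * s1 + s2) ∨
    |s0| + |s1| + |s2| ≤ -2 * (2 * s2 + s0) := by
  rcases abs_cases s0 with ⟨h1, g1⟩ | ⟨h1, g1⟩ <;>
  rcases abs_cases s1 with ⟨h2, g2⟩ | ⟨h2, g2⟩ <;>
  rcases abs_cases s2 with ⟨h3, g3⟩ | ⟨h3, g3⟩ <;>
  rw [h1, h2, h3] <;> omega


lemma main_A {D a0 a1 a2 a3 a4 a5 b0 b1 b2 c0 c1 : ℤ}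
    (hs : a0 + a1 + a2 + a3 + a4 + a5 + 2 * b0 + 2 * b1 + 2 * b2 + 3 * c0 + 3 * c1 = 0)
    (ga0 : a0 ≤ a1)
    (ga1 : a1 ≤ a2)
    (ga2 : a2 ≤ a3)
    (ga3 : a3 ≤ a4)
    (ga4 : a4 ≤ a5)
    (ga5 : a5 ≤ a0 + D)
    (gb0 : b0 ≤ b1)
    (gb1 : b1 ≤ b2)
    (gb2 : b2 ≤ b0 + D)
    (gc0 : c0 ≤ c1)
    (gc1 : c1 ≤ c0 + D)
    (u011 : a0 + b1 + c1 < 0)
    (l021 : 0 < a0 + b2 + c1)
    (l100 : -D < a1 + b0 + c0)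
    (u120 : a1 + b2 + c0 < 0)
    (u201 : a2 + b0 + c1 < 0)
    (l211 : 0 < a2 + b1 + c1)
    (u310 : a3 + b1 + c0 < 0)
    (l320 : 0 < a3 + b2 + c0)
    (l401 : 0 < a4 + b0 + c1)
    (u421 : a4 + b2 + c1 < D)
    (u500 : a5 + b0 + c0 < 0)
    (l510 : 0 < a5 + b1 + c0)
    (m0201 : -D < a0 + a2 + b0 + b1 + c0 + c1)
    (p0212 : a0 + a2 + b1 + b2 + c0 + c1 < 0)
    (p0402 : a0 + a4 + b0 + b2 + c0 + c1 < 0)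
    (m0412 : 0 < a0 + a4 + b1 + b2 + c0 + c1)
    (p1302 : a1 + a3 + b0 + b2 + c0 + c1 < 0)
    (m1312 : 0 < a1 + a3 + b1 + b2 + c0 + c1)
    (p1501 : a1 + a5 + b0 + b1 + c0 + c1 < 0)
    (m1502 : 0 < a1 + a5 + b0 + b2 + c0 + c1)
    (p2401 : a2 + a4 + b0 + b1 + c0 + c1 < 0)
    (m2402 : 0 < a2 + a4 + b0 + b2 + c0 + c1)
    (m3501 : 0 < a3 + a5 + b0 + b1 + c0 + c1)
    (p3512 : a3 + a5 + b1 + b2 + c0 + c1 < D) :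
    (|a0 + b0 + c0 + D| + |a0 + a1 + b0 + b1 + c0 + c1 + D| + |a0 + a1 + a2 + b0 + b1 + b2 + 2 * c0 + c1 + D| + |a4 + a5 + b1 + b2 + c0 + c1 - D| + |a5 + b2 + c1 - D| + |a1 + b1 + c1| + |a1 + a2 + b1 + b2 + c0 + c1| + |a0 + a4 + a5 + b0 + b1 + b2 + 2 * c0 + c1| + |a0 + a5 + b0 + b2 + c0 + c1| + |a2 + b2 + c0| + |a2 + a3 + b0 + b2 + c0 + c1| + |a2 + a3 + a4 + b0 + b1 + b2 + 2 * c0 + c1| + |a3 + b0 + c1| + |a3 + a4 + b0 + b1 + c0 + c1| + |a4 + b1 + c0|) +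
    (|a0 + a3 + b1 + b2 + c0 + c1| + |a1 + a4 + b0 + b2 + c0 + c1| + |a2 + a5 + b0 + b1 + c0 + c1|) + |a1 + a3 + a5 + b0 + b1 + b2 + 2 * c0 + c1| < 5 * D := by
  obtain ⟨m, hm, -, -, -, -, -, -, h15⟩ := s15 0 (-(a0 + b0 + c0 + D)) (-(a0 + b0 + c0 + D) - (a1 + b1 + c1))
    (-(a0 + b0 + c0 + D) - (a1 + b1 + c1) - (a2 + b2 + c0))
    (-(a0 + b0 + c0 + D) - (a1 + b1 + c1) - (a2 + b2 + c0) - (a3 + b0 + c1))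
    (-(a0 + b0 + c0 + D) - (a1 + b1 + c1) - (a2 + b2 + c0) - (a3 + b0 + c1) - (a4 + b1 + c0))
  rw [show 0 - (-(a0 + b0 + c0 + D)) = a0 + b0 + c0 + D by linarith] at h15
  rw [show 0 - (-(a0 + b0 + c0 + D) - (a1 + b1 + c1)) = a0 + a1 + b0 + b1 + c0 + c1 + D by linarith] at h15
  rw [show 0 - (-(a0 + b0 + c0 + D) - (a1 + b1 + c1) - (a2 + b2 + c0)) = a0 + a1 + a2 + b0 + b1 + b2 + 2 * c0 + c1 + D by linarith] at h15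
  rw [show 0 - (-(a0 + b0 + c0 + D) - (a1 + b1 + c1) - (a2 + b2 + c0) - (a3 + b0 + c1)) = -(a4 + a5 + b1 + b2 + c0 + c1 - D) by linarith, abs_neg] at h15
  rw [show 0 - (-(a0 + b0 + c0 + D) - (a1 + b1 + c1) - (a2 + b2 + c0) - (a3 + b0 + c1) - (a4 + b1 + c0)) = -(a5 + b2 + c1 - D) by linarith, abs_neg] at h15
  rw [show (-(a0 + b0 + c0 + D)) - (-(a0 + b0 + c0 + D) - (a1 + b1 + c1)) = a1 + b1 + c1 by linarith] at h15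
  rw [show (-(a0 + b0 + c0 + D)) - (-(a0 + b0 + c0 + D) - (a1 + b1 + c1) - (a2 + b2 + c0)) = a1 + a2 + b1 + b2 + c0 + c1 by linarith] at h15
  rw [show (-(a0 + b0 + c0 + D)) - (-(a0 + b0 + c0 + D) - (a1 + b1 + c1) - (a2 + b2 + c0) - (a3 + b0 + c1)) = -(a0 + a4 + a5 + b0 + b1 + b2 + 2 * c0 + c1) by linarith, abs_neg] at h15
  rw [show (-(a0 + b0 + c0 + D)) - (-(a0 + b0 + c0 + D) - (a1 + b1 + c1) - (a2 + b2 + c0) - (a3 + b0 + c1) - (a4 + b1 + c0)) = -(a0 + a5 + b0 + b2 + c0 + c1) by linarith, abs_neg] at h15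
  rw [show (-(a0 + b0 + c0 + D) - (a1 + b1 + c1)) - (-(a0 + b0 + c0 + D) - (a1 + b1 + c1) - (a2 + b2 + c0)) = a2 + b2 + c0 by linarith] at h15
  rw [show (-(a0 + b0 + c0 + D) - (a1 + b1 + c1)) - (-(a0 + b0 + c0 + D) - (a1 + b1 + c1) - (a2 + b2 + c0) - (a3 + b0 + c1)) = a2 + a3 + b0 + b2 + c0 + c1 by linarith] at h15
  rw [show (-(a0 + b0 + c0 + D) - (a1 + b1 + c1)) - (-(a0 + b0 + c0 + D) - (a1 + b1 + c1) - (a2 + b2 + c0) - (a3 + b0 + c1) - (a4 + b1 + c0)) = a2 + a3 + a4 + b0 + b1 + b2 + 2 * c0 + c1 by linarith] at h15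
  rw [show (-(a0 + b0 + c0 + D) - (a1 + b1 + c1) - (a2 + b2 + c0)) - (-(a0 + b0 + c0 + D) - (a1 + b1 + c1) - (a2 + b2 + c0) - (a3 + b0 + c1)) = a3 + b0 + c1 by linarith] at h15
  rw [show (-(a0 + b0 + c0 + D) - (a1 + b1 + c1) - (a2 + b2 + c0)) - (-(a0 + b0 + c0 + D) - (a1 + b1 + c1) - (a2 + b2 + c0) - (a3 + b0 + c1) - (a4 + b1 + c0)) = a3 + a4 + b0 + b1 + c0 + c1 by linarith] at h15
  rw [show (-(a0 + b0 + c0 + D) - (a1 + b1 + c1) - (a2 + b2 + c0) - (a3 + b0 + c1)) - (-(a0 + b0 + c0 + D) - (a1 + b1 + c1) - (a2 + b2 + c0) - (a3 + b0 + c1) - (a4 + b1 + c0)) = a4 + b1 + c0 by linarith] at h15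
  have h3 := s3 (a0 + a3 + b1 + b2 + c0 + c1) (a1 + a4 + b0 + b2 + c0 + c1) (a2 + a5 + b0 + b1 + c0 + c1) (by linarith)
  generalize (|a0 + b0 + c0 + D| + |a0 + a1 + b0 + b1 + c0 + c1 + D| + |a0 + a1 + a2 + b0 + b1 + b2 + 2 * c0 + c1 + D| + |a4 + a5 + b1 + b2 + c0 + c1 - D| + |a5 + b2 + c1 - D| + |a1 + b1 + c1| + |a1 + a2 + b1 + b2 + c0 + c1| + |a0 + a4 + a5 + b0 + b1 + b2 + 2 * c0 + c1| + |a0 + a5 + b0 + b2 + c0 + c1| + |a2 + b2 + c0| + |a2 + a3 + b0 + b2 + c0 + c1| + |a2 + a3 + a4 + b0 + b1 + b2 + 2 * c0 + c1| + |a3 + b0 + c1| + |a3 + a4 + b0 + b1 + c0 + c1| + |a4 + b1 + c0|) = S1 at h15 ⊢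
  generalize |a0 + a3 + b1 + b2 + c0 + c1| + |a1 + a4 + b0 + b2 + c0 + c1| + |a2 + a5 + b0 + b1 + c0 + c1| = S2 at h3 ⊢
  rcases abs_cases (a1 + a3 + a5 + b0 + b1 + b2 + 2 * c0 + c1) with ⟨h0, g0⟩ | ⟨h0, g0⟩ <;> rw [h0] <;>
  rcases hm with rfl | rfl | rfl | rfl | rfl | rfl <;>
  rcases h3 with h3 | h3 | h3 <;> linarith

end Pool.Agent.TH190.E8
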