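import Pool.Agent.TH190.E8.Abs8

set_option autoImplicit false
set_option linter.unusedVariables false
set_option maxHeartbeats 4000000

/-!
Sums of absolute values for the rank six case (type E8): the remaining cases.
-/

namespace Pool.Agent.TH190.E8


lemma main_B0 {D a0 a1 a2 a3 a4 a5 b0 b1 b2 c0 c1 : ℤ}
    (hs : a0 + a1 + a2 + a3 + a4 + a5 + 2 * b0 + 2 * b1 + 2 * b2 + 3 * c0 + 3 * c1 = 0)
    (ga0 : a0 ≤ a1)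
    (ga1 : a1 ≤ a2)
    (ga2 : a2 ≤ a3)
    (ga3 : a3 ≤ a4)
    (ga4 : a4 ≤ a5)
    (ga5 : a5 ≤ a0 + D)
    (gb0 : b0 ≤ b1)
    (gb1 : b1 ≤ b2)
    (gb2 : b2 ≤ b0 + D)
    (gc0 : c0 ≤ c1)
    (gc1 : c1 ≤ c0 + D)
    (u011 : a0 + b1 + c1 < 0)
    (l021 : 0 < a0 + b2 + c1)
    (l100 : -D < a1 + b0 + c0)
    (u120 : a1 + b2 + c0 < 0)
    (u201 : a2 + b0 + c1 < 0)
    (l211 : 0 < a2 + b1 + c1)
    (u310 : a3 + b1 + c0 < 0)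
    (l320 : 0 < a3 + b2 + c0)
    (l401 : 0 < a4 + b0 + c1)
    (u421 : a4 + b2 + c1 < D)
    (u500 : a5 + b0 + c0 < 0)
    (l510 : 0 < a5 + b1 + c0)
    (m0201 : -D < a0 + a2 + b0 + b1 + c0 + c1)
    (p0212 : a0 + a2 + b1 + b2 + c0 + c1 < 0)
    (p0402 : a0 + a4 + b0 + b2 + c0 + c1 < 0)
    (m0412 : 0 < a0 + a4 + b1 + b2 + c0 + c1)
    (p1302 : a1 + a3 + b0 + b2 + c0 + c1 < 0)
    (m1312 : 0 < a1 + a3 + b1 + b2 + c0 + c1)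
    (p1501 : a1 + a5 + b0 + b1 + c0 + c1 < 0)
    (m1502 : 0 < a1 + a5 + b0 + b2 + c0 + c1)
    (p2401 : a2 + a4 + b0 + b1 + c0 + c1 < 0)
    (m2402 : 0 < a2 + a4 + b0 + b2 + c0 + c1)
    (m3501 : 0 < a3 + a5 + b0 + b1 + c0 + c1)
    (p3512 : a3 + a5 + b1 + b2 + c0 + c1 < D)
    (hG : a0 + a1 + a3 + b0 + b1 + b2 + 2 * c0 + c1 + D < 0) :
    (|a0 + b0 + c0 + D| + |a0 + a1 + b0 + b1 + c0 + c1 + D| + |a0 + a1 + a2 + b0 + b1 + b2 + 2 * c0 + c1 + D| + |a4 + a5 + b1 + b2 + c0 + c1 - D| + |a5 + b2 + c1 - D| + |a1 + b1 + c1| + |a1 + a2 + b1 + b2 + c0 + c1| + |a0 + a4 + a5 + b0 + b1 + b2 + 2 * c0 + c1| + |a0 + a5 + b0 + b2 + c0 + c1| + |a2 + b2 + c0| + |a2 + a3 + b0 + b2 + c0 + c1| + |a2 + a3 + a4 + b0 + b1 + b2 + 2 * c0 + c1| + |a3 + b0 + c1| + |a3 + a4 + b0 + b1 + c0 + c1| + |a4 + b1 + c0|) +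
    (|a0 + a3 + b1 + b2 + c0 + c1| + |a1 + a4 + b0 + b2 + c0 + c1| + |a2 + a5 + b0 + b1 + c0 + c1|) + |a1 + a3 + a5 + b0 + b1 + b2 + 2 * c0 + c1| - 2 * (a0 + a1 + a3 + b0 + b1 + b2 + 2 * c0 + c1 + D) < 5 * D := by
  obtain ⟨m, hm, h10⟩ := s10 (-(a0 + b0 + c0 + D)) (-(a0 + b0 + c0 + D) - (a1 + b1 + c1)) (-(a0 + b0 + c0 + D) - (a1 + b1 + c1) - (a2 + b2 + c0)) (-(a0 + b0 + c0 + D) - (a1 + b1 + c1) - (a2 + b2 + c0) - (a3 + b0 + c1)) (-(a0 + b0 + c0 + D) - (a1 + b1 + c1) - (a2 + b2 + c0) - (a3 + b0 + c1) - (a4 + b1 + c0))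
  rw [show (-(a0 + b0 + c0 + D)) - (-(a0 + b0 + c0 + D) - (a1 + b1 + c1)) = a1 + b1 + c1 by linarith] at h10
  rw [show (-(a0 + b0 + c0 + D)) - (-(a0 + b0 + c0 + D) - (a1 + b1 + c1) - (a2 + b2 + c0)) = a1 + a2 + b1 + b2 + c0 + c1 by linarith] at h10
  rw [show (-(a0 + b0 + c0 + D)) - (-(a0 + b0 + c0 + D) - (a1 + b1 + c1) - (a2 + b2 + c0) - (a3 + b0 + c1)) = -(a0 + a4 + a5 + b0 + b1 + b2 + 2 * c0 + c1) by linarith, abs_neg] at h10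
  rw [show (-(a0 + b0 + c0 + D)) - (-(a0 + b0 + c0 + D) - (a1 + b1 + c1) - (a2 + b2 + c0) - (a3 + b0 + c1) - (a4 + b1 + c0)) = -(a0 + a5 + b0 + b2 + c0 + c1) by linarith, abs_neg] at h10
  rw [show (-(a0 + b0 + c0 + D) - (a1 + b1 + c1)) - (-(a0 + b0 + c0 + D) - (a1 + b1 + c1) - (a2 + b2 + c0)) = a2 + b2 + c0 by linarith] at h10
  rw [show (-(a0 + b0 + c0 + D) - (a1 + b1 + c1)) - (-(a0 + b0 + c0 + D) - (a1 + b1 + c1) - (a2 + b2 + c0) - (a3 + b0 + c1)) = a2 + a3 + b0 + b2 + c0 + c1 by linarith] at h10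
  rw [show (-(a0 + b0 + c0 + D) - (a1 + b1 + c1)) - (-(a0 + b0 + c0 + D) - (a1 + b1 + c1) - (a2 + b2 + c0) - (a3 + b0 + c1) - (a4 + b1 + c0)) = a2 + a3 + a4 + b0 + b1 + b2 + 2 * c0 + c1 by linarith] at h10
  rw [show (-(a0 + b0 + c0 + D) - (a1 + b1 + c1) - (a2 + b2 + c0)) - (-(a0 + b0 + c0 + D) - (a1 + b1 + c1) - (a2 + b2 + c0) - (a3 + b0 + c1)) = a3 + b0 + c1 by linarith] at h10
  rw [show (-(a0 + b0 + c0 + D) - (a1 + b1 + c1) - (a2 + b2 + c0)) - (-(a0 + b0 + c0 + D) - (a1 + b1 + c1) - (a2 + b2 + c0) - (a3 + b0 + c1) - (a4 + b1 + c0)) = a3 + a4 + b0 + b1 + c0 + c1 by linarith] at h10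
  rw [show (-(a0 + b0 + c0 + D) - (a1 + b1 + c1) - (a2 + b2 + c0) - (a3 + b0 + c1)) - (-(a0 + b0 + c0 + D) - (a1 + b1 + c1) - (a2 + b2 + c0) - (a3 + b0 + c1) - (a4 + b1 + c0)) = a4 + b1 + c0 by linarith] at h10
  rw [abs_of_nonpos (show a0 + b0 + c0 + D ≤ 0 by linarith)]
  rw [abs_of_nonpos (show a0 + a1 + b0 + b1 + c0 + c1 + D ≤ 0 by linarith)]
  rw [abs_of_nonpos (show a0 + a1 + a2 + b0 + b1 + b2 + 2 * c0 + c1 + D ≤ 0 by linarith)]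
  rw [abs_of_nonneg (show 0 ≤ a4 + a5 + b1 + b2 + c0 + c1 - D by linarith)]
  rw [abs_of_nonneg (show 0 ≤ a5 + b2 + c1 - D by linarith)]
  rw [abs_of_nonpos (show a1 + a3 + a5 + b0 + b1 + b2 + 2 * c0 + c1 ≤ 0 by linarith)]
  have h3 := s3 (a0 + a3 + b1 + b2 + c0 + c1) (a1 + a4 + b0 + b2 + c0 + c1) (a2 + a5 + b0 + b1 + c0 + c1) (by linarith)
  generalize |a0 + a3 + b1 + b2 + c0 + c1| + |a1 + a4 + b0 + b2 + c0 + c1| + |a2 + a5 + b0 + b1 + c0 + c1| = S2 at h3 ⊢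
  rcases hm with rfl | rfl | rfl | rfl | rfl <;> rcases h3 with h3 | h3 | h3 <;> linarith

lemma main_B1 {D a0 a1 a2 a3 a4 a5 b0 b1 b2 c0 c1 : ℤ}
    (hs : a0 + a1 + a2 + a3 + a4 + a5 + 2 * b0 + 2 * b1 + 2 * b2 + 3 * c0 + 3 * c1 = 0)
    (ga0 : a0 ≤ a1)
    (ga1 : a1 ≤ a2)
    (ga2 : a2 ≤ a3)
    (ga3 : a3 ≤ a4)
    (ga4 : a4 ≤ a5)
    (ga5 : a5 ≤ a0 + D)
    (gb0 : b0 ≤ b1)
    (gb1 : b1 ≤ b2)
    (gb2 : b2 ≤ b0 + D)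
    (gc0 : c0 ≤ c1)
    (gc1 : c1 ≤ c0 + D)
    (u011 : a0 + b1 + c1 < 0)
    (l021 : 0 < a0 + b2 + c1)
    (l100 : -D < a1 + b0 + c0)
    (u120 : a1 + b2 + c0 < 0)
    (u201 : a2 + b0 + c1 < 0)
    (l211 : 0 < a2 + b1 + c1)
    (u310 : a3 + b1 + c0 < 0)
    (l320 : 0 < a3 + b2 + c0)
    (l401 : 0 < a4 + b0 + c1)
    (u421 : a4 + b2 + c1 < D)
    (u500 : a5 + b0 + c0 < 0)
    (l510 : 0 < a5 + b1 + c0)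
    (m0201 : -D < a0 + a2 + b0 + b1 + c0 + c1)
    (p0212 : a0 + a2 + b1 + b2 + c0 + c1 < 0)
    (p0402 : a0 + a4 + b0 + b2 + c0 + c1 < 0)
    (m0412 : 0 < a0 + a4 + b1 + b2 + c0 + c1)
    (p1302 : a1 + a3 + b0 + b2 + c0 + c1 < 0)
    (m1312 : 0 < a1 + a3 + b1 + b2 + c0 + c1)
    (p1501 : a1 + a5 + b0 + b1 + c0 + c1 < 0)
    (m1502 : 0 < a1 + a5 + b0 + b2 + c0 + c1)
    (p2401 : a2 + a4 + b0 + b1 + c0 + c1 < 0)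
    (m2402 : 0 < a2 + a4 + b0 + b2 + c0 + c1)
    (m3501 : 0 < a3 + a5 + b0 + b1 + c0 + c1)
    (p3512 : a3 + a5 + b1 + b2 + c0 + c1 < D)
    (hG : -(a0 + a3 + a5 + b0 + b1 + b2 + 2 * c0 + c1) < 0) :
    (|a0 + b0 + c0 + D| + |a0 + a1 + b0 + b1 + c0 + c1 + D| + |a0 + a1 + a2 + b0 + b1 + b2 + 2 * c0 + c1 + D| + |a4 + a5 + b1 + b2 + c0 + c1 - D| + |a5 + b2 + c1 - D| + |a1 + b1 + c1| + |a1 + a2 + b1 + b2 + c0 + c1| + |a0 + a4 + a5 + b0 + b1 + b2 + 2 * c0 + c1| + |a0 + a5 + b0 + b2 + c0 + c1| + |a2 + b2 + c0| + |a2 + a3 + b0 + b2 + c0 + c1| + |a2 + a3 + a4 + b0 + b1 + b2 + 2 * c0 + c1| + |a3 + b0 + c1| + |a3 + a4 + b0 + b1 + c0 + c1| + |a4 + b1 + c0|) +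
    (|a0 + a3 + b1 + b2 + c0 + c1| + |a1 + a4 + b0 + b2 + c0 + c1| + |a2 + a5 + b0 + b1 + c0 + c1|) + |a1 + a3 + a5 + b0 + b1 + b2 + 2 * c0 + c1| - 2 * (-(a0 + a3 + a5 + b0 + b1 + b2 + 2 * c0 + c1)) < 5 * D := by
  obtain ⟨m, hm, h10⟩ := s10 0 (-(a0 + b0 + c0 + D) - (a1 + b1 + c1)) (-(a0 + b0 + c0 + D) - (a1 + b1 + c1) - (a2 + b2 + c0)) (-(a0 + b0 + c0 + D) - (a1 + b1 + c1) - (a2 + b2 + c0) - (a3 + b0 + c1)) (-(a0 + b0 + c0 + D) - (a1 + b1 + c1) - (a2 + b2 + c0) - (a3 + b0 + c1) - (a4 + b1 + c0))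
  rw [show 0 - (-(a0 + b0 + c0 + D) - (a1 + b1 + c1)) = a0 + a1 + b0 + b1 + c0 + c1 + D by linarith] at h10
  rw [show 0 - (-(a0 + b0 + c0 + D) - (a1 + b1 + c1) - (a2 + b2 + c0)) = a0 + a1 + a2 + b0 + b1 + b2 + 2 * c0 + c1 + D by linarith] at h10
  rw [show 0 - (-(a0 + b0 + c0 + D) - (a1 + b1 + c1) - (a2 + b2 + c0) - (a3 + b0 + c1)) = -(a4 + a5 + b1 + b2 + c0 + c1 - D) by linarith, abs_neg] at h10
  rw [show 0 - (-(a0 + b0 + c0 + D) - (a1 + b1 + c1) - (a2 + b2 + c0) - (a3 + b0 + c1) - (a4 + b1 + c0)) = -(a5 + b2 + c1 - D) by linarith, abs_neg] at h10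
  rw [show (-(a0 + b0 + c0 + D) - (a1 + b1 + c1)) - (-(a0 + b0 + c0 + D) - (a1 + b1 + c1) - (a2 + b2 + c0)) = a2 + b2 + c0 by linarith] at h10
  rw [show (-(a0 + b0 + c0 + D) - (a1 + b1 + c1)) - (-(a0 + b0 + c0 + D) - (a1 + b1 + c1) - (a2 + b2 + c0) - (a3 + b0 + c1)) = a2 + a3 + b0 + b2 + c0 + c1 by linarith] at h10
  rw [show (-(a0 + b0 + c0 + D) - (a1 + b1 + c1)) - (-(a0 + b0 + c0 + D) - (a1 + b1 + c1) - (a2 + b2 + c0) - (a3 + b0 + c1) - (a4 + b1 + c0)) = a2 + a3 + a4 + b0 + b1 + b2 + 2 * c0 + c1 by linarith] at h10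
  rw [show (-(a0 + b0 + c0 + D) - (a1 + b1 + c1) - (a2 + b2 + c0)) - (-(a0 + b0 + c0 + D) - (a1 + b1 + c1) - (a2 + b2 + c0) - (a3 + b0 + c1)) = a3 + b0 + c1 by linarith] at h10
  rw [show (-(a0 + b0 + c0 + D) - (a1 + b1 + c1) - (a2 + b2 + c0)) - (-(a0 + b0 + c0 + D) - (a1 + b1 + c1) - (a2 + b2 + c0) - (a3 + b0 + c1) - (a4 + b1 + c0)) = a3 + a4 + b0 + b1 + c0 + c1 by linarith] at h10
  rw [show (-(a0 + b0 + c0 + D) - (a1 + b1 + c1) - (a2 + b2 + c0) - (a3 + b0 + c1)) - (-(a0 + b0 + c0 + D) - (a1 + b1 + c1) - (a2 + b2 + c0) - (a3 + b0 + c1) - (a4 + b1 + c0)) = a4 + b1 + c0 by linarith] at h10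
  rw [abs_of_nonneg (show 0 ≤ a0 + b0 + c0 + D by linarith)]
  rw [abs_of_nonpos (show a1 + b1 + c1 ≤ 0 by linarith)]
  rw [abs_of_nonpos (show a1 + a2 + b1 + b2 + c0 + c1 ≤ 0 by linarith)]
  rw [abs_of_nonneg (show 0 ≤ a0 + a4 + a5 + b0 + b1 + b2 + 2 * c0 + c1 by linarith)]
  rw [abs_of_nonneg (show 0 ≤ a0 + a5 + b0 + b2 + c0 + c1 by linarith)]
  rw [abs_of_nonneg (show 0 ≤ a1 + a3 + a5 + b0 + b1 + b2 + 2 * c0 + c1 by linarith)]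
  have h3 := s3 (a0 + a3 + b1 + b2 + c0 + c1) (a1 + a4 + b0 + b2 + c0 + c1) (a2 + a5 + b0 + b1 + c0 + c1) (by linarith)
  generalize |a0 + a3 + b1 + b2 + c0 + c1| + |a1 + a4 + b0 + b2 + c0 + c1| + |a2 + a5 + b0 + b1 + c0 + c1| = S2 at h3 ⊢
  rcases hm with rfl | rfl | rfl | rfl | rfl <;> rcases h3 with h3 | h3 | h3 <;> linarith

lemma main_B2 {D a0 a1 a2 a3 a4 a5 b0 b1 b2 c0 c1 : ℤ}
    (hs : a0 + a1 + a2 + a3 + a4 + a5 + 2 * b0 + 2 * b1 + 2 * b2 + 3 * c0 + 3 * c1 = 0)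
    (ga0 : a0 ≤ a1)
    (ga1 : a1 ≤ a2)
    (ga2 : a2 ≤ a3)
    (ga3 : a3 ≤ a4)
    (ga4 : a4 ≤ a5)
    (ga5 : a5 ≤ a0 + D)
    (gb0 : b0 ≤ b1)
    (gb1 : b1 ≤ b2)
    (gb2 : b2 ≤ b0 + D)
    (gc0 : c0 ≤ c1)
    (gc1 : c1 ≤ c0 + D)
    (u011 : a0 + b1 + c1 < 0)
    (l021 : 0 < a0 + b2 + c1)
    (l100 : -D < a1 + b0 + c0)
    (u120 : a1 + b2 + c0 < 0)
    (u201 : a2 + b0 + c1 < 0)
    (l211 : 0 < a2 + b1 + c1)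
    (u310 : a3 + b1 + c0 < 0)
    (l320 : 0 < a3 + b2 + c0)
    (l401 : 0 < a4 + b0 + c1)
    (u421 : a4 + b2 + c1 < D)
    (u500 : a5 + b0 + c0 < 0)
    (l510 : 0 < a5 + b1 + c0)
    (m0201 : -D < a0 + a2 + b0 + b1 + c0 + c1)
    (p0212 : a0 + a2 + b1 + b2 + c0 + c1 < 0)
    (p0402 : a0 + a4 + b0 + b2 + c0 + c1 < 0)
    (m0412 : 0 < a0 + a4 + b1 + b2 + c0 + c1)
    (p1302 : a1 + a3 + b0 + b2 + c0 + c1 < 0)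
    (m1312 : 0 < a1 + a3 + b1 + b2 + c0 + c1)
    (p1501 : a1 + a5 + b0 + b1 + c0 + c1 < 0)
    (m1502 : 0 < a1 + a5 + b0 + b2 + c0 + c1)
    (p2401 : a2 + a4 + b0 + b1 + c0 + c1 < 0)
    (m2402 : 0 < a2 + a4 + b0 + b2 + c0 + c1)
    (m3501 : 0 < a3 + a5 + b0 + b1 + c0 + c1)
    (p3512 : a3 + a5 + b1 + b2 + c0 + c1 < D)
    (hG : -(a1 + a2 + a5 + b0 + b1 + b2 + 2 * c0 + c1) < 0) :
    (|a0 + b0 + c0 + D| + |a0 + a1 + b0 + b1 + c0 + c1 + D| + |a0 + a1 + a2 + b0 + b1 + b2 + 2 * c0 + c1 + D| + |a4 + a5 + b1 + b2 + c0 + c1 - D| + |a5 + b2 + c1 - D| + |a1 + b1 + c1| + |a1 + a2 + b1 + b2 + c0 + c1| + |a0 + a4 + a5 + b0 + b1 + b2 + 2 * c0 + c1| + |a0 + a5 + b0 + b2 + c0 + c1| + |a2 + b2 + c0| + |a2 + a3 + b0 + b2 + c0 + c1| + |a2 + a3 + a4 + b0 + b1 + b2 + 2 * c0 + c1| + |a3 + b0 + c1| + |a3 + a4 + b0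 + b1 + c0 + c1| + |a4 + b1 + c0|) +
    (|a0 + a3 + b1 + b2 + c0 + c1| + |a1 + a4 + b0 + b2 + c0 + c1| + |a2 + a5 + b0 + b1 + c0 + c1|) + |a1 + a3 + a5 + b0 + b1 + b2 + 2 * c0 + c1| - 2 * (-(a1 + a2 + a5 + b0 + b1 + b2 + 2 * c0 + c1)) < 5 * D := by
  obtain ⟨m, hm, h10⟩ := s10 0 (-(a0 + b0 + c0 + D)) (-(a0 + b0 + c0 + D) - (a1 + b1 + c1)) (-(a0 + b0 + c0 + D) - (a1 + b1 + c1) - (a2 + b2 + c0) - (a3 + b0 + c1)) (-(a0 + b0 + c0 + D) - (a1 + b1 + c1) - (a2 + b2 + c0) - (a3 + b0 + c1) - (a4 + b1 + c0))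
  rw [show 0 - (-(a0 + b0 + c0 + D)) = a0 + b0 + c0 + D by linarith] at h10
  rw [show 0 - (-(a0 + b0 + c0 + D) - (a1 + b1 + c1)) = a0 + a1 + b0 + b1 + c0 + c1 + D by linarith] at h10
  rw [show 0 - (-(a0 + b0 + c0 + D) - (a1 + b1 + c1) - (a2 + b2 + c0) - (a3 + b0 + c1)) = -(a4 + a5 + b1 + b2 + c0 + c1 - D) by linarith, abs_neg] at h10
  rw [show 0 - (-(a0 + b0 + c0 + D) - (a1 + b1 + c1) - (a2 + b2 + c0) - (a3 + b0 + c1) - (a4 + b1 + c0)) = -(a5 + b2 + c1 - D) by linarith, abs_neg] at h10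
  rw [show (-(a0 + b0 + c0 + D)) - (-(a0 + b0 + c0 + D) - (a1 + b1 + c1)) = a1 + b1 + c1 by linarith] at h10
  rw [show (-(a0 + b0 + c0 + D)) - (-(a0 + b0 + c0 + D) - (a1 + b1 + c1) - (a2 + b2 + c0) - (a3 + b0 + c1)) = -(a0 + a4 + a5 + b0 + b1 + b2 + 2 * c0 + c1) by linarith, abs_neg] at h10
  rw [show (-(a0 + b0 + c0 + D)) - (-(a0 + b0 + c0 + D) - (a1 + b1 + c1) - (a2 + b2 + c0) - (a3 + b0 + c1) - (a4 + b1 + c0)) = -(a0 + a5 + b0 + b2 + c0 + c1) by linarith, abs_neg] at h10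
  rw [show (-(a0 + b0 + c0 + D) - (a1 + b1 + c1)) - (-(a0 + b0 + c0 + D) - (a1 + b1 + c1) - (a2 + b2 + c0) - (a3 + b0 + c1)) = a2 + a3 + b0 + b2 + c0 + c1 by linarith] at h10
  rw [show (-(a0 + b0 + c0 + D) - (a1 + b1 + c1)) - (-(a0 + b0 + c0 + D) - (a1 + b1 + c1) - (a2 + b2 + c0) - (a3 + b0 + c1) - (a4 + b1 + c0)) = a2 + a3 + a4 + b0 + b1 + b2 + 2 * c0 + c1 by linarith] at h10
  rw [show (-(a0 + b0 + c0 + D) - (a1 + b1 + c1) - (a2 + b2 + c0) - (a3 + b0 + c1)) - (-(a0 + b0 + c0 + D) - (a1 + b1 + c1) - (a2 + b2 + c0) - (a3 + b0 + c1) - (a4 + b1 + c0)) = a4 + b1 + c0 by linarith] at h10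
  rw [abs_of_nonneg (show 0 ≤ a0 + a1 + a2 + b0 + b1 + b2 + 2 * c0 + c1 + D by linarith)]
  rw [abs_of_nonneg (show 0 ≤ a1 + a2 + b1 + b2 + c0 + c1 by linarith)]
  rw [abs_of_nonneg (show 0 ≤ a2 + b2 + c0 by linarith)]
  rw [abs_of_nonpos (show a3 + b0 + c1 ≤ 0 by linarith)]
  rw [abs_of_nonpos (show a3 + a4 + b0 + b1 + c0 + c1 ≤ 0 by linarith)]
  rw [abs_of_nonneg (show 0 ≤ a1 + a3 + a5 + b0 + b1 + b2 + 2 * c0 + c1 by linarith)]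
  have h3 := s3 (a0 + a3 + b1 + b2 + c0 + c1) (a1 + a4 + b0 + b2 + c0 + c1) (a2 + a5 + b0 + b1 + c0 + c1) (by linarith)
  generalize |a0 + a3 + b1 + b2 + c0 + c1| + |a1 + a4 + b0 + b2 + c0 + c1| + |a2 + a5 + b0 + b1 + c0 + c1| = S2 at h3 ⊢
  rcases hm with rfl | rfl | rfl | rfl | rfl <;> rcases h3 with h3 | h3 | h3 <;> linarith

lemma main_B3 {D a0 a1 a2 a3 a4 a5 b0 b1 b2 c0 c1 : ℤ}
    (hs : a0 + a1 + a2 + a3 + a4 + a5 + 2 * b0 + 2 * b1 + 2 * b2 + 3 * c0 + 3 * c1 = 0)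
    (ga0 : a0 ≤ a1)
    (ga1 : a1 ≤ a2)
    (ga2 : a2 ≤ a3)
    (ga3 : a3 ≤ a4)
    (ga4 : a4 ≤ a5)
    (ga5 : a5 ≤ a0 + D)
    (gb0 : b0 ≤ b1)
    (gb1 : b1 ≤ b2)
    (gb2 : b2 ≤ b0 + D)
    (gc0 : c0 ≤ c1)
    (gc1 : c1 ≤ c0 + D)
    (u011 : a0 + b1 + c1 < 0)
    (l021 : 0 < a0 + b2 + c1)
    (l100 : -D < a1 + b0 + c0)
    (u120 : a1 + b2 + c0 < 0)
    (u201 : a2 + b0 + c1 < 0)
    (l211 : 0 < a2 + b1 + c1)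
    (u310 : a3 + b1 + c0 < 0)
    (l320 : 0 < a3 + b2 + c0)
    (l401 : 0 < a4 + b0 + c1)
    (u421 : a4 + b2 + c1 < D)
    (u500 : a5 + b0 + c0 < 0)
    (l510 : 0 < a5 + b1 + c0)
    (m0201 : -D < a0 + a2 + b0 + b1 + c0 + c1)
    (p0212 : a0 + a2 + b1 + b2 + c0 + c1 < 0)
    (p0402 : a0 + a4 + b0 + b2 + c0 + c1 < 0)
    (m0412 : 0 < a0 + a4 + b1 + b2 + c0 + c1)
    (p1302 : a1 + a3 + b0 + b2 + c0 + c1 < 0)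
    (m1312 : 0 < a1 + a3 + b1 + b2 + c0 + c1)
    (p1501 : a1 + a5 + b0 + b1 + c0 + c1 < 0)
    (m1502 : 0 < a1 + a5 + b0 + b2 + c0 + c1)
    (p2401 : a2 + a4 + b0 + b1 + c0 + c1 < 0)
    (m2402 : 0 < a2 + a4 + b0 + b2 + c0 + c1)
    (m3501 : 0 < a3 + a5 + b0 + b1 + c0 + c1)
    (p3512 : a3 + a5 + b1 + b2 + c0 + c1 < D)
    (hG : -(a1 + a3 + a4 + b0 + b1 + b2 + 2 * c0 + c1) < 0) :
    (|a0 + b0 + c0 + D| + |a0 + a1 + b0 + b1 + c0 + c1 + D| + |a0 + a1 + a2 + b0 + b1 + b2 + 2 * c0 + c1 + D| + |a4 + a5 + b1 + b2 + c0 + c1 - D| + |a5 + b2 + c1 - D| + |a1 + b1 + c1| + |a1 + a2 + b1 + b2 + c0 + c1| + |a0 + a4 + a5 + b0 + b1 + b2 + 2 * c0 + c1| + |a0 + a5 + b0 + b2 + c0 + c1| + |a2 + b2 + c0| + |a2 + a3 + b0 + b2 + c0 + c1| + |a2 + a3 + a4 + b0 + b1 + b2 + 2 * c0 + c1| + |a3 + b0 + c1| + |a3 + a4 + b0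 + b1 + c0 + c1| + |a4 + b1 + c0|) +
    (|a0 + a3 + b1 + b2 + c0 + c1| + |a1 + a4 + b0 + b2 + c0 + c1| + |a2 + a5 + b0 + b1 + c0 + c1|) + |a1 + a3 + a5 + b0 + b1 + b2 + 2 * c0 + c1| - 2 * (-(a1 + a3 + a4 + b0 + b1 + b2 + 2 * c0 + c1)) < 5 * D := by
  obtain ⟨m, hm, h10⟩ := s10 0 (-(a0 + b0 + c0 + D)) (-(a0 + b0 + c0 + D) - (a1 + b1 + c1)) (-(a0 + b0 + c0 + D) - (a1 + b1 + c1) - (a2 + b2 + c0)) (-(a0 + b0 + c0 + D) - (a1 + b1 + c1) - (a2 + b2 + c0) - (a3 + b0 + c1))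
  rw [show 0 - (-(a0 + b0 + c0 + D)) = a0 + b0 + c0 + D by linarith] at h10
  rw [show 0 - (-(a0 + b0 + c0 + D) - (a1 + b1 + c1)) = a0 + a1 + b0 + b1 + c0 + c1 + D by linarith] at h10
  rw [show 0 - (-(a0 + b0 + c0 + D) - (a1 + b1 + c1) - (a2 + b2 + c0)) = a0 + a1 + a2 + b0 + b1 + b2 + 2 * c0 + c1 + D by linarith] at h10
  rw [show 0 - (-(a0 + b0 + c0 + D) - (a1 + b1 + c1) - (a2 + b2 + c0) - (a3 + b0 + c1)) = -(a4 + a5 + b1 + b2 + c0 + c1 - D) by linarith, abs_neg] at h10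
  rw [show (-(a0 + b0 + c0 + D)) - (-(a0 + b0 + c0 + D) - (a1 + b1 + c1)) = a1 + b1 + c1 by linarith] at h10
  rw [show (-(a0 + b0 + c0 + D)) - (-(a0 + b0 + c0 + D) - (a1 + b1 + c1) - (a2 + b2 + c0)) = a1 + a2 + b1 + b2 + c0 + c1 by linarith] at h10
  rw [show (-(a0 + b0 + c0 + D)) - (-(a0 + b0 + c0 + D) - (a1 + b1 + c1) - (a2 + b2 + c0) - (a3 + b0 + c1)) = -(a0 + a4 + a5 + b0 + b1 + b2 + 2 * c0 + c1) by linarith, abs_neg] at h10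
  rw [show (-(a0 + b0 + c0 + D) - (a1 + b1 + c1)) - (-(a0 + b0 + c0 + D) - (a1 + b1 + c1) - (a2 + b2 + c0)) = a2 + b2 + c0 by linarith] at h10
  rw [show (-(a0 + b0 + c0 + D) - (a1 + b1 + c1)) - (-(a0 + b0 + c0 + D) - (a1 + b1 + c1) - (a2 + b2 + c0) - (a3 + b0 + c1)) = a2 + a3 + b0 + b2 + c0 + c1 by linarith] at h10
  rw [show (-(a0 + b0 + c0 + D) - (a1 + b1 + c1) - (a2 + b2 + c0)) - (-(a0 + b0 + c0 + D) - (a1 + b1 + c1) - (a2 + b2 + c0) - (a3 + b0 + c1)) = a3 + b0 + c1 by linarith] at h10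
  rw [abs_of_nonpos (show a5 + b2 + c1 - D ≤ 0 by linarith)]
  rw [abs_of_nonpos (show a0 + a5 + b0 + b2 + c0 + c1 ≤ 0 by linarith)]
  rw [abs_of_nonneg (show 0 ≤ a2 + a3 + a4 + b0 + b1 + b2 + 2 * c0 + c1 by linarith)]
  rw [abs_of_nonneg (show 0 ≤ a3 + a4 + b0 + b1 + c0 + c1 by linarith)]
  rw [abs_of_nonneg (show 0 ≤ a4 + b1 + c0 by linarith)]
  rw [abs_of_nonneg (show 0 ≤ a1 + a3 + a5 + b0 + b1 + b2 + 2 * c0 + c1 by linarith)]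
  have h3 := s3 (a0 + a3 + b1 + b2 + c0 + c1) (a1 + a4 + b0 + b2 + c0 + c1) (a2 + a5 + b0 + b1 + c0 + c1) (by linarith)
  generalize |a0 + a3 + b1 + b2 + c0 + c1| + |a1 + a4 + b0 + b2 + c0 + c1| + |a2 + a5 + b0 + b1 + c0 + c1| = S2 at h3 ⊢
  rcases hm with rfl | rfl | rfl | rfl | rfl <;> rcases h3 with h3 | h3 | h3 <;> linarith

lemma main_B4 {D a0 a1 a2 a3 a4 a5 b0 b1 b2 c0 c1 : ℤ}
    (hs : a0 + a1 + a2 + a3 + a4 + a5 + 2 * b0 + 2 * b1 + 2 * b2 + 3 * c0 + 3 * c1 = 0)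
    (ga0 : a0 ≤ a1)
    (ga1 : a1 ≤ a2)
    (ga2 : a2 ≤ a3)
    (ga3 : a3 ≤ a4)
    (ga4 : a4 ≤ a5)
    (ga5 : a5 ≤ a0 + D)
    (gb0 : b0 ≤ b1)
    (gb1 : b1 ≤ b2)
    (gb2 : b2 ≤ b0 + D)
    (gc0 : c0 ≤ c1)
    (gc1 : c1 ≤ c0 + D)
    (u011 : a0 + b1 + c1 < 0)
    (l021 : 0 < a0 + b2 + c1)
    (l100 : -D < a1 + b0 + c0)
    (u120 : a1 + b2 + c0 < 0)
    (u201 : a2 + b0 + c1 < 0)
    (l211 : 0 < a2 + b1 + c1)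
    (u310 : a3 + b1 + c0 < 0)
    (l320 : 0 < a3 + b2 + c0)
    (l401 : 0 < a4 + b0 + c1)
    (u421 : a4 + b2 + c1 < D)
    (u500 : a5 + b0 + c0 < 0)
    (l510 : 0 < a5 + b1 + c0)
    (m0201 : -D < a0 + a2 + b0 + b1 + c0 + c1)
    (p0212 : a0 + a2 + b1 + b2 + c0 + c1 < 0)
    (p0402 : a0 + a4 + b0 + b2 + c0 + c1 < 0)
    (m0412 : 0 < a0 + a4 + b1 + b2 + c0 + c1)
    (p1302 : a1 + a3 + b0 + b2 + c0 + c1 < 0)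
    (m1312 : 0 < a1 + a3 + b1 + b2 + c0 + c1)
    (p1501 : a1 + a5 + b0 + b1 + c0 + c1 < 0)
    (m1502 : 0 < a1 + a5 + b0 + b2 + c0 + c1)
    (p2401 : a2 + a4 + b0 + b1 + c0 + c1 < 0)
    (m2402 : 0 < a2 + a4 + b0 + b2 + c0 + c1)
    (m3501 : 0 < a3 + a5 + b0 + b1 + c0 + c1)
    (p3512 : a3 + a5 + b1 + b2 + c0 + c1 < D)
    (hG : a1 + a4 + a5 + b0 + b1 + b2 + 2 * c0 + c1 < 0) :
    (|a0 + b0 + c0 + D| + |a0 + a1 + b0 + b1 + c0 + c1 + D| + |a0 + a1 + a2 + b0 + b1 + b2 + 2 * c0 + c1 + D| + |a4 + a5 + b1 + b2 + c0 + c1 - D| + |a5 + b2 + c1 - D| + |a1 + b1 + c1| + |a1 + a2 + b1 + b2 + c0 + c1| + |a0 + a4 + a5 + b0 + b1 + b2 + 2 * c0 + c1| + |a0 + a5 + b0 + b2 + c0 + c1| + |a2 + b2 + c0| + |a2 + a3 + b0 + b2 + c0 + c1| + |a2 + a3 + a4 + b0 + b1 + b2 + 2 * c0 + c1| + |a3 + b0 + c1| + |a3 + a4 + b0 +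 b1 + c0 + c1| + |a4 + b1 + c0|) +
    (|a0 + a3 + b1 + b2 + c0 + c1| + |a1 + a4 + b0 + b2 + c0 + c1| + |a2 + a5 + b0 + b1 + c0 + c1|) + |a1 + a3 + a5 + b0 + b1 + b2 + 2 * c0 + c1| - 2 * (a1 + a4 + a5 + b0 + b1 + b2 + 2 * c0 + c1) < 5 * D := by
  obtain ⟨m, hm, h10⟩ := s10 0 (-(a0 + b0 + c0 + D)) (-(a0 + b0 + c0 + D) - (a1 + b1 + c1)) (-(a0 + b0 + c0 + D) - (a1 + b1 + c1) - (a2 + b2 + c0)) (-(a0 + b0 + c0 + D) - (a1 + b1 + c1) - (a2 + b2 + c0) - (a3 + b0 + c1) - (a4 + b1 + c0))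
  rw [show 0 - (-(a0 + b0 + c0 + D)) = a0 + b0 + c0 + D by linarith] at h10
  rw [show 0 - (-(a0 + b0 + c0 + D) - (a1 + b1 + c1)) = a0 + a1 + b0 + b1 + c0 + c1 + D by linarith] at h10
  rw [show 0 - (-(a0 + b0 + c0 + D) - (a1 + b1 + c1) - (a2 + b2 + c0)) = a0 + a1 + a2 + b0 + b1 + b2 + 2 * c0 + c1 + D by linarith] at h10
  rw [show 0 - (-(a0 + b0 + c0 + D) - (a1 + b1 + c1) - (a2 + b2 + c0) - (a3 + b0 + c1) - (a4 + b1 + c0)) = -(a5 + b2 + c1 - D) by linarith, abs_neg] at h10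
  rw [show (-(a0 + b0 + c0 + D)) - (-(a0 + b0 + c0 + D) - (a1 + b1 + c1)) = a1 + b1 + c1 by linarith] at h10
  rw [show (-(a0 + b0 + c0 + D)) - (-(a0 + b0 + c0 + D) - (a1 + b1 + c1) - (a2 + b2 + c0)) = a1 + a2 + b1 + b2 + c0 + c1 by linarith] at h10
  rw [show (-(a0 + b0 + c0 + D)) - (-(a0 + b0 + c0 + D) - (a1 + b1 + c1) - (a2 + b2 + c0) - (a3 + b0 + c1) - (a4 + b1 + c0)) = -(a0 + a5 + b0 + b2 + c0 + c1) by linarith, abs_neg] at h10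
  rw [show (-(a0 + b0 + c0 + D) - (a1 + b1 + c1)) - (-(a0 + b0 + c0 + D) - (a1 + b1 + c1) - (a2 + b2 + c0)) = a2 + b2 + c0 by linarith] at h10
  rw [show (-(a0 + b0 + c0 + D) - (a1 + b1 + c1)) - (-(a0 + b0 + c0 + D) - (a1 + b1 + c1) - (a2 + b2 + c0) - (a3 + b0 + c1) - (a4 + b1 + c0)) = a2 + a3 + a4 + b0 + b1 + b2 + 2 * c0 + c1 by linarith] at h10
  rw [show (-(a0 + b0 + c0 + D) - (a1 + b1 + c1) - (a2 + b2 + c0)) - (-(a0 + b0 + c0 + D) - (a1 + b1 + c1) - (a2 + b2 + c0) - (a3 + b0 + c1) - (a4 + b1 + c0)) = a3 + a4 + b0 + b1 + c0 + c1 by linarith] at h10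
  rw [abs_of_nonpos (show a4 + a5 + b1 + b2 + c0 + c1 - D ≤ 0 by linarith)]
  rw [abs_of_nonpos (show a0 + a4 + a5 + b0 + b1 + b2 + 2 * c0 + c1 ≤ 0 by linarith)]
  rw [abs_of_nonneg (show 0 ≤ a2 + a3 + b0 + b2 + c0 + c1 by linarith)]
  rw [abs_of_nonneg (show 0 ≤ a3 + b0 + c1 by linarith)]
  rw [abs_of_nonpos (show a4 + b1 + c0 ≤ 0 by linarith)]
  rw [abs_of_nonpos (show a1 + a3 + a5 + b0 + b1 + b2 + 2 * c0 + c1 ≤ 0 by linarith)]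
  have h3 := s3 (a0 + a3 + b1 + b2 + c0 + c1) (a1 + a4 + b0 + b2 + c0 + c1) (a2 + a5 + b0 + b1 + c0 + c1) (by linarith)
  generalize |a0 + a3 + b1 + b2 + c0 + c1| + |a1 + a4 + b0 + b2 + c0 + c1| + |a2 + a5 + b0 + b1 + c0 + c1| = S2 at h3 ⊢
  rcases hm with rfl | rfl | rfl | rfl | rfl <;> rcases h3 with h3 | h3 | h3 <;> linarith

lemma main_B5 {D a0 a1 a2 a3 a4 a5 b0 b1 b2 c0 c1 : ℤ}
    (hs : a0 + a1 + a2 + a3 + a4 + a5 + 2 * b0 + 2 * b1 + 2 * b2 + 3 * c0 + 3 * c1 = 0)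
    (ga0 : a0 ≤ a1)
    (ga1 : a1 ≤ a2)
    (ga2 : a2 ≤ a3)
    (ga3 : a3 ≤ a4)
    (ga4 : a4 ≤ a5)
    (ga5 : a5 ≤ a0 + D)
    (gb0 : b0 ≤ b1)
    (gb1 : b1 ≤ b2)
    (gb2 : b2 ≤ b0 + D)
    (gc0 : c0 ≤ c1)
    (gc1 : c1 ≤ c0 + D)
    (u011 : a0 + b1 + c1 < 0)
    (l021 : 0 < a0 + b2 + c1)
    (l100 : -D < a1 + b0 + c0)
    (u120 : a1 + b2 + c0 < 0)
    (u201 : a2 + b0 + c1 < 0)
    (l211 : 0 < a2 + b1 + c1)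
    (u310 : a3 + b1 + c0 < 0)
    (l320 : 0 < a3 + b2 + c0)
    (l401 : 0 < a4 + b0 + c1)
    (u421 : a4 + b2 + c1 < D)
    (u500 : a5 + b0 + c0 < 0)
    (l510 : 0 < a5 + b1 + c0)
    (m0201 : -D < a0 + a2 + b0 + b1 + c0 + c1)
    (p0212 : a0 + a2 + b1 + b2 + c0 + c1 < 0)
    (p0402 : a0 + a4 + b0 + b2 + c0 + c1 < 0)
    (m0412 : 0 < a0 + a4 + b1 + b2 + c0 + c1)
    (p1302 : a1 + a3 + b0 + b2 + c0 + c1 < 0)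
    (m1312 : 0 < a1 + a3 + b1 + b2 + c0 + c1)
    (p1501 : a1 + a5 + b0 + b1 + c0 + c1 < 0)
    (m1502 : 0 < a1 + a5 + b0 + b2 + c0 + c1)
    (p2401 : a2 + a4 + b0 + b1 + c0 + c1 < 0)
    (m2402 : 0 < a2 + a4 + b0 + b2 + c0 + c1)
    (m3501 : 0 < a3 + a5 + b0 + b1 + c0 + c1)
    (p3512 : a3 + a5 + b1 + b2 + c0 + c1 < D)
    (hG : a2 + a3 + a5 + b0 + b1 + b2 + 2 * c0 + c1 < 0) :
    (|a0 + b0 + c0 + D| + |a0 + a1 + b0 + b1 + c0 + c1 + D| + |a0 + a1 + a2 + b0 + b1 + b2 + 2 * c0 + c1 + D| + |a4 + a5 + b1 + b2 + c0 + c1 - D| + |a5 + b2 + c1 - D| + |a1 + b1 + c1| + |a1 + a2 + b1 + b2 + c0 + c1| + |a0 + a4 + a5 + b0 + b1 + b2 + 2 * c0 + c1| + |a0 + a5 + b0 + b2 + c0 + c1| + |a2 + b2 + c0| + |a2 + a3 + b0 + b2 + c0 + c1| + |a2 + a3 + a4 + b0 + b1 + b2 + 2 * c0 + c1| + |a3 + b0 + c1| + |a3 + a4 + b0 +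 b1 + c0 + c1| + |a4 + b1 + c0|) +
    (|a0 + a3 + b1 + b2 + c0 + c1| + |a1 + a4 + b0 + b2 + c0 + c1| + |a2 + a5 + b0 + b1 + c0 + c1|) + |a1 + a3 + a5 + b0 + b1 + b2 + 2 * c0 + c1| - 2 * (a2 + a3 + a5 + b0 + b1 + b2 + 2 * c0 + c1) < 5 * D := by
  obtain ⟨m, hm, h10⟩ := s10 0 (-(a0 + b0 + c0 + D)) (-(a0 + b0 + c0 + D) - (a1 + b1 + c1) - (a2 + b2 + c0)) (-(a0 + b0 + c0 + D) - (a1 + b1 + c1) - (a2 + b2 + c0) - (a3 + b0 + c1)) (-(a0 + b0 + c0 + D) - (a1 + b1 + c1) - (a2 + b2 + c0) - (a3 + b0 + c1) - (a4 + b1 + c0))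
  rw [show 0 - (-(a0 + b0 + c0 + D)) = a0 + b0 + c0 + D by linarith] at h10
  rw [show 0 - (-(a0 + b0 + c0 + D) - (a1 + b1 + c1) - (a2 + b2 + c0)) = a0 + a1 + a2 + b0 + b1 + b2 + 2 * c0 + c1 + D by linarith] at h10
  rw [show 0 - (-(a0 + b0 + c0 + D) - (a1 + b1 + c1) - (a2 + b2 + c0) - (a3 + b0 + c1)) = -(a4 + a5 + b1 + b2 + c0 + c1 - D) by linarith, abs_neg] at h10
  rw [show 0 - (-(a0 + b0 + c0 + D) - (a1 + b1 + c1) - (a2 + b2 + c0) - (a3 + b0 + c1) - (a4 + b1 + c0)) = -(a5 + b2 + c1 - D) by linarith, abs_neg] at h10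
  rw [show (-(a0 + b0 + c0 + D)) - (-(a0 + b0 + c0 + D) - (a1 + b1 + c1) - (a2 + b2 + c0)) = a1 + a2 + b1 + b2 + c0 + c1 by linarith] at h10
  rw [show (-(a0 + b0 + c0 + D)) - (-(a0 + b0 + c0 + D) - (a1 + b1 + c1) - (a2 + b2 + c0) - (a3 + b0 + c1)) = -(a0 + a4 + a5 + b0 + b1 + b2 + 2 * c0 + c1) by linarith, abs_neg] at h10
  rw [show (-(a0 + b0 + c0 + D)) - (-(a0 + b0 + c0 + D) - (a1 + b1 + c1) - (a2 + b2 + c0) - (a3 + b0 + c1) - (a4 + b1 + c0)) = -(a0 + a5 + b0 + b2 + c0 + c1) by linarith, abs_neg] at h10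
  rw [show (-(a0 + b0 + c0 + D) - (a1 + b1 + c1) - (a2 + b2 + c0)) - (-(a0 + b0 + c0 + D) - (a1 + b1 + c1) - (a2 + b2 + c0) - (a3 + b0 + c1)) = a3 + b0 + c1 by linarith] at h10
  rw [show (-(a0 + b0 + c0 + D) - (a1 + b1 + c1) - (a2 + b2 + c0)) - (-(a0 + b0 + c0 + D) - (a1 + b1 + c1) - (a2 + b2 + c0) - (a3 + b0 + c1) - (a4 + b1 + c0)) = a3 + a4 + b0 + b1 + c0 + c1 by linarith] at h10
  rw [show (-(a0 + b0 + c0 + D) - (a1 + b1 + c1) - (a2 + b2 + c0) - (a3 + b0 + c1)) - (-(a0 + b0 + c0 + D) - (a1 + b1 + c1) - (a2 + b2 + c0) - (a3 + b0 + c1) - (a4 + b1 + c0)) = a4 + b1 + c0 by linarith] at h10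
  rw [abs_of_nonneg (show 0 ≤ a0 + a1 + b0 + b1 + c0 + c1 + D by linarith)]
  rw [abs_of_nonneg (show 0 ≤ a1 + b1 + c1 by linarith)]
  rw [abs_of_nonpos (show a2 + b2 + c0 ≤ 0 by linarith)]
  rw [abs_of_nonpos (show a2 + a3 + b0 + b2 + c0 + c1 ≤ 0 by linarith)]
  rw [abs_of_nonpos (show a2 + a3 + a4 + b0 + b1 + b2 + 2 * c0 + c1 ≤ 0 by linarith)]
  rw [abs_of_nonpos (show a1 + a3 + a5 + b0 + b1 + b2 + 2 * c0 + c1 ≤ 0 by linarith)]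
  have h3 := s3 (a0 + a3 + b1 + b2 + c0 + c1) (a1 + a4 + b0 + b2 + c0 + c1) (a2 + a5 + b0 + b1 + c0 + c1) (by linarith)
  generalize |a0 + a3 + b1 + b2 + c0 + c1| + |a1 + a4 + b0 + b2 + c0 + c1| + |a2 + a5 + b0 + b1 + c0 + c1| = S2 at h3 ⊢
  rcases hm with rfl | rfl | rfl | rfl | rfl <;> rcases h3 with h3 | h3 | h3 <;> linarith

end Pool.Agent.TH190.E8
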