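import Pool.Agent.TH190.E8.Final8

set_option autoImplicit false
set_option maxHeartbeats 4000000

/-!
Rank six systems on the line with three punctures.
-/

namespace Pool.Agent.TH190.E8

open Finset Polynomial Pool.Agent.W280.PC Pool.Agent.W280.PE Pool.Agent.W432.PC

universe u

/-- Two triples of indices, one index for each of the three points, which differ at the point `p 0`,
lie in different pairs at `p 1` and in different halves at `p 2`. -/
def Two (p : Equiv.Perm (Fin 3)) (κ κ' : Fin 3 → Fin 6) : Prop :=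
  κ (p 0) ≠ κ' (p 0) ∧ (κ (p 1) : ℕ) / 2 ≠ (κ' (p 1) : ℕ) / 2 ∧
    (κ (p 2) : ℕ) / 3 ≠ (κ' (p 2) : ℕ) / 3

/-- Three triples of indices, one index for each of the three points, which are different at the point
`p 0`, lie in different pairs at `p 1`, and do not all lie in the same half at `p 2`. -/
def Three (p : Equiv.Perm (Fin 3)) (κ κ' κ'' : Fin 3 → Fin 6) : Prop :=
  (κ (p 0) ≠ κ' (p 0) ∧ κ (p 0) ≠ κ'' (p 0) ∧ κ' (p 0) ≠ κ'' (p 0)) ∧
    ((κ (p 1) : ℕ) / 2 ≠ (κ' (p 1) : ℕ) / 2 ∧ (κ (p 1) : ℕ) / 2 ≠ (κ'' (p 1) : ℕ) / 2 ∧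
      (κ' (p 1) : ℕ) / 2 ≠ (κ'' (p 1) : ℕ) / 2) ∧
    ¬ ((κ (p 2) : ℕ) / 3 = (κ' (p 2) : ℕ) / 3 ∧ (κ (p 2) : ℕ) / 3 = (κ'' (p 2) : ℕ) / 3)

lemma good_perm {r : ℕ} {N : ℕ} {e : Fin 3 → Fin r → ℤ} {a : ℤ}
    (h : ∃ X Y C, Good N (e 0) (e 1) (e 2) a X Y C) (p : Equiv.Perm (Fin 3)) :
    ∃ X Y C, Good N (e (p 0)) (e (p 1)) (e (p 2)) a X Y C := by
  obtain ⟨X, Y, C, h⟩ := h
  have h01 : p 0 ≠ p 1 := fun h => absurd (p.injective h) (by decide)
  have h02 : p 0 ≠ p 2 := fun h => absurd (p.injective h) (by decide)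
  have h12 : p 1 ≠ p 2 := fun h => absurd (p.injective h) (by decide)
  generalize p 0 = i at *
  generalize p 1 = j at *
  generalize p 2 = k at *
  rcases fin3 i with rfl | rfl | rfl <;> rcases fin3 j with rfl | rfl | rfl <;>
    rcases fin3 k with rfl | rfl | rfl <;>
    first
    | exact absurd rfl h01
    | exact absurd rfl h02
    | exact absurd rfl h12
    | exact ⟨_, _, _, h⟩
    | exact ⟨_, _, _, h.rot⟩
    | exact ⟨_, _, _, h.rot.rot⟩
    | exact ⟨_, _, _, good_swap h⟩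
    | exact ⟨_, _, _, (good_swap h).rot⟩
    | exact ⟨_, _, _, (good_swap h).rot.rot⟩

lemma sum_perm3 (p : Equiv.Perm (Fin 3)) (f : Fin 3 → ℤ) : ∑ i, f i = f (p 0) + f (p 1) + f (p 2) := by
  rw [← Equiv.sum_comp p f, Fin.sum_univ_three]

/-- the triple of indices with given values at `p 0`, `p 1`, `p 2` -/
def tri (p : Equiv.Perm (Fin 3)) (i j k : Fin 6) : Fin 3 → Fin 6 := fun l => ![i, j, k] (p.symm l)

lemma tri0 (p : Equiv.Perm (Fin 3)) (i j k : Fin 6) : tri p i j k (p 0) = i := by simp [tri]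
lemma tri1 (p : Equiv.Perm (Fin 3)) (i j k : Fin 6) : tri p i j k (p 1) = j := by simp [tri]
lemma tri2 (p : Equiv.Perm (Fin 3)) (i j k : Fin 6) : tri p i j k (p 2) = k := by simp [tri]

/-- the index of the `j`-th pair -/
def dbl (j : Fin 3) : Fin 6 := ![0, 2, 4] j

lemma y3_eq (e : Fin 6 → ℤ) (j : Fin 3) : y3 e j = e (dbl j) := by
  rcases fin3 j with rfl | rfl | rfl <;> simp [y3, dbl]

lemma dbl_div (j : Fin 3) : ((dbl j : Fin 6) : ℕ) / 2 = (j : ℕ) := by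
  rcases fin3 j with rfl | rfl | rfl <;> simp [dbl]

variable {R : Type u} [CommRing R] [IsDomain R] [CharZero R]

theorem affine6 (α : Fin 2 → R) (hα : ∀ i j, i ≠ j → IsUnit (α i - α j))
    (A : Fin 2 → Matrix (Fin 6) (Fin 6) R) (N : ℕ) (hN : 1 < N) (e : Fin 3 → Fin 6 → ℤ)
    (he0 : HasExponents (A 0) (fun l => (e 0 l : ℚ) / N))
    (he1 : HasExponents (A 1) (fun l => (e 1 l : ℚ) / N))
    (he2 : HasExponents (A 0 + A 1) (fun l => -(e 2 l : ℚ) / N))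
    (p : Equiv.Perm (Fin 3))
    (hp1 : ∀ l l' : Fin 6, (l : ℕ) / 2 = (l' : ℕ) / 2 → (N : ℤ) ∣ e (p 1) l - e (p 1) l')
    (hp2 : ∀ l l' : Fin 6, (l : ℕ) / 3 = (l' : ℕ) / 3 → (N : ℤ) ∣ e (p 2) l - e (p 2) l')
    (h1 : ∀ i l l', IsCoprime (e i l - e i l') (N : ℤ) ∨ (N : ℤ) ∣ e i l - e i l')
    (h2 : ∀ κ : Fin 3 → Fin 6, IsCoprime (∑ i, e i (κ i)) (N : ℤ))
    (h3 : ∀ κ κ' : Fin 3 → Fin 6, Two p κ κ' →
      IsCoprime (∑ i, e i (κ i) + ∑ i, e i (κ' i)) (N : ℤ))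
    (h4 : ∀ κ κ' κ'' : Fin 3 → Fin 6, Three p κ κ' κ'' →
      IsCoprime (∑ i, e i (κ i) + ∑ i, e i (κ' i) + ∑ i, e i (κ'' i)) (N : ℤ)) :
    BadClass α A N := by
  by_contra hcon
  have hg := good_all α hα A N hN e he0 he1 he2 hcon
  have ev : ∀ i j k : Fin 6, ∑ l, e l (tri p i j k l) = e (p 0) i + e (p 1) j + e (p 2) k := by
    intro i j k
    rw [sum_perm3 p (fun l => e l (tri p i j k l))]
    simp only [tri0, tri1, tri2]
  refine arith8 hN (e1 := e (p 0)) (e2 := e (p 1)) (e3 := e (p 2)) (hp1 0 1 rfl) (hp1 2 3 rfl)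
    (hp1 4 5 rfl) (hp2 0 1 rfl) (hp2 0 2 rfl) (hp2 3 4 rfl) (hp2 3 5 rfl) (h1 _) (h1 _) (h1 _ _ _)
    (fun i j => ?_) (fun i j => ?_) (fun i i' k k' hi hk => ?_) (fun T hT => ?_)
    (fun a ha => good_perm (hg a ha) p)
  · have := h2 (tri p i (dbl j) 0)
    rw [ev] at this
    rwa [y3_eq]
  · have := h2 (tri p i (dbl j) 3)
    rw [ev] at this
    rwa [y3_eq]
  · have := h3 (tri p i (dbl k) 0) (tri p i' (dbl k') 3) (by
      unfold Two
      simp only [tri0, tri1, tri2, dbl_div]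
      refine ⟨hi, fun h => hk (Fin.ext h), by decide⟩)
    rw [ev, ev] at this
    rw [y3_eq, y3_eq]
    rwa [show e (p 0) i + e (p 1) (dbl k) + e (p 2) 0 + (e (p 0) i' + e (p 1) (dbl k') +
      e (p 2) 3) = (e (p 0) i + e (p 0) i') + (e (p 1) (dbl k) + e (p 1) (dbl k')) +
      (e (p 2) 0 + e (p 2) 3) by ring] at this
  · obtain ⟨i, j, k, hij, hik, hjk, rfl⟩ := Finset.card_eq_three.1 (Finset.mem_powersetCard.1 hT).2
    rw [sum_tri _ hij hik hjk, Fin.sum_univ_three]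
    constructor
    · have := h4 (tri p i (dbl 0) 0) (tri p j (dbl 1) 0) (tri p k (dbl 2) 3) (by
        unfold Three
        simp only [tri0, tri1, tri2, dbl_div]
        exact ⟨⟨hij, hik, hjk⟩, by decide, by decide⟩)
      rw [ev, ev, ev] at this
      rw [y3_eq, y3_eq, y3_eq]
      rwa [show e (p 0) i + e (p 1) (dbl 0) + e (p 2) 0 + (e (p 0) j + e (p 1) (dbl 1) +
        e (p 2) 0) + (e (p 0) k + e (p 1) (dbl 2) + e (p 2) 3) = e (p 0) i + e (p 0) j +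
        e (p 0) k + (e (p 1) (dbl 0) + e (p 1) (dbl 1) + e (p 1) (dbl 2)) +
        (2 * e (p 2) 0 + e (p 2) 3) by ring] at this
    · have := h4 (tri p i (dbl 0) 3) (tri p j (dbl 1) 3) (tri p k (dbl 2) 0) (by
        unfold Three
        simp only [tri0, tri1, tri2, dbl_div]
        exact ⟨⟨hij, hik, hjk⟩, by decide, by decide⟩)
      rw [ev, ev, ev] at this
      rw [y3_eq, y3_eq, y3_eq]
      rwa [show e (p 0) i + e (p 1) (dbl 0) + e (p 2) 3 + (e (p 0) j + e (p 1) (dbl 1) +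
        e (p 2) 3) + (e (p 0) k + e (p 1) (dbl 2) + e (p 2) 0) = e (p 0) i + e (p 0) j +
        e (p 0) k + (e (p 1) (dbl 0) + e (p 1) (dbl 1) + e (p 1) (dbl 2)) +
        (2 * e (p 2) 3 + e (p 2) 0) by ring] at this

end Pool.Agent.TH190.E8
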