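import Mathlib

set_option autoImplicit false

/-!
Matching blocks with classes (Hall's theorem).
-/

namespace Pool.Agent.TH190.E8

open Finset

/-- A permutation of `m` blocks of size `d` maps, for a suitable bijection of the blocks, some element
of every block to the corresponding block. -/
lemma exists_match {m d : ℕ} (hd : 0 < d) (σ : Equiv.Perm (Fin m × Fin d)) :
    ∃ π : Equiv.Perm (Fin m), ∀ j, ∃ i, (σ (j, i)).1 = π j := by
  classical
  obtain ⟨f, hf, hf'⟩ := (Finset.all_card_le_biUnion_card_iff_exists_injective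
    (fun j : Fin m => univ.image (fun i : Fin d => (σ (j, i)).1))).1 (by
      intro s
      have h1 : (s ×ˢ (univ : Finset (Fin d))).card ≤
          ((s.biUnion fun j : Fin m => univ.image (fun i : Fin d => (σ (j, i)).1)) ×ˢ
            (univ : Finset (Fin d))).card := by
        rw [← Finset.card_map σ.toEmbedding]
        refine Finset.card_le_card ?_
        intro x hx
        rw [Finset.mem_map] at hx
        obtain ⟨y, hy, rfl⟩ := hx
        rw [Finset.mem_product] at hy ⊢
        refine ⟨Finset.mem_biUnion.2 ⟨y.1, hy.1, Finset.mem_image.2 ⟨y.2, mem_univ _, rfl⟩⟩,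
          mem_univ _⟩
      rw [Finset.card_product, Finset.card_product, Finset.card_univ, Fintype.card_fin] at h1
      exact Nat.le_of_mul_le_mul_right h1 hd)
  refine ⟨Equiv.ofBijective f (Finite.injective_iff_bijective.1 hf), fun j => ?_⟩
  obtain ⟨i, -, hi⟩ := Finset.mem_image.1 (hf' j)
  exact ⟨i, hi⟩

/-- The version for functions on `Fin (m * d)`. -/
lemma exists_match' {m d : ℕ} (hd : 0 < d) (σ : Equiv.Perm (Fin (m * d))) :
    ∃ π : Equiv.Perm (Fin m), ∀ j, ∃ i i' : Fin d,
      σ (finProdFinEquiv (j, i)) = finProdFinEquiv (π j, i') := by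
  obtain ⟨π, hπ⟩ := exists_match hd
    ((finProdFinEquiv (m := m) (n := d)).trans (σ.trans (finProdFinEquiv (m := m) (n := d)).symm))
  refine ⟨π, fun j => ?_⟩
  obtain ⟨i, hi⟩ := hπ j
  refine ⟨i, ((finProdFinEquiv (m := m) (n := d)).symm (σ (finProdFinEquiv (j, i)))).2, ?_⟩
  rw [← hi]
  exact ((finProdFinEquiv (m := m) (n := d)).apply_symm_apply _).symm

end Pool.Agent.TH190.E8
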