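import Pool.Agent.TH190.E8.Psi8
import Pool.Agent.TH190.E8.Match
import Pool.Agent.W280.PE.Arith7

set_option autoImplicit false
set_option maxHeartbeats 4000000

/-!
The arithmetic theorem for rank six.
-/

namespace Pool.Agent.TH190.E8

open Finset Pool.Agent.W280.PC Pool.Agent.W280.PE

lemma I1_swap {r : ℤ} {X Y C : ℤ → ℤ} (h : I1 r X Y C) : I1 r Y X C := by
  intro i k l h1
  have := h k i l (by linarith)
  linarith

lemma J1_swap {r : ℤ} {X Y C : ℤ → ℤ} (h : J1 r X Y C) : J1 r Y X C := by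
  intro i k l h1
  have := h k i l (by linarith)
  linarith

lemma I2_swap {r : ℤ} {X Y C : ℤ → ℤ} (h : I2 r X Y C) : I2 r Y X C := by
  intro i i' k k' l l' h1 h2 h3 h4 h5 h6 h7 h8 h9 h10 h11
  have := h k k' i i' l l' h3 h4 h1 h2 h5 h6 (by linarith) (by linarith) (by linarith)
    (by linarith) (by linarith)
  linarith

lemma J2_swap {r : ℤ} {X Y C : ℤ → ℤ} (h : J2 r X Y C) : J2 r Y X C := by
  intro i i' k k' l l' h1 h2 h3 h4 h5 h6 h7 h8 h9 h10 h11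
  have := h k k' i i' l l' h3 h4 h1 h2 h5 h6 (by linarith) (by linarith) (by linarith)
    (by linarith) (by linarith)
  linarith

lemma good_swap {r : ℕ} {N : ℕ} {e1 e2 e3 : Fin r → ℤ} {a : ℤ} {X Y C : ℤ → ℤ}
    (h : Good N e1 e2 e3 a X Y C) : Good N e2 e1 e3 a Y X C :=
  ⟨h.sY, h.sX, h.sC, by linarith [h.sum], I1_swap h.i1, J1_swap h.j1, I2_swap h.i2, J2_swap h.j2⟩

/-- representatives of the three classes of two exponents -/
def y3 (e : Fin 6 → ℤ) : Fin 3 → ℤ := ![e 0, e 2, e 4]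

lemma fin2 (i : Fin 2) : i = 0 ∨ i = 1 := by fin_cases i <;> simp

lemma fin3 (i : Fin 3) : i = 0 ∨ i = 1 ∨ i = 2 := by fin_cases i <;> simp

/-- matching of the classes, blocks of two -/
lemma match2 {N : ℤ} {Z : ℤ → ℤ} {e : Fin 6 → ℤ} {a : ℤ} (τ : Equiv.Perm (Fin 6))
    (hτ : ∀ l : Fin 6, N ∣ Z ((l : ℕ) : ℤ) - a * e (τ l))
    (h01 : Z 0 = Z 1) (h23 : Z 2 = Z 3) (h45 : Z 4 = Z 5)
    (d0 : N ∣ e 0 - e 1) (d1 : N ∣ e 2 - e 3) (d2 : N ∣ e 4 - e 5) :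
    ∃ π : Equiv.Perm (Fin 3), ∀ j : Fin 3, N ∣ Z (2 * ((j : ℕ) : ℤ)) - a * y3 e (π j) := by
  obtain ⟨π, hπ⟩ := exists_match' (m := 3) (d := 2) (by norm_num) τ
  refine ⟨π, fun j => ?_⟩
  obtain ⟨i, i', h⟩ := hπ j
  have h1 := hτ (finProdFinEquiv (j, i))
  rw [h] at h1
  -- the exponent
  have h2 : N ∣ e (finProdFinEquiv (π j, i')) - y3 e (π j) := by
    generalize π j = k
    rcases fin3 k with rfl | rfl | rfl <;> rcases fin2 i' with rfl | rfl
    · exact ⟨0, by simp [y3, finProdFinEquiv]⟩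
    · obtain ⟨t, ht⟩ := d0
      exact ⟨-t, by simp [y3, finProdFinEquiv]; linarith⟩
    · exact ⟨0, by simp [y3, finProdFinEquiv]⟩
    · obtain ⟨t, ht⟩ := d1
      exact ⟨-t, by simp [y3, finProdFinEquiv]; linarith⟩
    · exact ⟨0, by simp [y3, finProdFinEquiv]⟩
    · obtain ⟨t, ht⟩ := d2
      exact ⟨-t, by simp [y3, finProdFinEquiv]; linarith⟩
  have h3 : Z (((finProdFinEquiv (j, i) : Fin (3 * 2)) : ℕ) : ℤ) = Z (2 * ((j : ℕ) : ℤ)) := by
    rcases fin3 j with rfl | rfl | rfl <;> rcases fin2 i with rfl | rfl <;>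
      simp [finProdFinEquiv, h01, h23, h45]
  rw [h3] at h1
  obtain ⟨t1, ht1⟩ := h1
  obtain ⟨t2, ht2⟩ := h2
  exact ⟨t1 + a * t2, by linear_combination ht1 + a * ht2⟩

/-- matching of the classes, blocks of three -/
lemma match3 {N : ℤ} {Z : ℤ → ℤ} {e : Fin 6 → ℤ} {a : ℤ} (τ : Equiv.Perm (Fin 6))
    (hτ : ∀ l : Fin 6, N ∣ Z ((l : ℕ) : ℤ) - a * e (τ l))
    (h01 : Z 0 = Z 1) (h02 : Z 0 = Z 2) (h34 : Z 3 = Z 4) (h35 : Z 3 = Z 5)
    (d1 : N ∣ e 0 - e 1) (d2 : N ∣ e 0 - e 2) (d4 : N ∣ e 3 - e 4) (d5 : N ∣ e 3 - e 5) :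
    (N ∣ Z 0 - a * e 0 ∧ N ∣ Z 3 - a * e 3) ∨ (N ∣ Z 0 - a * e 3 ∧ N ∣ Z 3 - a * e 0) := by
  obtain ⟨π, hπ⟩ := exists_match' (m := 2) (d := 3) (by norm_num) τ
  have key : ∀ j : Fin 2, N ∣ Z (3 * ((j : ℕ) : ℤ)) - a * (![e 0, e 3] : Fin 2 → ℤ) (π j) := by
    intro j
    obtain ⟨i, i', h⟩ := hπ j
    have h1 := hτ (finProdFinEquiv (j, i))
    rw [h] at h1
    have h2 : N ∣ e (finProdFinEquiv (π j, i')) - (![e 0, e 3] : Fin 2 → ℤ) (π j) := by
      generalize π j = k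
      rcases fin2 k with rfl | rfl <;> rcases fin3 i' with rfl | rfl | rfl
      · exact ⟨0, by simp [finProdFinEquiv]⟩
      · obtain ⟨t, ht⟩ := d1
        exact ⟨-t, by simp [finProdFinEquiv]; linarith⟩
      · obtain ⟨t, ht⟩ := d2
        exact ⟨-t, by simp [finProdFinEquiv]; linarith⟩
      · exact ⟨0, by simp [finProdFinEquiv]⟩
      · obtain ⟨t, ht⟩ := d4
        exact ⟨-t, by simp [finProdFinEquiv]; linarith⟩
      · obtain ⟨t, ht⟩ := d5
        exact ⟨-t, by simp [finProdFinEquiv]; linarith⟩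
    have h3 : Z (((finProdFinEquiv (j, i) : Fin (2 * 3)) : ℕ) : ℤ) = Z (3 * ((j : ℕ) : ℤ)) := by
      rcases fin2 j with rfl | rfl <;> rcases fin3 i with rfl | rfl | rfl <;>
        simp [finProdFinEquiv, ← h01, ← h02, ← h34, ← h35]
    rw [h3] at h1
    obtain ⟨t1, ht1⟩ := h1
    obtain ⟨t2, ht2⟩ := h2
    exact ⟨t1 + a * t2, by linear_combination ht1 + a * ht2⟩
  have k0 := key 0
  have k1 := key 1
  rcases fin2 (π 0) with h0 | h0
  · have h1 : π 1 = 1 := by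
      rcases fin2 (π 1) with h1 | h1
      · exact absurd (π.injective (h0.trans h1.symm)) (by decide)
      · exact h1
    rw [h0] at k0
    rw [h1] at k1
    left
    simpa using And.intro k0 k1
  · have h1 : π 1 = 0 := by
      rcases fin2 (π 1) with h1 | h1
      · exact h1
      · exact absurd (π.injective (h0.trans h1.symm)) (by decide)
    rw [h0] at k0
    rw [h1] at k1
    right
    simpa using And.intro k0 k1

end Pool.Agent.TH190.E8
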