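import Pool.Agent.TH190.E8.Pt8
import Pool.Agent.W280.PE.Affine4

set_option autoImplicit false
set_option maxHeartbeats 4000000

/-!
Rank six with three singular points.
-/

namespace Pool.Agent.TH190.E8

open Finset Polynomial Pool.Agent.W280.PC Pool.Agent.W280.PE Pool.Agent.W432.PC

/-- The arithmetic theorem for rank six. -/
theorem arith8 {D : ℕ} (hD : 1 < D) {e1 e2 e3 : Fin 6 → ℤ}
    (d0 : (D : ℤ) ∣ e2 0 - e2 1) (d1 : (D : ℤ) ∣ e2 2 - e2 3) (d2 : (D : ℤ) ∣ e2 4 - e2 5)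
    (c1 : (D : ℤ) ∣ e3 0 - e3 1) (c2 : (D : ℤ) ∣ e3 0 - e3 2) (c4 : (D : ℤ) ∣ e3 3 - e3 4)
    (c5 : (D : ℤ) ∣ e3 3 - e3 5)
    (h1 : ∀ l l', IsCoprime (e1 l - e1 l') (D : ℤ) ∨ (D : ℤ) ∣ e1 l - e1 l')
    (h2 : ∀ l l', IsCoprime (e2 l - e2 l') (D : ℤ) ∨ (D : ℤ) ∣ e2 l - e2 l')
    (h3 : IsCoprime (e3 0 - e3 3) (D : ℤ) ∨ (D : ℤ) ∣ e3 0 - e3 3)
    (hF : ∀ i j, IsCoprime (e1 i + y3 e2 j + e3 0) (D : ℤ))
    (hF' : ∀ i j, IsCoprime (e1 i + y3 e2 j + e3 3) (D : ℤ))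
    (hG : ∀ i i' (k k' : Fin 3), i ≠ i' → k ≠ k' →
      IsCoprime ((e1 i + e1 i') + (y3 e2 k + y3 e2 k') + (e3 0 + e3 3)) (D : ℤ))
    (hH : ∀ T ∈ powersetCard 3 (univ : Finset (Fin 6)),
      IsCoprime (∑ i ∈ T, e1 i + ∑ j, y3 e2 j + (2 * e3 0 + e3 3)) (D : ℤ) ∧
      IsCoprime (∑ i ∈ T, e1 i + ∑ j, y3 e2 j + (2 * e3 3 + e3 0)) (D : ℤ))
    (hU : ∀ a : ℤ, IsCoprime a (D : ℤ) → ∃ X Y C, Good D e1 e2 e3 a X Y C) : False := by
  have : NeZero D := ⟨by omega⟩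
  have hD0 : 0 < D := by omega
  have hpt : ∀ u : (ZMod D)ˣ, Psi (fun z => F D ((u : ZMod D) * (z : ZMod D))) e1 (y3 e2) (e3 0)
      (e3 3) < 0 := by
    intro u
    have hc : IsCoprime (((u : ZMod D).val : ℕ) : ℤ) (D : ℤ) :=
      Nat.isCoprime_iff_coprime.2 (ZMod.val_coe_unit_coprime u)
    obtain ⟨X, Y, C, hgood⟩ := hU _ hc
    have := point8 hD0 hc d0 d1 d2 c1 c2 c4 c5 (fun i j => not_dvd_of_coprime hD (hF i j))
      (fun i j => not_dvd_of_coprime hD (hF' i j)) (fun i i' k k' hi hk => not_dvd_of_coprime hD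
      (hG i i' k k' hi hk)) hgood
    rw [Psi_smul] at this
    simp only [Q_unit] at this
    exact this
  have hneg := Finset.sum_neg (fun u _ => hpt u) (s := (univ : Finset (ZMod D)ˣ))
    Finset.univ_nonempty
  have hsum : ∑ u : (ZMod D)ˣ, Psi (fun z => F D ((u : ZMod D) * (z : ZMod D))) e1 (y3 e2) (e3 0)
      (e3 3) = Psi (SU D) e1 (y3 e2) (e3 0) (e3 3) := by
    have := map_sum (PsiHom e1 (y3 e2) (e3 0) (e3 3))
      (fun (u : (ZMod D)ˣ) (z : ℤ) => F D ((u : ZMod D) * (z : ZMod D))) univ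
    have h4 : (∑ u : (ZMod D)ˣ, fun z : ℤ => F D ((u : ZMod D) * (z : ZMod D))) = SU D := by
      ext z
      rw [Finset.sum_apply]
      rfl
    rw [h4] at this
    exact this.symm
  rw [hsum] at hneg
  have hleg : 30 * SU D 1 ≤ ∑ l, ∑ l', SU D (e1 l - e1 l') := by
    have h4 : ∀ l l', (if l = l' then 0 else SU D 1) ≤ SU D (e1 l - e1 l') := by
      intro l l'
      split_ifs with h
      · rw [h, sub_self, SU_zero]
      · exact SU_ge hD (h1 l l')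
    calc 30 * SU D 1 = ∑ l : Fin 6, ∑ l' : Fin 6, (if l = l' then 0 else SU D 1) := by
          simp only [Fin.sum_univ_six]
          simp
          ring
      _ ≤ _ := Finset.sum_le_sum fun l _ => Finset.sum_le_sum fun l' _ => h4 l l'
  have hleg2 : 6 * SU D 1 ≤ ∑ l, ∑ l', SU D (y3 e2 l - y3 e2 l') := by
    simp only [Fin.sum_univ_three, sub_self, SU_zero, y3, Matrix.cons_val_zero, Matrix.cons_val_one,
      Matrix.cons_val]
    linarith [SU_ge hD (h2 0 2), SU_ge hD (h2 0 4), SU_ge hD (h2 2 0), SU_ge hD (h2 2 4),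
      SU_ge hD (h2 4 0), SU_ge hD (h2 4 2)]
  have hform : ∑ i : Fin 6, ∑ k : Fin 3, (SU D (e1 i + y3 e2 k + e3 0) +
      SU D (e1 i + y3 e2 k + e3 3)) = 36 * SU D 1 := by
    simp only [SU_unit (hF _ _), SU_unit (hF' _ _), Finset.sum_const, Finset.card_univ,
      Fintype.card_fin]
    ring
  have hpair : ∀ T ∈ powersetCard 2 (univ : Finset (Fin 6)), ∀ k : Fin 3,
      SU D (∑ i ∈ T, e1 i + (∑ j, y3 e2 j - y3 e2 k) + (e3 0 + e3 3)) = SU D 1 := by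
    intro T hT k
    obtain ⟨i, i', hi, rfl⟩ := Finset.card_eq_two.1 (Finset.mem_powersetCard.1 hT).2
    rw [Finset.sum_pair hi, Fin.sum_univ_three]
    rcases fin3 k with rfl | rfl | rfl
    · rw [show y3 e2 0 + y3 e2 1 + y3 e2 2 - y3 e2 0 = y3 e2 1 + y3 e2 2 by ring]
      exact SU_unit (hG i i' 1 2 hi (by decide))
    · rw [show y3 e2 0 + y3 e2 1 + y3 e2 2 - y3 e2 1 = y3 e2 0 + y3 e2 2 by ring]
      exact SU_unit (hG i i' 0 2 hi (by decide))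
    · rw [show y3 e2 0 + y3 e2 1 + y3 e2 2 - y3 e2 2 = y3 e2 0 + y3 e2 1 by ring]
      exact SU_unit (hG i i' 0 1 hi (by decide))
  have hform2 : ∑ T ∈ powersetCard 2 (univ : Finset (Fin 6)), ∑ k,
      SU D (∑ i ∈ T, e1 i + (∑ j, y3 e2 j - y3 e2 k) + (e3 0 + e3 3)) = 45 * SU D 1 := by
    rw [Finset.sum_congr rfl fun T hT => Finset.sum_congr rfl fun k _ => hpair T hT k]
    simp only [Finset.sum_const, Finset.card_univ, Fintype.card_fin, Finset.card_powersetCard]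
    norm_num [Nat.choose]
    ring
  have hform3 : ∑ T ∈ powersetCard 3 (univ : Finset (Fin 6)),
      (SU D (∑ i ∈ T, e1 i + ∑ j, y3 e2 j + (2 * e3 0 + e3 3)) +
      SU D (∑ i ∈ T, e1 i + ∑ j, y3 e2 j + (2 * e3 3 + e3 0))) = 40 * SU D 1 := by
    rw [Finset.sum_congr rfl fun T hT => by
      rw [SU_unit (hH T hT).1, SU_unit (hH T hT).2]]
    simp only [Finset.sum_const, Finset.card_univ, Fintype.card_fin, Finset.card_powersetCard]
    norm_num [Nat.choose]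
    ring
  unfold Psi at hneg
  rw [hform, hform2, hform3] at hneg
  linarith [SU_ge hD h3]

end Pool.Agent.TH190.E8
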