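import Pool.Agent.TH190.E8.Abs8b
import Pool.Agent.W280.PC.Point

set_option autoImplicit false
set_option linter.unusedVariables false
set_option maxHeartbeats 40000000
set_option maxRecDepth 10000

/-!
The pointwise inequality for rank six (type E8).
-/

namespace Pool.Agent.TH190.E8

open Pool.Agent.W280.PC


lemma e8_abs {D a0 a1 a2 a3 a4 a5 b0 b1 b2 c0 c1 : ℤ}
    (hs : a0 + a1 + a2 + a3 + a4 + a5 + 2 * b0 + 2 * b1 + 2 * b2 + 3 * c0 + 3 * c1 = 0)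
    (ga0 : a0 ≤ a1)
    (ga1 : a1 ≤ a2)
    (ga2 : a2 ≤ a3)
    (ga3 : a3 ≤ a4)
    (ga4 : a4 ≤ a5)
    (ga5 : a5 ≤ a0 + D)
    (gb0 : b0 ≤ b1)
    (gb1 : b1 ≤ b2)
    (gb2 : b2 ≤ b0 + D)
    (gc0 : c0 ≤ c1)
    (gc1 : c1 ≤ c0 + D)
    (u011 : a0 + b1 + c1 < 0)
    (l021 : 0 < a0 + b2 + c1)
    (l100 : -D < a1 + b0 + c0)
    (u120 : a1 + b2 + c0 < 0)
    (u201 : a2 + b0 + c1 < 0)
    (l211 : 0 < a2 + b1 + c1)
    (u310 : a3 + b1 + c0 < 0)
    (l320 : 0 < a3 + b2 + c0)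
    (l401 : 0 < a4 + b0 + c1)
    (u421 : a4 + b2 + c1 < D)
    (u500 : a5 + b0 + c0 < 0)
    (l510 : 0 < a5 + b1 + c0)
    (m0201 : -D < a0 + a2 + b0 + b1 + c0 + c1)
    (p0212 : a0 + a2 + b1 + b2 + c0 + c1 < 0)
    (p0402 : a0 + a4 + b0 + b2 + c0 + c1 < 0)
    (m0412 : 0 < a0 + a4 + b1 + b2 + c0 + c1)
    (p1302 : a1 + a3 + b0 + b2 + c0 + c1 < 0)
    (m1312 : 0 < a1 + a3 + b1 + b2 + c0 + c1)
    (p1501 : a1 + a5 + b0 + b1 + c0 + c1 < 0)
    (m1502 : 0 < a1 + a5 + b0 + b2 + c0 + c1)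
    (p2401 : a2 + a4 + b0 + b1 + c0 + c1 < 0)
    (m2402 : 0 < a2 + a4 + b0 + b2 + c0 + c1)
    (m3501 : 0 < a3 + a5 + b0 + b1 + c0 + c1)
    (p3512 : a3 + a5 + b1 + b2 + c0 + c1 < D) :
    (|a0 + b0 + c0 + D| + |a0 + a1 + b0 + b1 + c0 + c1 + D| + |a0 + a1 + a2 + b0 + b1 + b2 + 2 * c0 + c1 + D| + |a4 + a5 + b1 + b2 + c0 + c1 - D| + |a5 + b2 + c1 - D| + |a1 + b1 + c1| + |a1 + a2 + b1 + b2 + c0 + c1| + |a0 + a4 + a5 + b0 + b1 + b2 + 2 * c0 + c1| + |a0 + a5 + b0 + b2 + c0 + c1| + |a2 + b2 + c0| + |a2 + a3 + b0 + b2 + c0 + c1| + |a2 + a3 + a4 + b0 + b1 + b2 + 2 * c0 + c1| + |a3 + b0 + c1| + |a3 + a4 + b0 + b1 + c0 + c1| + |a4 + b1 + c0|) +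
    (|a0 + a3 + b1 + b2 + c0 + c1| + |a1 + a4 + b0 + b2 + c0 + c1| + |a2 + a5 + b0 + b1 + c0 + c1|) + |a1 + a3 + a5 + b0 + b1 + b2 + 2 * c0 + c1| +
    ((|a0 + a1 + a3 + b0 + b1 + b2 + 2 * c0 + c1 + D| - (a0 + a1 + a3 + b0 + b1 + b2 + 2 * c0 + c1 + D)) + (|-(a0 + a3 + a5 + b0 + b1 + b2 + 2 * c0 + c1)| - (-(a0 + a3 + a5 + b0 + b1 + b2 + 2 * c0 + c1))) + (|-(a1 + a2 + a5 + b0 + b1 + b2 + 2 * c0 + c1)| - (-(a1 + a2 + a5 + b0 + b1 + b2 + 2 * c0 + c1))) + (|-(a1 + a3 + a4 + b0 + b1 + b2 + 2 * c0 + c1)| - (-(a1 + a3 + a4 + b0 + b1 + b2 + 2 * c0 + c1))) + (|a1 + a4 + a5 + b0 + b1 + b2 + 2 * c0 + c1| - (a1 + a4 + a5 + b0 + b1 + b2 + 2 * c0 + c1)) + (|a2 + a3 + a5 + b0 + b1 + b2 + 2 * c0 + c1| - (a2 + a3 + a5 + b0 + b1 + b2 + 2 * c0 + c1))) < 5 * D := by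

  by_cases h0 : a0 + a1 + a3 + b0 + b1 + b2 + 2 * c0 + c1 + D < 0
  · have k := main_B0 hs ga0 ga1 ga2 ga3 ga4 ga5 gb0 gb1 gb2 gc0 gc1 u011 l021 l100 u120 u201 l211 u310 l320 l401 u421 u500 l510 m0201 p0212 p0402 m0412 p1302 m1312 p1501 m1502 p2401 m2402 m3501 p3512 h0
    rw [abs_of_neg h0]
    rw [abs_of_nonneg (show 0 ≤ -(a0 + a3 + a5 + b0 + b1 + b2 + 2 * c0 + c1) by linarith)]
    rw [abs_of_nonneg (show 0 ≤ -(a1 + a2 + a5 + b0 + b1 + b2 + 2 * c0 + c1) by linarith)]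
    rw [abs_of_nonneg (show 0 ≤ -(a1 + a3 + a4 + b0 + b1 + b2 + 2 * c0 + c1) by linarith)]
    rw [abs_of_nonneg (show 0 ≤ a1 + a4 + a5 + b0 + b1 + b2 + 2 * c0 + c1 by linarith)]
    rw [abs_of_nonneg (show 0 ≤ a2 + a3 + a5 + b0 + b1 + b2 + 2 * c0 + c1 by linarith)]
    linarith
  push Not at h0
  by_cases h1 : -(a0 + a3 + a5 + b0 + b1 + b2 + 2 * c0 + c1) < 0
  · have k := main_B1 hs ga0 ga1 ga2 ga3 ga4 ga5 gb0 gb1 gb2 gc0 gc1 u011 l021 l100 u120 u201 l211 u310 l320 l401 u421 u500 l510 m0201 p0212 p0402 m0412 p1302 m1312 p1501 m1502 p2401 m2402 m3501 p3512 h1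
    rw [abs_of_neg h1]
    rw [abs_of_nonneg h0]
    rw [abs_of_nonneg (show 0 ≤ -(a1 + a2 + a5 + b0 + b1 + b2 + 2 * c0 + c1) by linarith)]
    rw [abs_of_nonneg (show 0 ≤ -(a1 + a3 + a4 + b0 + b1 + b2 + 2 * c0 + c1) by linarith)]
    rw [abs_of_nonneg (show 0 ≤ a1 + a4 + a5 + b0 + b1 + b2 + 2 * c0 + c1 by linarith)]
    rw [abs_of_nonneg (show 0 ≤ a2 + a3 + a5 + b0 + b1 + b2 + 2 * c0 + c1 by linarith)]
    linarith
  push Not at h1
  by_cases h2 : -(a1 + a2 + a5 + b0 + b1 + b2 + 2 * c0 + c1) < 0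
  · have k := main_B2 hs ga0 ga1 ga2 ga3 ga4 ga5 gb0 gb1 gb2 gc0 gc1 u011 l021 l100 u120 u201 l211 u310 l320 l401 u421 u500 l510 m0201 p0212 p0402 m0412 p1302 m1312 p1501 m1502 p2401 m2402 m3501 p3512 h2
    rw [abs_of_neg h2]
    rw [abs_of_nonneg h0]
    rw [abs_of_nonneg h1]
    rw [abs_of_nonneg (show 0 ≤ -(a1 + a3 + a4 + b0 + b1 + b2 + 2 * c0 + c1) by linarith)]
    rw [abs_of_nonneg (show 0 ≤ a1 + a4 + a5 + b0 + b1 + b2 + 2 * c0 + c1 by linarith)]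
    rw [abs_of_nonneg (show 0 ≤ a2 + a3 + a5 + b0 + b1 + b2 + 2 * c0 + c1 by linarith)]
    linarith
  push Not at h2
  by_cases h3 : -(a1 + a3 + a4 + b0 + b1 + b2 + 2 * c0 + c1) < 0
  · have k := main_B3 hs ga0 ga1 ga2 ga3 ga4 ga5 gb0 gb1 gb2 gc0 gc1 u011 l021 l100 u120 u201 l211 u310 l320 l401 u421 u500 l510 m0201 p0212 p0402 m0412 p1302 m1312 p1501 m1502 p2401 m2402 m3501 p3512 h3
    rw [abs_of_neg h3]
    rw [abs_of_nonneg h0]
    rw [abs_of_nonneg h1]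
    rw [abs_of_nonneg h2]
    rw [abs_of_nonneg (show 0 ≤ a1 + a4 + a5 + b0 + b1 + b2 + 2 * c0 + c1 by linarith)]
    rw [abs_of_nonneg (show 0 ≤ a2 + a3 + a5 + b0 + b1 + b2 + 2 * c0 + c1 by linarith)]
    linarith
  push Not at h3
  by_cases h4 : a1 + a4 + a5 + b0 + b1 + b2 + 2 * c0 + c1 < 0
  · have k := main_B4 hs ga0 ga1 ga2 ga3 ga4 ga5 gb0 gb1 gb2 gc0 gc1 u011 l021 l100 u120 u201 l211 u310 l320 l401 u421 u500 l510 m0201 p0212 p0402 m0412 p1302 m1312 p1501 m1502 p2401 m2402 m3501 p3512 h4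
    rw [abs_of_neg h4]
    rw [abs_of_nonneg h0]
    rw [abs_of_nonneg h1]
    rw [abs_of_nonneg h2]
    rw [abs_of_nonneg h3]
    rw [abs_of_nonneg (show 0 ≤ a2 + a3 + a5 + b0 + b1 + b2 + 2 * c0 + c1 by linarith)]
    linarith
  push Not at h4
  by_cases h5 : a2 + a3 + a5 + b0 + b1 + b2 + 2 * c0 + c1 < 0
  · have k := main_B5 hs ga0 ga1 ga2 ga3 ga4 ga5 gb0 gb1 gb2 gc0 gc1 u011 l021 l100 u120 u201 l211 u310 l320 l401 u421 u500 l510 m0201 p0212 p0402 m0412 p1302 m1312 p1501 m1502 p2401 m2402 m3501 p3512 h5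
    rw [abs_of_neg h5]
    rw [abs_of_nonneg h0]
    rw [abs_of_nonneg h1]
    rw [abs_of_nonneg h2]
    rw [abs_of_nonneg h3]
    rw [abs_of_nonneg h4]
    linarith
  push Not at h5
  have k := main_A hs ga0 ga1 ga2 ga3 ga4 ga5 gb0 gb1 gb2 gc0 gc1 u011 l021 l100 u120 u201 l211 u310 l320 l401 u421 u500 l510 m0201 p0212 p0402 m0412 p1302 m1312 p1501 m1502 p2401 m2402 m3501 p3512
  rw [abs_of_nonneg h0]
  rw [abs_of_nonneg h1]
  rw [abs_of_nonneg h2]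
  rw [abs_of_nonneg h3]
  rw [abs_of_nonneg h4]
  rw [abs_of_nonneg h5]
  linarith

/-- three points, rank six, the spectral type `111111, 222, 33` -/
lemma e8_point {D : ℕ} (hD : 0 < D) {a0 a1 a2 a3 a4 a5 b0 b1 b2 c0 c1 : ℤ}
    (hs : a0 + a1 + a2 + a3 + a4 + a5 + 2 * b0 + 2 * b1 + 2 * b2 + 3 * c0 + 3 * c1 = 0)
    (ga0 : a0 ≤ a1)
    (ga1 : a1 ≤ a2)
    (ga2 : a2 ≤ a3)
    (ga3 : a3 ≤ a4)
    (ga4 : a4 ≤ a5)
    (ga5 : a5 ≤ a0 + (D : ℤ))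
    (gb0 : b0 ≤ b1)
    (gb1 : b1 ≤ b2)
    (gb2 : b2 ≤ b0 + (D : ℤ))
    (gc0 : c0 ≤ c1)
    (gc1 : c1 ≤ c0 + (D : ℤ))
    (u011 : a0 + b1 + c1 < 0)
    (l021 : 0 < a0 + b2 + c1)
    (l100 : -(D : ℤ) < a1 + b0 + c0)
    (u120 : a1 + b2 + c0 < 0)
    (u201 : a2 + b0 + c1 < 0)
    (l211 : 0 < a2 + b1 + c1)
    (u310 : a3 + b1 + c0 < 0)
    (l320 : 0 < a3 + b2 + c0)
    (l401 : 0 < a4 + b0 + c1)
    (u421 : a4 + b2 + c1 < (D : ℤ))
    (u500 : a5 + b0 + c0 < 0)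
    (l510 : 0 < a5 + b1 + c0)
    (m0201 : -(D : ℤ) < a0 + a2 + b0 + b1 + c0 + c1)
    (p0212 : a0 + a2 + b1 + b2 + c0 + c1 < 0)
    (p0402 : a0 + a4 + b0 + b2 + c0 + c1 < 0)
    (m0412 : 0 < a0 + a4 + b1 + b2 + c0 + c1)
    (p1302 : a1 + a3 + b0 + b2 + c0 + c1 < 0)
    (m1312 : 0 < a1 + a3 + b1 + b2 + c0 + c1)
    (p1501 : a1 + a5 + b0 + b1 + c0 + c1 < 0)
    (m1502 : 0 < a1 + a5 + b0 + b2 + c0 + c1)
    (p2401 : a2 + a4 + b0 + b1 + c0 + c1 < 0)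
    (m2402 : 0 < a2 + a4 + b0 + b2 + c0 + c1)
    (m3501 : 0 < a3 + a5 + b0 + b1 + c0 + c1)
    (p3512 : a3 + a5 + b1 + b2 + c0 + c1 < (D : ℤ)) :
    4 * (Q D (a1 - a0) + Q D (a2 - a0) + Q D (a3 - a0) + Q D (a4 - a0) + Q D (a5 - a0) + Q D (a2 - a1) + Q D (a3 - a1) + Q D (a4 - a1) + Q D (a5 - a1) + Q D (a3 - a2) + Q D (a4 - a2) + Q D (a5 - a2) + Q D (a4 - a3) + Q D (a5 - a3) + Q D (a5 - a4)) +
      9 * (Q D (b1 - b0) + Q D (b2 - b0) + Q D (b2 - b1)) + 14 * Q D (c1 - c0) -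
      (Q D (a0 + b0 + c0) + Q D (a0 + b0 + c1) + Q D (a0 + b1 + c0) + Q D (a0 + b1 + c1) + Q D (a0 + b2 + c0) + Q D (a0 + b2 + c1) + Q D (a1 + b0 + c0) + Q D (a1 + b0 + c1) + Q D (a1 + b1 + c0) + Q D (a1 + b1 + c1) + Q D (a1 + b2 + c0) + Q D (a1 + b2 + c1) + Q D (a2 + b0 + c0) + Q D (a2 + b0 + c1) + Q D (a2 + b1 + c0) + Q D (a2 + b1 + c1) + Q D (a2 + b2 + c0) + Q D (a2 + b2 + c1) + Q D (a3 + b0 + c0) + Q D (a3 + b0 + c1) + Q D (a3 + b1 + c0) + Q D (a3 + b1 + c1) + Q D (a3 + b2 + c0) + Q D (a3 + b2 + c1) + Q D (a4 + b0 + c0) + Q D (a4 + b0 + c1) + Q D (a4 + b1 + c0) + Q D (a4 + b1 + c1) + Q D (a4 + b2 + c0) + Q D (a4 + b2 + c1) + Q D (a5 + b0 + c0) + Q D (a5 + b0 + c1) + Q D (a5 + b1 + c0) + Q D (a5 + b1 + c1) + Q D (a5 + b2 + c0) + Q D (a5 + b2 + c1)) -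
      (Q D (a0 + a1 + b0 + b1 + c0 + c1) + Q D (a0 + a1 + b0 + b2 + c0 + c1) + Q D (a0 + a1 + b1 + b2 + c0 + c1) + Q D (a0 + a2 + b0 + b1 + c0 + c1) + Q D (a0 + a2 + b0 + b2 + c0 + c1) + Q D (a0 + a2 + b1 + b2 + c0 + c1) + Q D (a0 + a3 + b0 + b1 + c0 + c1) + Q D (a0 + a3 + b0 + b2 + c0 + c1) + Q D (a0 + a3 + b1 + b2 + c0 + c1) + Q D (a0 + a4 + b0 + b1 + c0 + c1) + Q D (a0 + a4 + b0 + b2 + c0 + c1) + Q D (a0 + a4 + b1 + b2 + c0 + c1) + Q D (a0 + a5 + b0 + b1 + c0 + c1) + Q D (a0 + a5 + b0 + b2 + c0 + c1) + Q D (a0 + a5 + b1 + b2 + c0 + c1) + Q D (a1 + a2 + b0 + b1 + c0 + c1) + Q D (a1 + a2 + b0 + b2 + c0 + c1) + Q D (a1 + a2 + b1 + b2 + c0 + c1) + Q D (a1 + a3 + b0 + b1 + c0 + c1) + Q D (a1 + a3 + b0 + b2 + c0 + c1) + Q D (a1 + a3 + b1 + b2 + c0 + c1) + Q D (a1 + a4 + b0 + b1 + c0 + c1) + Q D (a1 + a4 + b0 + b2 + c0 + c1) + Q D (a1 + a4 + b1 + b2 + c0 + c1) + Q D (a1 + a5 + b0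 + b1 + c0 + c1) + Q D (a1 + a5 + b0 + b2 + c0 + c1) + Q D (a1 + a5 + b1 + b2 + c0 + c1) + Q D (a2 + a3 + b0 + b1 + c0 + c1) + Q D (a2 + a3 + b0 + b2 + c0 + c1) + Q D (a2 + a3 + b1 + b2 + c0 + c1) + Q D (a2 + a4 + b0 + b1 + c0 + c1) + Q D (a2 + a4 + b0 + b2 + c0 + c1) + Q D (a2 + a4 + b1 + b2 + c0 + c1) + Q D (a2 + a5 + b0 + b1 + c0 + c1) + Q D (a2 + a5 + b0 + b2 + c0 + c1) + Q D (a2 + a5 + b1 + b2 + c0 + c1) + Q D (a3 + a4 + b0 + b1 + c0 + c1) + Q D (a3 + a4 + b0 + b2 + c0 + c1) + Q D (a3 + a4 + b1 + b2 + c0 + c1) + Q D (a3 + a5 + b0 + b1 + c0 + c1) + Q D (a3 + a5 + b0 + b2 + c0 + c1) + Q D (a3 + a5 + b1 + b2 + c0 + c1) + Q D (a4 + a5 + b0 + b1 + c0 + c1) + Q D (a4 + a5 + b0 + b2 + c0 + c1) + Q D (a4 + a5 + b1 + b2 + c0 + c1)) -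
      (Q D (a0 + a1 + a2 + b0 + b1 + b2 + 2 * c0 + c1) + Q D (a0 + a1 + a3 + b0 + b1 + b2 + 2 * c0 + c1) + Q D (a0 + a1 + a4 + b0 + b1 + b2 + 2 * c0 + c1) + Q D (a0 + a1 + a5 + b0 + b1 + b2 + 2 * c0 + c1) + Q D (a0 + a2 + a3 + b0 + b1 + b2 + 2 * c0 + c1) + Q D (a0 + a2 + a4 + b0 + b1 + b2 + 2 * c0 + c1) + Q D (a0 + a2 + a5 + b0 + b1 + b2 + 2 * c0 + c1) + Q D (a0 + a3 + a4 + b0 + b1 + b2 + 2 * c0 + c1) + Q D (a0 + a3 + a5 + b0 + b1 + b2 + 2 * c0 + c1) + Q D (a0 + a4 + a5 + b0 + b1 + b2 + 2 * c0 + c1) + Q D (a1 + a2 + a3 + b0 + b1 + b2 + 2 * c0 + c1) + Q D (a1 + a2 + a4 + b0 + b1 + b2 + 2 * c0 + c1) + Q D (a1 + a2 + a5 + b0 + b1 + b2 + 2 * c0 + c1) + Q D (a1 + a3 + a4 + b0 + b1 + b2 + 2 * c0 + c1) + Q D (a1 + a3 + a5 + b0 + b1 + b2 + 2 * c0 + c1) + Q D (a1 + a4 + a5 + b0 + b1 + b2 + 2 * c0 + c1) + Q D (a2 + a3 + a4 + b0 + b1 + b2 + 2 * c0 + c1) + Q D (a2 + a3 + a5 + b0 + b1 + b2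 + 2 * c0 + c1) + Q D (a2 + a4 + a5 + b0 + b1 + b2 + 2 * c0 + c1) + Q D (a3 + a4 + a5 + b0 + b1 + b2 + 2 * c0 + c1)) < 0 := by
  have hD' : (0 : ℤ) < D := by exact_mod_cast hD
  have key := e8_abs hs ga0 ga1 ga2 ga3 ga4 ga5 gb0 gb1 gb2 gc0 gc1 u011 l021 l100 u120 u201 l211 u310 l320 l401 u421 u500 l510 m0201 p0212 p0402 m0412 p1302 m1312 p1501 m1502 p2401 m2402 m3501 p3512
  have qa01 := Q_of hD (a1 - a0) (by linarith only [ga0, ga1, ga2, ga3, ga4, ga5, gb0, gb1, gb2]) (by linarith only [ga0, ga1, ga2, ga3, ga4, ga5, gb0, gb1, gb2])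
  have qa02 := Q_of hD (a2 - a0) (by linarith only [ga0, ga1, ga2, ga3, ga4, ga5, gb0, gb1, gb2]) (by linarith only [ga0, ga1, ga2, ga3, ga4, ga5, gb0, gb1, gb2])
  have qa03 := Q_of hD (a3 - a0) (by linarith only [ga0, ga1, ga2, ga3, ga4, ga5, gb0, gb1, gb2]) (by linarith only [ga0, ga1, ga2, ga3, ga4, ga5, gb0, gb1, gb2])
  have qa04 := Q_of hD (a4 - a0) (by linarith only [ga0, ga1, ga2, ga3, ga4, ga5, gb0, gb1, gb2]) (by linarith only [ga0, ga1, ga2, ga3, ga4, ga5, gb0, gb1, gb2])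
  have qa05 := Q_of hD (a5 - a0) (by linarith only [ga0, ga1, ga2, ga3, ga4, ga5, gb0, gb1, gb2]) (by linarith only [ga0, ga1, ga2, ga3, ga4, ga5, gb0, gb1, gb2])
  have qa12 := Q_of hD (a2 - a1) (by linarith only [ga0, ga1, ga2, ga3, ga4, ga5, gb0, gb1, gb2]) (by linarith only [ga0, ga1, ga2, ga3, ga4, ga5, gb0, gb1, gb2])
  have qa13 := Q_of hD (a3 - a1) (by linarith only [ga0, ga1, ga2, ga3, ga4, ga5, gb0, gb1, gb2]) (by linarith only [ga0, ga1, ga2, ga3, ga4, ga5, gb0, gb1, gb2])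
  have qa14 := Q_of hD (a4 - a1) (by linarith only [ga0, ga1, ga2, ga3, ga4, ga5, gb0, gb1, gb2]) (by linarith only [ga0, ga1, ga2, ga3, ga4, ga5, gb0, gb1, gb2])
  have qa15 := Q_of hD (a5 - a1) (by linarith only [ga0, ga1, ga2, ga3, ga4, ga5, gb0, gb1, gb2]) (by linarith only [ga0, ga1, ga2, ga3, ga4, ga5, gb0, gb1, gb2])
  have qa23 := Q_of hD (a3 - a2) (by linarith only [ga0, ga1, ga2, ga3, ga4, ga5, gb0, gb1, gb2]) (by linarith only [ga0, ga1, ga2, ga3, ga4, ga5, gb0, gb1, gb2])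
  have qa24 := Q_of hD (a4 - a2) (by linarith only [ga0, ga1, ga2, ga3, ga4, ga5, gb0, gb1, gb2]) (by linarith only [ga0, ga1, ga2, ga3, ga4, ga5, gb0, gb1, gb2])
  have qa25 := Q_of hD (a5 - a2) (by linarith only [ga0, ga1, ga2, ga3, ga4, ga5, gb0, gb1, gb2]) (by linarith only [ga0, ga1, ga2, ga3, ga4, ga5, gb0, gb1, gb2])
  have qa34 := Q_of hD (a4 - a3) (by linarith only [ga0, ga1, ga2, ga3, ga4, ga5, gb0, gb1, gb2]) (by linarith only [ga0, ga1, ga2, ga3, ga4, ga5, gb0, gb1, gb2])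
  have qa35 := Q_of hD (a5 - a3) (by linarith only [ga0, ga1, ga2, ga3, ga4, ga5, gb0, gb1, gb2]) (by linarith only [ga0, ga1, ga2, ga3, ga4, ga5, gb0, gb1, gb2])
  have qa45 := Q_of hD (a5 - a4) (by linarith only [ga0, ga1, ga2, ga3, ga4, ga5, gb0, gb1, gb2]) (by linarith only [ga0, ga1, ga2, ga3, ga4, ga5, gb0, gb1, gb2])
  have qb01 := Q_of hD (b1 - b0) (by linarith only [ga0, ga1, ga2, ga3, ga4, ga5, gb0, gb1, gb2]) (by linarith only [ga0, ga1, ga2, ga3, ga4, ga5, gb0, gb1, gb2])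
  have qb02 := Q_of hD (b2 - b0) (by linarith only [ga0, ga1, ga2, ga3, ga4, ga5, gb0, gb1, gb2]) (by linarith only [ga0, ga1, ga2, ga3, ga4, ga5, gb0, gb1, gb2])
  have qb12 := Q_of hD (b2 - b1) (by linarith only [ga0, ga1, ga2, ga3, ga4, ga5, gb0, gb1, gb2]) (by linarith only [ga0, ga1, ga2, ga3, ga4, ga5, gb0, gb1, gb2])
  have qc := Q_of hD (c1 - c0) (by linarith only [gc0]) (by linarith only [gc1])
  have e000 := Q_ofm hD (a0 + b0 + c0) (by linarith only [hs, hD', ga1, ga2, ga3, ga4, ga5, l100]) (by linarith only [hs, hD', ga0, ga1, ga2, ga3, ga4, u500])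
  have e001 := Q_of' hD (a0 + b0 + c1) (by linarith only [hs, hD', ga2, ga4, l021, l100, l401, m0201]) (by linarith only [hs, hD', ga0, ga1, ga3, l320, u500, l510])
  have e010 := Q_of' hD (a0 + b1 + c0) (by linarith only [hs, hD', u201, m0201]) (by linarith only [hs, hD', ga0, u011, l021, u120])
  have e011 := Q_of' hD (a0 + b1 + c1) (by linarith only [hs, hD', ga0, ga3, ga4, ga5, u120, u201, u500]) (by linarith only [hs, hD', u011])
  have e020 := Q_of' hD (a0 + b2 + c0) (by linarith only [hs, hD', ga3, ga4, ga5, l320]) (by linarith only [hs, hD', ga0, u120])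
  have e021 := Q_of hD (a0 + b2 + c1) (by linarith only [hs, hD', l021]) (by linarith only [hs, hD', ga0, ga1, ga2, ga3, ga5, l100, u120, l510])
  have e100 := Q_of' hD (a1 + b0 + c0) (by linarith only [hs, hD', l100]) (by linarith only [hs, hD', ga1, ga2, ga3, ga4, u500])
  have e101 := Q_of' hD (a1 + b0 + c1) (by linarith only [hs, hD', ga0, ga4, ga5, l401]) (by linarith only [hs, hD', ga1, l320, l510, m0412])
  have e110 := Q_of' hD (a1 + b1 + c0) (by linarith only [hs, hD', ga0, ga5, l510]) (by linarith only [hs, hD', u011, l021, u120])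
  have e111 := Q_of0 hD (a1 + b1 + c1) (by linarith only [hs, hD', ga0, ga3, ga4, ga5, u120, u201, u500]) (by linarith only [hs, hD', ga1, ga2, ga3, ga4, ga5, l100, u310, l320])
  have e120 := Q_of' hD (a1 + b2 + c0) (by linarith only [hs, hD', ga0, ga1, ga4, ga5, l100, u201, u310, l320]) (by linarith only [hs, hD', u120])
  have e121 := Q_of hD (a1 + b2 + c1) (by linarith only [hs, hD', ga0, l021]) (by linarith only [hs, hD', ga1, ga2, ga3, ga5, l100, u120, l510])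
  have e200 := Q_of' hD (a2 + b0 + c0) (by linarith only [hs, hD', ga1, l100]) (by linarith only [hs, hD', ga2, ga3, ga4, u500])
  have e201 := Q_of' hD (a2 + b0 + c1) (by linarith only [hs, hD', ga0, ga1, ga4, ga5, l401]) (by linarith only [hs, hD', u201])
  have e210 := Q_of' hD (a2 + b1 + c0) (by linarith only [hs, hD', ga0, ga1, ga3, ga5, u201, l211, u421]) (by linarith only [hs, hD', ga2, u310])
  have e211 := Q_of hD (a2 + b1 + c1) (by linarith only [hs, hD', l211]) (by linarith only [hs, hD', ga1, ga2, ga3, ga4, ga5, l100, u310, l320])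
  have e220 := Q_of0 hD (a2 + b2 + c0) (by linarith only [hs, hD', ga0, ga1, ga3, ga4, ga5, l320]) (by linarith only [hs, hD', ga0, ga2, ga3, ga4, ga5, u120])
  have e221 := Q_of hD (a2 + b2 + c1) (by linarith only [hs, hD', ga0, ga1, ga4, u310, l320, u500]) (by linarith only [hs, hD', ga2, ga3, ga5, l100, u120, l510])
  have e300 := Q_of' hD (a3 + b0 + c0) (by linarith only [hs, hD', ga1, ga2, l100]) (by linarith only [hs, hD', ga3, ga4, u500])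
  have e301 := Q_of0 hD (a3 + b0 + c1) (by linarith only [hs, hD', ga0, ga1, ga2, ga4, ga5, l401]) (by linarith only [hs, hD', ga0, ga1, ga3, ga4, ga5, l320, u500, l510])
  have e310 := Q_of' hD (a3 + b1 + c0) (by linarith only [hs, hD', ga0, ga1, ga2, ga3, ga5, u201, l211, u421]) (by linarith only [hs, hD', u310])
  have e311 := Q_of hD (a3 + b1 + c1) (by linarith only [hs, hD', u500, m3501]) (by linarith only [hs, hD', ga1, ga3, ga4, ga5, l100, u310, l320])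
  have e320 := Q_of hD (a3 + b2 + c0) (by linarith only [hs, hD', l320]) (by linarith only [hs, hD', ga0, ga3, ga4, ga5, u120])
  have e321 := Q_of hD (a3 + b2 + c1) (by linarith only [hs, hD', ga0, ga2, ga4, l021, l211, l401, p1501]) (by linarith only [hs, hD', ga3, l100, l510, m0201])
  have e400 := Q_of' hD (a4 + b0 + c0) (by linarith only [hs, hD', ga1, ga2, ga3, l100]) (by linarith only [hs, hD', ga4, u500])
  have e401 := Q_of hD (a4 + b0 + c1) (by linarith only [hs, hD', l401]) (by linarith only [hs, hD', ga0, ga1, ga3, ga4, ga5, l320, u500, l510])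
  have e410 := Q_of0 hD (a4 + b1 + c0) (by linarith only [hs, hD', ga0, ga1, ga2, ga3, ga5, l510]) (by linarith only [hs, hD', ga0, ga1, ga2, ga4, ga5, u310])
  have e411 := Q_of hD (a4 + b1 + c1) (by linarith only [hs, hD', ga0, ga2, ga3, u120, u500, l510]) (by linarith only [hs, hD', ga1, ga4, ga5, l100, u310, l320])
  have e420 := Q_of hD (a4 + b2 + c0) (by linarith only [hs, hD', ga3, l320]) (by linarith only [hs, hD', ga0, ga4, ga5, u120])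
  have e421 := Q_of hD (a4 + b2 + c1) (by linarith only [hs, hD', ga3, ga4, u500, p0212, p1501]) (by linarith only [hs, hD', u421])
  have e500 := Q_of' hD (a5 + b0 + c0) (by linarith only [hs, hD', ga1, ga3, ga4, ga5, l100, l320, l510, p0212]) (by linarith only [hs, hD', u500])
  have e501 := Q_of hD (a5 + b0 + c1) (by linarith only [hs, hD', ga4, u120, u310, p0212]) (by linarith only [hs, hD', ga0, ga1, ga5, u201])
  have e510 := Q_of hD (a5 + b1 + c0) (by linarith only [hs, hD', l510]) (by linarith only [hs, hD', ga0, ga2, ga4, ga5, u011, u120, u310, p1501])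
  have e511 := Q_of hD (a5 + b1 + c1) (by linarith only [hs, hD', ga0, ga2, ga3, ga4, u120, u500, l510]) (by linarith only [hs, hD', ga5, u011])
  have e520 := Q_of hD (a5 + b2 + c0) (by linarith only [hs, hD', ga3, ga4, l320]) (by linarith only [hs, hD', ga0, ga5, u120])
  have e521 := Q_ofp hD (a5 + b2 + c1) (by linarith only [hs, hD', ga0, ga1, ga2, ga3, ga4, l021]) (by linarith only [hs, hD', ga0, ga1, ga3, ga5, u011, u120, u201, u421])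
  have u0101x := Q_ofm hD (a0 + a1 + b0 + b1 + c0 + c1) (by linarith only [hs, hD', ga0, ga3, ga4, ga5, u120, u201, u421, p0212]) (by linarith only [hs, hD', ga0, ga1, ga2, ga3, ga4, l021, l320])
  have u0102x := Q_of' hD (a0 + a1 + b0 + b2 + c0 + c1) (by linarith only [hs, hD', ga5, m1502]) (by linarith only [hs, hD', ga0, ga1, ga2, ga3, u120, u500, l510])
  have u0112x := Q_of' hD (a0 + a1 + b1 + b2 + c0 + c1) (by linarith only [hs, hD', ga5, u201, l211, m1502]) (by linarith only [hs, hD', ga1, u011, l401, m3501])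
  have u0201x := Q_of' hD (a0 + a2 + b0 + b1 + c0 + c1) (by linarith only [hs, hD', m0201]) (by linarith only [hs, hD', ga0, ga2, ga3, ga4, l021, l211, l320, l401])
  have u0202x := Q_of' hD (a0 + a2 + b0 + b2 + c0 + c1) (by linarith only [hs, hD', ga1, ga5, m1502]) (by linarith only [hs, hD', ga0, ga2, ga3, u120, u500, l510])
  have u0212x := Q_of' hD (a0 + a2 + b1 + b2 + c0 + c1) (by linarith only [hs, hD', ga4, ga5, l100, u201, l211, u310, l320, p1302]) (by linarith only [hs, hD', p0212])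
  have u0301x := Q_of' hD (a0 + a3 + b0 + b1 + c0 + c1) (by linarith only [hs, hD', ga5, m3501]) (by linarith only [hs, hD', ga0, ga1, ga3, ga4, l021, l320])
  have u0302x := Q_of' hD (a0 + a3 + b0 + b2 + c0 + c1) (by linarith only [hs, hD', ga5, u011, u120, p2401]) (by linarith only [hs, hD', ga0, ga3, l211, l510])
  have u0312x := Q_of0 hD (a0 + a3 + b1 + b2 + c0 + c1) (by linarith only [hs, hD', ga1, ga2, ga5, u201, l211, p2401]) (by linarith only [hs, hD', ga0, ga1, ga3, ga4, p0212, p3512])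
  have u0401x := Q_of' hD (a0 + a4 + b0 + b1 + c0 + c1) (by linarith only [hs, hD', ga2, ga5, l100, l401, p1302]) (by linarith only [hs, hD', ga0, ga1, ga4, u310, l320, u500])
  have u0402x := Q_of' hD (a0 + a4 + b0 + b2 + c0 + c1) (by linarith only [hs, hD', ga2, ga3, ga4, l021, l100, u120, p1501]) (by linarith only [hs, hD', p0402])
  have u0412x := Q_of hD (a0 + a4 + b1 + b2 + c0 + c1) (by linarith only [hs, hD', m0412]) (by linarith only [hs, hD', ga0, ga1, ga2, ga4, ga5, l100, l401])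
  have u0501x := Q_of' hD (a0 + a5 + b0 + b1 + c0 + c1) (by linarith only [hs, hD', ga2, ga3, ga4, ga5, l100, u120, l510]) (by linarith only [hs, hD', u011, u500])
  have u0502x := Q_of0 hD (a0 + a5 + b0 + b2 + c0 + c1) (by linarith only [hs, hD', ga1, ga2, ga3, ga4, ga5, u011, l021, l401]) (by linarith only [hs, hD', ga0, ga1, ga2, ga3, u421, u500])
  have u0512x := Q_of hD (a0 + a5 + b1 + b2 + c0 + c1) (by linarith only [hs, hD', l021, l510]) (by linarith only [hs, hD', ga0, ga1, ga2, ga5, u011, l401, u421])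
  have u1201x := Q_of' hD (a1 + a2 + b0 + b1 + c0 + c1) (by linarith only [hs, hD', ga0, l211, u421, p3512]) (by linarith only [hs, hD', ga1, ga2, ga3, ga4, l021, l320])
  have u1202x := Q_of' hD (a1 + a2 + b0 + b2 + c0 + c1) (by linarith only [hs, hD', ga0, ga1, ga5, u011, u310, u421, p2401]) (by linarith only [hs, hD', ga2, u120, l510, m0412])
  have u1212x := Q_of0 hD (a1 + a2 + b1 + b2 + c0 + c1) (by linarith only [hs, hD', ga0, ga1, ga3, ga4, u310, l320, u421, u500]) (by linarith only [hs, hD', ga1, ga2, ga3, ga4, ga5, l100, l401])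
  have u1301x := Q_of' hD (a1 + a3 + b0 + b1 + c0 + c1) (by linarith only [hs, hD', ga5, l100, l211, l401, m1312, m3501]) (by linarith only [hs, hD', ga1, ga3, ga4, l021, l320])
  have u1302x := Q_of' hD (a1 + a3 + b0 + b2 + c0 + c1) (by linarith only [hs, hD', ga2, m0201, m1312, m1502, m2402]) (by linarith only [hs, hD', p1302])
  have u1312x := Q_of hD (a1 + a3 + b1 + b2 + c0 + c1) (by linarith only [hs, hD', m1312]) (by linarith only [hs, hD', ga1, ga2, ga3, ga4, ga5, l100, l401])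
  have u1401x := Q_of' hD (a1 + a4 + b0 + b1 + c0 + c1) (by linarith only [hs, hD', ga0, ga3, ga5, u120, u201, u421, p0212]) (by linarith only [hs, hD', ga1, ga4, l021, l320])
  have u1402x := Q_of0 hD (a1 + a4 + b0 + b2 + c0 + c1) (by linarith only [hs, hD', ga0, ga2, ga3, ga5, u011, l021, l100, l401]) (by linarith only [hs, hD', ga1, ga2, ga4, ga5, l021, u120, l510, p0402])
  have u1412x := Q_of hD (a1 + a4 + b1 + b2 + c0 + c1) (by linarith only [hs, hD', ga0, ga3, u201, u500]) (by linarith only [hs, hD', ga1, ga2, ga4, ga5, l100, l401])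
  have u1501x := Q_of' hD (a1 + a5 + b0 + b1 + c0 + c1) (by linarith only [hs, hD', ga0, ga2, ga3, ga4, ga5, l100, u120, l510]) (by linarith only [hs, hD', p1501])
  have u1502x := Q_of hD (a1 + a5 + b0 + b2 + c0 + c1) (by linarith only [hs, hD', m1502]) (by linarith only [hs, hD', ga1, ga2, ga3, u421, u500])
  have u1512x := Q_of hD (a1 + a5 + b1 + b2 + c0 + c1) (by linarith only [hs, hD', ga0, ga3, ga4, u201, u500]) (by linarith only [hs, hD', ga1, ga2, ga5, l100, u120, m2402])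
  have u2301x := Q_of' hD (a2 + a3 + b0 + b1 + c0 + c1) (by linarith only [hs, hD', ga0, ga1, ga5, m3501]) (by linarith only [hs, hD', ga3, l021, u201, m1502])
  have u2302x := Q_of0 hD (a2 + a3 + b0 + b2 + c0 + c1) (by linarith only [hs, hD', ga0, ga1, ga2, ga4, ga5, u011, u310]) (by linarith only [hs, hD', ga0, ga2, ga3, ga4, ga5, u120, u500, l510])
  have u2312x := Q_of hD (a2 + a3 + b1 + b2 + c0 + c1) (by linarith only [hs, hD', ga1, l320, u500, p0402]) (by linarith only [hs, hD', ga2, ga3, ga4, ga5, l100, l401])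
  have u2401x := Q_of' hD (a2 + a4 + b0 + b1 + c0 + c1) (by linarith only [hs, hD', ga0, ga1, ga2, ga3, ga5, l211, l401, u421]) (by linarith only [hs, hD', p2401])
  have u2402x := Q_of hD (a2 + a4 + b0 + b2 + c0 + c1) (by linarith only [hs, hD', m2402]) (by linarith only [hs, hD', ga0, ga2, ga3, ga4, ga5, u120, u500, l510])
  have u2412x := Q_of hD (a2 + a4 + b1 + b2 + c0 + c1) (by linarith only [hs, hD', ga0, ga1, ga3, u201, u500]) (by linarith only [hs, hD', ga2, ga4, ga5, l100, l401])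
  have u2501x := Q_of0 hD (a2 + a5 + b0 + b1 + c0 + c1) (by linarith only [hs, hD', ga0, ga1, ga3, ga4, u011, u120, l510, m0201]) (by linarith only [hs, hD', ga0, ga2, ga3, ga5, l021, u201, p1501, m1502])
  have u2502x := Q_of hD (a2 + a5 + b0 + b2 + c0 + c1) (by linarith only [hs, hD', ga1, ga4, u011, u310]) (by linarith only [hs, hD', ga0, ga2, ga3, ga5, u201, l211, m3501])
  have u2512x := Q_of hD (a2 + a5 + b1 + b2 + c0 + c1) (by linarith only [hs, hD', ga0, ga1, ga3, ga4, l320, u500, l510]) (by linarith only [hs, hD', ga5, p0212])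
  have u3401x := Q_of0 hD (a3 + a4 + b0 + b1 + c0 + c1) (by linarith only [hs, hD', ga0, ga1, ga2, ga3, u120, u421, u500, p3512]) (by linarith only [hs, hD', ga0, ga1, ga3, ga4, ga5, u310, l320, u500])
  have u3402x := Q_of hD (a3 + a4 + b0 + b2 + c0 + c1) (by linarith only [hs, hD', p0212, p1501]) (by linarith only [hs, hD', ga0, ga3, ga4, ga5, l211, l510])
  have u3412x := Q_of hD (a3 + a4 + b1 + b2 + c0 + c1) (by linarith only [hs, hD', ga1, ga2, ga3, u011, u201, u500, p0402]) (by linarith only [hs, hD', ga4, l100, u310, m0201])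
  have u3501x := Q_of hD (a3 + a5 + b0 + b1 + c0 + c1) (by linarith only [hs, hD', m3501]) (by linarith only [hs, hD', ga0, ga5, l211, u310, l320, l510, m0412, m2402])
  have u3502x := Q_of hD (a3 + a5 + b0 + b2 + c0 + c1) (by linarith only [hs, hD', ga1, ga2, ga4, u011, l021, l401]) (by linarith only [hs, hD', ga0, ga3, ga5, u201, l211, m0201])
  have u3512x := Q_of hD (a3 + a5 + b1 + b2 + c0 + c1) (by linarith only [hs, hD', ga0, ga1, ga2, ga3, ga4, l320, u500, l510]) (by linarith only [hs, hD', p3512])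
  have u4501x := Q_of hD (a4 + a5 + b0 + b1 + c0 + c1) (by linarith only [hs, hD', ga3, u120, l510, p0212]) (by linarith only [hs, hD', ga5, l211, u421, m1312, p1501, m1502])
  have u4502x := Q_of hD (a4 + a5 + b0 + b2 + c0 + c1) (by linarith only [hs, hD', ga1, ga3, ga4, l021, l320, p0212]) (by linarith only [hs, hD', ga5, l211, u421, m1312])
  have u4512x := Q_ofp hD (a4 + a5 + b1 + b2 + c0 + c1) (by linarith only [hs, hD', ga1, ga2, ga3, ga4, l320, u500, l510, p0212]) (by linarith only [hs, hD', ga0, ga1, ga2, ga5, l211, l401, u421, m1502])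
  have w012 := Q_ofm hD (a0 + a1 + a2 + b0 + b1 + b2 + 2 * c0 + c1) (by linarith only [hs, hD', ga0, ga1, ga3, ga4, ga5, u011, u201, u421]) (by linarith only [hs, hD', ga1, ga2, ga3, ga4, u011, l021, l401, p0402])
  have w013 := Q_ofm hD (a0 + a1 + a3 + b0 + b1 + b2 + 2 * c0 + c1) (by linarith only [hs, hD', ga2, ga5, l100, u201, l320, u421, m1312, p2401]) (by linarith only [hs, hD', ga0, ga1, ga2, ga3, ga4, u120, u310, u500])
  have w014 := Q_of' hD (a0 + a1 + a4 + b0 + b1 + b2 + 2 * c0 + c1) (by linarith only [hs, hD', ga3, ga5, l100, u201]) (by linarith only [hs, hD', ga0, ga1, ga2, ga4, l021, l211, l401])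
  have w015 := Q_of' hD (a0 + a1 + a5 + b0 + b1 + b2 + 2 * c0 + c1) (by linarith only [hs, hD', ga3, ga4, ga5, l100, u201]) (by linarith only [hs, hD', ga0, ga1, ga2, u120, u500, m2402])
  have w023 := Q_of' hD (a0 + a2 + a3 + b0 + b1 + b2 + 2 * c0 + c1) (by linarith only [hs, hD', ga1, ga5, l320, u421]) (by linarith only [hs, hD', ga0, ga2, ga3, ga4, u120, u310, u500])
  have w024 := Q_of' hD (a0 + a2 + a4 + b0 + b1 + b2 + 2 * c0 + c1) (by linarith only [hs, hD', ga5, l100, l320, p1302, m2402]) (by linarith only [hs, hD', ga0, ga2, ga4, l021, l211, l401])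
  have w025 := Q_of' hD (a0 + a2 + a5 + b0 + b1 + b2 + 2 * c0 + c1) (by linarith only [hs, hD', ga1, ga3, ga4, ga5, l100, l320, l510]) (by linarith only [hs, hD', u500, p0212])
  have w034 := Q_of' hD (a0 + a3 + a4 + b0 + b1 + b2 + 2 * c0 + c1) (by linarith only [hs, hD', ga5, u011, u120, u201]) (by linarith only [hs, hD', ga0, ga4, l211, u310])
  have w035 := Q_of0 hD (a0 + a3 + a5 + b0 + b1 + b2 + 2 * c0 + c1) (by linarith only [hs, hD', ga1, ga2, ga3, ga4, ga5, l100, l320, l510]) (by linarith only [hs, hD', ga0, ga3, l211, u310, l401, u500, m2402, p3512])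
  have w045 := Q_of0 hD (a0 + a4 + a5 + b0 + b1 + b2 + 2 * c0 + c1) (by linarith only [hs, hD', ga1, ga2, ga3, ga4, ga5, l100, l320, l510]) (by linarith only [hs, hD', ga1, ga2, ga4, u011, l401, u500, p0402, p3512])
  have w123 := Q_of' hD (a1 + a2 + a3 + b0 + b1 + b2 + 2 * c0 + c1) (by linarith only [hs, hD', ga5, u011, p0402]) (by linarith only [hs, hD', ga2, ga3, ga4, l021, u120])
  have w124 := Q_of' hD (a1 + a2 + a4 + b0 + b1 + b2 + 2 * c0 + c1) (by linarith only [hs, hD', ga0, ga1, ga3, ga5, u011, u201, u421]) (by linarith only [hs, hD', ga2, ga4, l021, u120])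
  have w125 := Q_of0 hD (a1 + a2 + a5 + b0 + b1 + b2 + 2 * c0 + c1) (by linarith only [hs, hD', ga0, ga1, ga3, ga4, ga5, u011, u201, u421]) (by linarith only [hs, hD', ga2, ga5, l021, u120, l401, u500, m0412, p1501])
  have w134 := Q_of0 hD (a1 + a3 + a4 + b0 + b1 + b2 + 2 * c0 + c1) (by linarith only [hs, hD', ga0, ga2, u011, u120, u201, u421, u500, p3512]) (by linarith only [hs, hD', ga1, ga4, l021, u120, l211, u310, m0201, p1302])
  have w135 := Q_of0 hD (a1 + a3 + a5 + b0 + b1 + b2 + 2 * c0 + c1) (by linarith only [hs, hD', ga0, ga2, ga4, l100, l320, l510]) (by linarith only [hs, hD', ga5, u120, l211, u310, m0412, m2402])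
  have w145 := Q_of0 hD (a1 + a4 + a5 + b0 + b1 + b2 + 2 * c0 + c1) (by linarith only [hs, hD', ga0, ga3, u011, l100, u201, l510, p0212, m1502]) (by linarith only [hs, hD', ga0, ga4, ga5, u120, p1501])
  have w234 := Q_of0 hD (a2 + a3 + a4 + b0 + b1 + b2 + 2 * c0 + c1) (by linarith only [hs, hD', ga1, ga2, ga3, u011, u421, u500]) (by linarith only [hs, hD', ga0, ga2, ga3, ga4, ga5, l021, l211, l401])
  have w235 := Q_of0 hD (a2 + a3 + a5 + b0 + b1 + b2 + 2 * c0 + c1) (by linarith only [hs, hD', ga1, ga4, u011, l320, u421, l510, p0402, m3501]) (by linarith only [hs, hD', ga0, ga2, ga3, ga4, ga5, u120, u310, u500])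
  have w245 := Q_of hD (a2 + a4 + a5 + b0 + b1 + b2 + 2 * c0 + c1) (by linarith only [hs, hD', ga1, ga3, u011, l510]) (by linarith only [hs, hD', ga0, ga2, ga5, l211, u310, p2401, m3501])
  have w345 := Q_of hD (a3 + a4 + a5 + b0 + b1 + b2 + 2 * c0 + c1) (by linarith only [hs, hD', ga1, ga2, ga3, u011, l510]) (by linarith only [hs, hD', ga0, ga4, ga5, l211, u310])
  rw [abs_neg, abs_neg, abs_neg] at key
  have h3 := mul_lt_mul_of_pos_left key hD'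
  have hc : a5 = -(a0 + a1 + a2 + a3 + a4 + 2 * b0 + 2 * b1 + 2 * b2 + 3 * c0 + 3 * c1) := by linarith only [hs]
  have h4 : 4 * (Q D (a1 - a0) + Q D (a2 - a0) + Q D (a3 - a0) + Q D (a4 - a0) + Q D (a5 - a0) + Q D (a2 - a1) + Q D (a3 - a1) + Q D (a4 - a1) + Q D (a5 - a1) + Q D (a3 - a2) + Q D (a4 - a2) + Q D (a5 - a2) + Q D (a4 - a3) + Q D (a5 - a3) + Q D (a5 - a4)) +
      9 * (Q D (b1 - b0) + Q D (b2 - b0) + Q D (b2 - b1)) + 14 * Q D (c1 - c0) -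
      (Q D (a0 + b0 + c0) + Q D (a0 + b0 + c1) + Q D (a0 + b1 + c0) + Q D (a0 + b1 + c1) + Q D (a0 + b2 + c0) + Q D (a0 + b2 + c1) + Q D (a1 + b0 + c0) + Q D (a1 + b0 + c1) + Q D (a1 + b1 + c0) + Q D (a1 + b1 + c1) + Q D (a1 + b2 + c0) + Q D (a1 + b2 + c1) + Q D (a2 + b0 + c0) + Q D (a2 + b0 + c1) + Q D (a2 + b1 + c0) + Q D (a2 + b1 + c1) + Q D (a2 + b2 + c0) + Q D (a2 + b2 + c1) + Q D (a3 + b0 + c0) + Q D (a3 + b0 + c1) + Q D (a3 + b1 + c0) + Q D (a3 + b1 + c1) + Q D (a3 + b2 + c0) + Q D (a3 + b2 + c1) + Q D (a4 + b0 + c0) + Q D (a4 + b0 + c1) + Q D (a4 + b1 + c0) + Q D (a4 + b1 + c1) + Q D (a4 + b2 + c0) + Q D (a4 + b2 + c1) + Q D (a5 + b0 + c0) + Q D (a5 + b0 + c1) + Q D (a5 + b1 + c0) + Q D (a5 + b1 + c1) + Q D (a5 + b2 + c0) + Q D (a5 + b2 + c1)) -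
      (Q D (a0 + a1 + b0 + b1 + c0 + c1) + Q D (a0 + a1 + b0 + b2 + c0 + c1) + Q D (a0 + a1 + b1 + b2 + c0 + c1) + Q D (a0 + a2 + b0 + b1 + c0 + c1) + Q D (a0 + a2 + b0 + b2 + c0 + c1) + Q D (a0 + a2 + b1 + b2 + c0 + c1) + Q D (a0 + a3 + b0 + b1 + c0 + c1) + Q D (a0 + a3 + b0 + b2 + c0 + c1) + Q D (a0 + a3 + b1 + b2 + c0 + c1) + Q D (a0 + a4 + b0 + b1 + c0 + c1) + Q D (a0 + a4 + b0 + b2 + c0 + c1) + Q D (a0 + a4 + b1 + b2 + c0 + c1) + Q D (a0 + a5 + b0 + b1 + c0 + c1) + Q D (a0 + a5 + b0 + b2 + c0 + c1) + Q D (a0 + a5 + b1 + b2 + c0 + c1) + Q D (a1 + a2 + b0 + b1 + c0 + c1) + Q D (a1 + a2 + b0 + b2 + c0 + c1) + Q D (a1 + a2 + b1 + b2 + c0 + c1) + Q D (a1 + a3 + b0 + b1 + c0 + c1) + Q D (a1 + a3 + b0 + b2 + c0 + c1) + Q D (a1 + a3 + b1 + b2 + c0 + c1) + Q D (a1 + a4 + b0 + b1 + c0 + c1) + Q D (a1 + a4 + b0 + b2 + c0 + c1) + Q D (a1 + a4 + b1 + b2 + c0 + c1) + Q D (a1 + a5 + b0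 + b1 + c0 + c1) + Q D (a1 + a5 + b0 + b2 + c0 + c1) + Q D (a1 + a5 + b1 + b2 + c0 + c1) + Q D (a2 + a3 + b0 + b1 + c0 + c1) + Q D (a2 + a3 + b0 + b2 + c0 + c1) + Q D (a2 + a3 + b1 + b2 + c0 + c1) + Q D (a2 + a4 + b0 + b1 + c0 + c1) + Q D (a2 + a4 + b0 + b2 + c0 + c1) + Q D (a2 + a4 + b1 + b2 + c0 + c1) + Q D (a2 + a5 + b0 + b1 + c0 + c1) + Q D (a2 + a5 + b0 + b2 + c0 + c1) + Q D (a2 + a5 + b1 + b2 + c0 + c1) + Q D (a3 + a4 + b0 + b1 + c0 + c1) + Q D (a3 + a4 + b0 + b2 + c0 + c1) + Q D (a3 + a4 + b1 + b2 + c0 + c1) + Q D (a3 + a5 + b0 + b1 + c0 + c1) + Q D (a3 + a5 + b0 + b2 + c0 + c1) + Q D (a3 + a5 + b1 + b2 + c0 + c1) + Q D (a4 + a5 + b0 + b1 + c0 + c1) + Q D (a4 + a5 + b0 + b2 + c0 + c1) + Q D (a4 + a5 + b1 + b2 + c0 + c1)) -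
      (Q D (a0 + a1 + a2 + b0 + b1 + b2 + 2 * c0 + c1) + Q D (a0 + a1 + a3 + b0 + b1 + b2 + 2 * c0 + c1) + Q D (a0 + a1 + a4 + b0 + b1 + b2 + 2 * c0 + c1) + Q D (a0 + a1 + a5 + b0 + b1 + b2 + 2 * c0 + c1) + Q D (a0 + a2 + a3 + b0 + b1 + b2 + 2 * c0 + c1) + Q D (a0 + a2 + a4 + b0 + b1 + b2 + 2 * c0 + c1) + Q D (a0 + a2 + a5 + b0 + b1 + b2 + 2 * c0 + c1) + Q D (a0 + a3 + a4 + b0 + b1 + b2 + 2 * c0 + c1) + Q D (a0 + a3 + a5 + b0 + b1 + b2 + 2 * c0 + c1) + Q D (a0 + a4 + a5 + b0 + b1 + b2 + 2 * c0 + c1) + Q D (a1 + a2 + a3 + b0 + b1 + b2 + 2 * c0 + c1) + Q D (a1 + a2 + a4 + b0 + b1 + b2 + 2 * c0 + c1) + Q D (a1 + a2 + a5 + b0 + b1 + b2 + 2 * c0 + c1) + Q D (a1 + a3 + a4 + b0 + b1 + b2 + 2 * c0 + c1) + Q D (a1 + a3 + a5 + b0 + b1 + b2 + 2 * c0 + c1) + Q D (a1 + a4 + a5 + b0 + b1 + b2 + 2 * c0 + c1) + Q D (a2 + a3 + a4 + b0 + b1 + b2 + 2 * c0 + c1) + Q D (a2 + a3 + a5 + b0 + b1 + b2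 + 2 * c0 + c1) + Q D (a2 + a4 + a5 + b0 + b1 + b2 + 2 * c0 + c1) + Q D (a3 + a4 + a5 + b0 + b1 + b2 + 2 * c0 + c1)) =
      (D : ℤ) * ((|a0 + b0 + c0 + (D : ℤ)| + |a0 + a1 + b0 + b1 + c0 + c1 + (D : ℤ)| + |a0 + a1 + a2 + b0 + b1 + b2 + 2 * c0 + c1 + (D : ℤ)| + |a4 + a5 + b1 + b2 + c0 + c1 - (D : ℤ)| + |a5 + b2 + c1 - (D : ℤ)| + |a1 + b1 + c1| + |a1 + a2 + b1 + b2 + c0 + c1| + |a0 + a4 + a5 + b0 + b1 + b2 + 2 * c0 + c1| + |a0 + a5 + b0 + b2 + c0 + c1| + |a2 + b2 + c0| + |a2 + a3 + b0 + b2 + c0 + c1| + |a2 + a3 + a4 + b0 + b1 + b2 + 2 * c0 + c1| + |a3 + b0 + c1| + |a3 + a4 + b0 + b1 + c0 + c1| + |a4 + b1 + c0|) +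
    (|a0 + a3 + b1 + b2 + c0 + c1| + |a1 + a4 + b0 + b2 + c0 + c1| + |a2 + a5 + b0 + b1 + c0 + c1|) + |a1 + a3 + a5 + b0 + b1 + b2 + 2 * c0 + c1| +
    ((|a0 + a1 + a3 + b0 + b1 + b2 + 2 * c0 + c1 + (D : ℤ)| - (a0 + a1 + a3 + b0 + b1 + b2 + 2 * c0 + c1 + (D : ℤ))) + (|a0 + a3 + a5 + b0 + b1 + b2 + 2 * c0 + c1| - (-(a0 + a3 + a5 + b0 + b1 + b2 + 2 * c0 + c1))) + (|a1 + a2 + a5 + b0 + b1 + b2 + 2 * c0 + c1| - (-(a1 + a2 + a5 + b0 + b1 + b2 + 2 * c0 + c1))) + (|a1 + a3 + a4 + b0 + b1 + b2 + 2 * c0 + c1| - (-(a1 + a3 + a4 + b0 + b1 + b2 + 2 * c0 + c1))) + (|a1 + a4 + a5 + b0 + b1 + b2 + 2 * c0 + c1| - (a1 + a4 + a5 + b0 + b1 + b2 + 2 * c0 + c1)) + (|a2 + a3 + a5 + b0 + b1 + b2 + 2 * c0 + c1| - (a2 + a3 + a5 + b0 + b1 + b2 + 2 * c0 + c1)))) - 5 * (D : ℤ) ^ 2 := by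
    subst hc
    linear_combination 4 * qa01 + 4 * qa02 + 4 * qa03 + 4 * qa04 + 4 * qa05 + 4 * qa12 + 4 * qa13 + 4 * qa14 + 4 * qa15 + 4 * qa23 + 4 * qa24 + 4 * qa25 + 4 * qa34 + 4 * qa35 + 4 * qa45 + 9 * qb01 + 9 * qb02 + 9 * qb12 + 14 * qc + (-1) * e000 + (-1) * e001 + (-1) * e010 + (-1) * e011 + (-1) * e020 + (-1) * e021 + (-1) * e100 + (-1) * e101 + (-1) * e110 + (-1) * e111 + (-1) * e120 + (-1) * e121 + (-1) * e200 + (-1) * e201 + (-1) * e210 + (-1) * e211 + (-1) * e220 + (-1) * e221 + (-1) * e300 + (-1) * e301 + (-1) * e310 + (-1) * e311 + (-1) * e320 + (-1) * e321 + (-1) * e400 + (-1) * e401 + (-1) * e410 + (-1) * e411 + (-1) * e420 + (-1) * e421 + (-1) * e500 + (-1) * e501 + (-1) * e510 + (-1) * e511 + (-1) * e520 + (-1) * e521 + (-1) * u0101x + (-1) * u0102x + (-1) * u0112x + (-1) * u0201x + (-1) * u0202x + (-1) * u0212x + (-1) * u0301x + (-1) * u0302x + (-1) * u0312x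 + (-1) * u0401x + (-1) * u0402x + (-1) * u0412x + (-1) * u0501x + (-1) * u0502x + (-1) * u0512x + (-1) * u1201x + (-1) * u1202x + (-1) * u1212x + (-1) * u1301x + (-1) * u1302x + (-1) * u1312x + (-1) * u1401x + (-1) * u1402x + (-1) * u1412x + (-1) * u1501x + (-1) * u1502x + (-1) * u1512x + (-1) * u2301x + (-1) * u2302x + (-1) * u2312x + (-1) * u2401x + (-1) * u2402x + (-1) * u2412x + (-1) * u2501x + (-1) * u2502x + (-1) * u2512x + (-1) * u3401x + (-1) * u3402x + (-1) * u3412x + (-1) * u3501x + (-1) * u3502x + (-1) * u3512x + (-1) * u4501x + (-1) * u4502x + (-1) * u4512x + (-1) * w012 + (-1) * w013 + (-1) * w014 + (-1) * w015 + (-1) * w023 + (-1) * w024 + (-1) * w025 + (-1) * w034 + (-1) * w035 + (-1) * w045 + (-1) * w123 + (-1) * w124 + (-1) * w125 + (-1) * w134 + (-1) * w135 + (-1) * w145 + (-1) * w234 + (-1) * w235 + (-1) * w245 + (-1) * w345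
  rw [h4]
  linarith only [h3]

end Pool.Agent.TH190.E8
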