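import Pool.Agent.TH190.E8.Point8
import Pool.Agent.W280.PC.Arith3

set_option autoImplicit false
set_option maxHeartbeats 4000000

/-!
The symmetric expression for rank six.
-/

namespace Pool.Agent.TH190.E8

open Finset Pool.Agent.W280.PC

/-- the symmetric expression -/
def Psi (S : ℤ → ℤ) (x : Fin 6 → ℤ) (y : Fin 3 → ℤ) (u v : ℤ) : ℤ :=
  4 * (∑ i, ∑ i', S (x i - x i')) + 9 * (∑ i, ∑ i', S (y i - y i')) + 28 * S (u - v) -
  2 * (∑ i, ∑ k, (S (x i + y k + u) + S (x i + y k + v))) -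
  2 * (∑ T ∈ powersetCard 2 (univ : Finset (Fin 6)), ∑ k,
    S (∑ i ∈ T, x i + (∑ j, y j - y k) + (u + v))) -
  ∑ T ∈ powersetCard 3 (univ : Finset (Fin 6)), (S (∑ i ∈ T, x i + ∑ j, y j + (2 * u + v)) +
    S (∑ i ∈ T, x i + ∑ j, y j + (2 * v + u)))

lemma sum2_perm {n : ℕ} (σ : Equiv.Perm (Fin n)) (g : Fin n → Fin n → ℤ) :
    ∑ i, ∑ i', g (σ i) (σ i') = ∑ i, ∑ i', g i i' := by
  rw [← Equiv.sum_comp σ (fun i => ∑ i', g i i')]
  exact Finset.sum_congr rfl fun i _ => Equiv.sum_comp σ (fun i' => g (σ i) i')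

lemma sum_powerset_perm {n m : ℕ} (σ : Equiv.Perm (Fin n)) (g : ℤ → ℤ) (x : Fin n → ℤ) :
    ∑ T ∈ powersetCard m (univ : Finset (Fin n)), g (∑ i ∈ T, x (σ i)) =
      ∑ T ∈ powersetCard m (univ : Finset (Fin n)), g (∑ i ∈ T, x i) := by
  refine Finset.sum_equiv (Equiv.finsetCongr σ) ?_ ?_
  · intro T
    simp [mem_powersetCard]
  · intro T _
    simp [Equiv.finsetCongr_apply, Finset.sum_map]

lemma Psi_permX (S : ℤ → ℤ) (x : Fin 6 → ℤ) (y : Fin 3 → ℤ) (u v : ℤ)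
    (σ : Equiv.Perm (Fin 6)) : Psi S (fun i => x (σ i)) y u v = Psi S x y u v := by
  unfold Psi
  have h1 := sum2_perm σ (fun i i' => S (x i - x i'))
  have h2 := Equiv.sum_comp σ (fun i => ∑ k, (S (x i + y k + u) + S (x i + y k + v)))
  have h3 := sum_powerset_perm (m := 2) σ (fun t => ∑ k, S (t + (∑ j, y j - y k) + (u + v))) x
  have h4 := sum_powerset_perm (m := 3) σ (fun t => S (t + ∑ j, y j + (2 * u + v)) +
    S (t + ∑ j, y j + (2 * v + u))) x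
  rw [h1, h2, h3, h4]

lemma Psi_permY (S : ℤ → ℤ) (x : Fin 6 → ℤ) (y : Fin 3 → ℤ) (u v : ℤ)
    (σ : Equiv.Perm (Fin 3)) : Psi S x (fun i => y (σ i)) u v = Psi S x y u v := by
  unfold Psi
  have h1 := sum2_perm σ (fun i i' => S (y i - y i'))
  have h0 : ∑ j, y (σ j) = ∑ j, y j := Equiv.sum_comp σ y
  have h2 : ∀ i, ∑ k, (S (x i + y (σ k) + u) + S (x i + y (σ k) + v)) =
      ∑ k, (S (x i + y k + u) + S (x i + y k + v)) := fun i =>
    Equiv.sum_comp σ (fun k => (S (x i + y k + u) + S (x i + y k + v)))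
  have h3 : ∀ t : ℤ, ∑ k, S (t + (∑ j, y j - y (σ k)) + (u + v)) =
      ∑ k, S (t + (∑ j, y j - y k) + (u + v)) := fun t =>
    Equiv.sum_comp σ (fun k => S (t + (∑ j, y j - y k) + (u + v)))
  rw [h1]
  simp only [h0, h2, h3]

lemma dvd_sum_sub {ι : Type*} {N : ℤ} (T : Finset ι) {x x' : ι → ℤ} (h : ∀ i, N ∣ x i - x' i) :
    N ∣ ∑ i ∈ T, x i - ∑ i ∈ T, x' i := by
  rw [← Finset.sum_sub_distrib]
  exact Finset.dvd_sum fun i _ => h i

lemma Psi_congr {S : ℤ → ℤ} {N : ℤ} (hS : ∀ z z', N ∣ z - z' → S z = S z')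
    {x x' : Fin 6 → ℤ} {y y' : Fin 3 → ℤ} {u u' v v' : ℤ} (hx : ∀ i, N ∣ x i - x' i)
    (hy : ∀ i, N ∣ y i - y' i)
    (hu : N ∣ u - u') (hv : N ∣ v - v') : Psi S x y u v = Psi S x' y' u' v' := by
  have hY := dvd_sum_sub (univ : Finset (Fin 3)) hy
  have h1 : ∀ i i', S (x i - x i') = S (x' i - x' i') := fun i i' => hS _ _ (by
    have := dvd_sub (hx i) (hx i')
    rwa [show x i - x' i - (x i' - x' i') = x i - x i' - (x' i - x' i') by ring] at this)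
  have h2 : ∀ i i', S (y i - y i') = S (y' i - y' i') := fun i i' => hS _ _ (by
    have := dvd_sub (hy i) (hy i')
    rwa [show y i - y' i - (y i' - y' i') = y i - y i' - (y' i - y' i') by ring] at this)
  have h3 : S (u - v) = S (u' - v') := hS _ _ (by
    have := dvd_sub hu hv
    rwa [show u - u' - (v - v') = u - v - (u' - v') by ring] at this)
  have h4 : ∀ i k, S (x i + y k + u) = S (x' i + y' k + u') := fun i k => hS _ _ (by
    have := dvd_add (dvd_add (hx i) (hy k)) hu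
    rwa [show x i - x' i + (y k - y' k) + (u - u') = x i + y k + u - (x' i + y' k + u') by ring]
      at this)
  have h5 : ∀ i k, S (x i + y k + v) = S (x' i + y' k + v') := fun i k => hS _ _ (by
    have := dvd_add (dvd_add (hx i) (hy k)) hv
    rwa [show x i - x' i + (y k - y' k) + (v - v') = x i + y k + v - (x' i + y' k + v') by ring]
      at this)
  have h6 : ∀ (T : Finset (Fin 6)) k, S (∑ i ∈ T, x i + (∑ j, y j - y k) + (u + v)) =
      S (∑ i ∈ T, x' i + (∑ j, y' j - y' k) + (u' + v')) := fun T k => hS _ _ (by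
    have := dvd_add (dvd_add (dvd_sum_sub T hx) (dvd_sub hY (hy k))) (dvd_add hu hv)
    rwa [show ∑ i ∈ T, x i - ∑ i ∈ T, x' i + (∑ j, y j - ∑ j, y' j - (y k - y' k)) +
      (u - u' + (v - v')) = ∑ i ∈ T, x i + (∑ j, y j - y k) + (u + v) -
        (∑ i ∈ T, x' i + (∑ j, y' j - y' k) + (u' + v')) by ring] at this)
  have h7 : ∀ (T : Finset (Fin 6)), S (∑ i ∈ T, x i + ∑ j, y j + (2 * u + v)) =
      S (∑ i ∈ T, x' i + ∑ j, y' j + (2 * u' + v')) := fun T => hS _ _ (by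
    have := dvd_add (dvd_add (dvd_sum_sub T hx) hY) (dvd_add (hu.mul_left 2) hv)
    rwa [show ∑ i ∈ T, x i - ∑ i ∈ T, x' i + (∑ j, y j - ∑ j, y' j) +
      (2 * (u - u') + (v - v')) = ∑ i ∈ T, x i + ∑ j, y j + (2 * u + v) -
        (∑ i ∈ T, x' i + ∑ j, y' j + (2 * u' + v')) by ring] at this)
  have h8 : ∀ (T : Finset (Fin 6)), S (∑ i ∈ T, x i + ∑ j, y j + (2 * v + u)) =
      S (∑ i ∈ T, x' i + ∑ j, y' j + (2 * v' + u')) := fun T => hS _ _ (by
    have := dvd_add (dvd_add (dvd_sum_sub T hx) hY) (dvd_add (hv.mul_left 2) hu)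
    rwa [show ∑ i ∈ T, x i - ∑ i ∈ T, x' i + (∑ j, y j - ∑ j, y' j) +
      (2 * (v - v') + (u - u')) = ∑ i ∈ T, x i + ∑ j, y j + (2 * v + u) -
        (∑ i ∈ T, x' i + ∑ j, y' j + (2 * v' + u')) by ring] at this)
  unfold Psi
  simp only [h1, h2, h3, h4, h5, h6, h7, h8]

lemma Psi_symm {S : ℤ → ℤ} (hS : ∀ z, S (-z) = S z) (x : Fin 6 → ℤ) (y : Fin 3 → ℤ) (u v : ℤ) :
    Psi S x y u v = Psi S x y v u := by
  unfold Psi
  rw [← hS (u - v), neg_sub]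
  have h1 : ∀ i k, S (x i + y k + u) + S (x i + y k + v) =
      S (x i + y k + v) + S (x i + y k + u) := fun i k => add_comm _ _
  have h2 : ∀ T : Finset (Fin 6), S (∑ i ∈ T, x i + ∑ j, y j + (2 * u + v)) +
      S (∑ i ∈ T, x i + ∑ j, y j + (2 * v + u)) = S (∑ i ∈ T, x i + ∑ j, y j + (2 * v + u)) +
      S (∑ i ∈ T, x i + ∑ j, y j + (2 * u + v)) := fun T => add_comm _ _
  simp only [h1, h2, add_comm u v]

lemma Psi_smul (S : ℤ → ℤ) (a : ℤ) (x : Fin 6 → ℤ) (y : Fin 3 → ℤ) (u v : ℤ) :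
    Psi S (fun i => a * x i) (fun i => a * y i) (a * u) (a * v) =
      Psi (fun z => S (a * z)) x y u v := by
  unfold Psi
  simp only [← Finset.mul_sum, ← mul_sub, ← mul_add, mul_left_comm (2 : ℤ) a]

/-- linearity -/
def PsiHom (x : Fin 6 → ℤ) (y : Fin 3 → ℤ) (u v : ℤ) : (ℤ → ℤ) →+ ℤ where
  toFun S := Psi S x y u v
  map_zero' := by simp [Psi]
  map_add' S S' := by
    unfold Psi
    simp only [Pi.add_apply, mul_add, Finset.sum_add_distrib]
    ring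


lemma sum6_diff {S : ℤ → ℤ} (hS : ∀ z, S (-z) = S z) (h0 : S 0 = 0) (x : Fin 6 → ℤ) :
    ∑ i, ∑ i', S (x i - x i') = 2 * (S (x 1 - x 0) + S (x 2 - x 0) + S (x 3 - x 0) + S (x 4 - x 0) + S (x 5 - x 0) + S (x 2 - x 1) + S (x 3 - x 1) + S (x 4 - x 1) + S (x 5 - x 1) + S (x 3 - x 2) + S (x 4 - x 2) + S (x 5 - x 2) + S (x 4 - x 3) + S (x 5 - x 3) + S (x 5 - x 4)) := by
  have h1 : ∀ i i', S (x i - x i') = S (x i' - x i) := fun i i' => by rw [← hS, neg_sub]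
  simp only [Fin.sum_univ_six, sub_self, h0]
  rw [h1 0 1, h1 0 2, h1 0 3, h1 0 4, h1 0 5, h1 1 2, h1 1 3, h1 1 4, h1 1 5, h1 2 3, h1 2 4, h1 2 5, h1 3 4, h1 3 5, h1 4 5]
  ring


lemma sum3_diff {S : ℤ → ℤ} (hS : ∀ z, S (-z) = S z) (h0 : S 0 = 0) (y : Fin 3 → ℤ) :
    ∑ i, ∑ i', S (y i - y i') = 2 * (S (y 1 - y 0) + S (y 2 - y 0) + S (y 2 - y 1)) := by
  have h1 : ∀ i i', S (y i - y i') = S (y i' - y i) := fun i i' => by rw [← hS, neg_sub]
  simp only [Fin.sum_univ_three, sub_self, h0]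
  rw [h1 0 1, h1 0 2, h1 1 2]
  ring


lemma P2_eq : powersetCard 2 (univ : Finset (Fin 6)) = {{0, 1}, {0, 2}, {0, 3}, {0, 4}, {0, 5}, {1, 2}, {1, 3}, {1, 4}, {1, 5}, {2, 3}, {2, 4}, {2, 5}, {3, 4}, {3, 5}, {4, 5}} := by
  decide


lemma P3_eq : powersetCard 3 (univ : Finset (Fin 6)) = {{0, 1, 2}, {0, 1, 3}, {0, 1, 4}, {0, 1, 5}, {0, 2, 3}, {0, 2, 4}, {0, 2, 5}, {0, 3, 4}, {0, 3, 5}, {0, 4, 5}, {1, 2, 3}, {1, 2, 4}, {1, 2, 5}, {1, 3, 4}, {1, 3, 5}, {1, 4, 5}, {2, 3, 4}, {2, 3, 5}, {2, 4, 5}, {3, 4, 5}} := by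
  decide


lemma P2_sum (h : Finset (Fin 6) → ℤ) : ∑ T ∈ powersetCard 2 (univ : Finset (Fin 6)), h T =
    h {0, 1} + h {0, 2} + h {0, 3} + h {0, 4} + h {0, 5} + h {1, 2} + h {1, 3} + h {1, 4} + h {1, 5} + h {2, 3} + h {2, 4} + h {2, 5} + h {3, 4} + h {3, 5} + h {4, 5} := by
  rw [P2_eq]
  rw [Finset.sum_insert (by decide), Finset.sum_insert (by decide), Finset.sum_insert (by decide), Finset.sum_insert (by decide), Finset.sum_insert (by decide), Finset.sum_insert (by decide), Finset.sum_insert (by decide), Finset.sum_insert (by decide), Finset.sum_insert (by decide), Finset.sum_insert (by decide), Finset.sum_insert (by decide), Finset.sum_insert (by decide), Finset.sum_insert (by decide), Finset.sum_insert (by decide), Finset.sum_singleton]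
  ring

lemma sum_P2 (g : ℤ → ℤ) (x : Fin 6 → ℤ) : ∑ T ∈ powersetCard 2 (univ : Finset (Fin 6)),
    g (∑ i ∈ T, x i) = g (x 0 + x 1) + g (x 0 + x 2) + g (x 0 + x 3) + g (x 0 + x 4) + g (x 0 + x 5) + g (x 1 + x 2) + g (x 1 + x 3) + g (x 1 + x 4) + g (x 1 + x 5) + g (x 2 + x 3) + g (x 2 + x 4) + g (x 2 + x 5) + g (x 3 + x 4) + g (x 3 + x 5) + g (x 4 + x 5) := by
  rw [P2_sum]
  rw [Finset.sum_pair (show (0 : Fin 6) ≠ 1 by decide), Finset.sum_pair (show (0 : Fin 6) ≠ 2 by decide), Finset.sum_pair (show (0 : Fin 6) ≠ 3 by decide), Finset.sum_pair (show (0 : Fin 6) ≠ 4 by decide), Finset.sum_pair (show (0 : Fin 6) ≠ 5 by decide), Finset.sum_pair (show (1 : Fin 6) ≠ 2 by decide), Finset.sum_pair (show (1 : Fin 6) ≠ 3 by decide), Finset.sum_pair (show (1 : Fin 6) ≠ 4 by decide), Finset.sum_pair (show (1 : Fin 6) ≠ 5 by decide), Finset.sum_pair (show (2 : Fin 6) ≠ 3 by decide), Finset.sum_pair (show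 (2 : Fin 6) ≠ 4 by decide), Finset.sum_pair (show (2 : Fin 6) ≠ 5 by decide), Finset.sum_pair (show (3 : Fin 6) ≠ 4 by decide), Finset.sum_pair (show (3 : Fin 6) ≠ 5 by decide), Finset.sum_pair (show (4 : Fin 6) ≠ 5 by decide)]


lemma sum_tri {i j k : Fin 6} (x : Fin 6 → ℤ) (h1 : i ≠ j) (h2 : i ≠ k) (h3 : j ≠ k) :
    ∑ l ∈ ({i, j, k} : Finset (Fin 6)), x l = x i + x j + x k := by
  rw [Finset.sum_insert (by simp [h1, h2]), Finset.sum_pair h3, add_assoc]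

lemma P3_sum (h : Finset (Fin 6) → ℤ) : ∑ T ∈ powersetCard 3 (univ : Finset (Fin 6)), h T =
    h {0, 1, 2} + h {0, 1, 3} + h {0, 1, 4} + h {0, 1, 5} + h {0, 2, 3} + h {0, 2, 4} + h {0, 2, 5} + h {0, 3, 4} + h {0, 3, 5} + h {0, 4, 5} + h {1, 2, 3} + h {1, 2, 4} + h {1, 2, 5} + h {1, 3, 4} + h {1, 3, 5} + h {1, 4, 5} + h {2, 3, 4} + h {2, 3, 5} + h {2, 4, 5} + h {3, 4, 5} := by
  rw [P3_eq]
  rw [Finset.sum_insert (by decide), Finset.sum_insert (by decide), Finset.sum_insert (by decide), Finset.sum_insert (by decide), Finset.sum_insert (by decide), Finset.sum_insert (by decide), Finset.sum_insert (by decide), Finset.sum_insert (by decide), Finset.sum_insert (by decide), Finset.sum_insert (by decide), Finset.sum_insert (by decide), Finset.sum_insert (by decide), Finset.sum_insert (by decide), Finset.sum_insert (by decide), Finset.sum_insert (by decide), Finset.sum_insert (by decide), Finset.sum_insert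 (by decide), Finset.sum_insert (by decide), Finset.sum_insert (by decide), Finset.sum_singleton]
  ring

lemma sum_P3 (g : ℤ → ℤ) (x : Fin 6 → ℤ) : ∑ T ∈ powersetCard 3 (univ : Finset (Fin 6)),
    g (∑ i ∈ T, x i) = g (x 0 + x 1 + x 2) + g (x 0 + x 1 + x 3) + g (x 0 + x 1 + x 4) + g (x 0 + x 1 + x 5) + g (x 0 + x 2 + x 3) + g (x 0 + x 2 + x 4) + g (x 0 + x 2 + x 5) + g (x 0 + x 3 + x 4) + g (x 0 + x 3 + x 5) + g (x 0 + x 4 + x 5) + g (x 1 + x 2 + x 3) + g (x 1 + x 2 + x 4) + g (x 1 + x 2 + x 5) + g (x 1 + x 3 + x 4) + g (x 1 + x 3 + x 5) + g (x 1 + x 4 + x 5) + g (x 2 + x 3 + x 4) + g (x 2 + x 3 + x 5) + g (x 2 + x 4 + x 5) + g (x 3 + x 4 + x 5) := by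
  rw [P3_sum]
  rw [sum_tri x (show (0 : Fin 6) ≠ 1 by decide) (show (0 : Fin 6) ≠ 2 by decide) (show (1 : Fin 6) ≠ 2 by decide), sum_tri x (show (0 : Fin 6) ≠ 1 by decide) (show (0 : Fin 6) ≠ 3 by decide) (show (1 : Fin 6) ≠ 3 by decide), sum_tri x (show (0 : Fin 6) ≠ 1 by decide) (show (0 : Fin 6) ≠ 4 by decide) (show (1 : Fin 6) ≠ 4 by decide), sum_tri x (show (0 : Fin 6) ≠ 1 by decide) (show (0 : Fin 6) ≠ 5 by decide) (show (1 : Fin 6) ≠ 5 by decide), sum_tri x (show (0 : Fin 6) ≠ 2 by decide) (show (0 : Fin 6) ≠ 3 by decide) (show (2 : Fin 6) ≠ 3 by decide), sum_tri x (show (0 : Fin 6) ≠ 2 by decide) (show (0 : Fin 6) ≠ 4 by decide) (show (2 : Fin 6) ≠ 4 by decide), sum_tri x (show (0 : Fin 6) ≠ 2 by decide) (show (0 : Fin 6) ≠ 5 by decide) (show (2 : Fin 6) ≠ 5 by decide), sum_tri x (show (0 : Fin 6) ≠ 3 by decide) (show (0 : Fin 6) ≠ 4 by decide) (show (3 : Fin 6) ≠ 4 by decide), sum_tri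 x (show (0 : Fin 6) ≠ 3 by decide) (show (0 : Fin 6) ≠ 5 by decide) (show (3 : Fin 6) ≠ 5 by decide), sum_tri x (show (0 : Fin 6) ≠ 4 by decide) (show (0 : Fin 6) ≠ 5 by decide) (show (4 : Fin 6) ≠ 5 by decide), sum_tri x (show (1 : Fin 6) ≠ 2 by decide) (show (1 : Fin 6) ≠ 3 by decide) (show (2 : Fin 6) ≠ 3 by decide), sum_tri x (show (1 : Fin 6) ≠ 2 by decide) (show (1 : Fin 6) ≠ 4 by decide) (show (2 : Fin 6) ≠ 4 by decide), sum_tri x (show (1 : Fin 6) ≠ 2 by decide) (show (1 : Fin 6) ≠ 5 by decide) (show (2 : Fin 6) ≠ 5 by decide), sum_tri x (show (1 : Fin 6) ≠ 3 by decide) (show (1 : Fin 6) ≠ 4 by decide) (show (3 : Fin 6) ≠ 4 by decide), sum_tri x (show (1 : Fin 6) ≠ 3 by decide) (show (1 : Fin 6) ≠ 5 by decide) (show (3 : Fin 6) ≠ 5 by decide), sum_tri x (show (1 : Fin 6) ≠ 4 by decide) (show (1 : Fin 6) ≠ 5 by decide) (show (4 : Fin 6) ≠ 5 by decide), sum_tri x (show (2 : Fin 6) ≠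 3 by decide) (show (2 : Fin 6) ≠ 4 by decide) (show (3 : Fin 6) ≠ 4 by decide), sum_tri x (show (2 : Fin 6) ≠ 3 by decide) (show (2 : Fin 6) ≠ 5 by decide) (show (3 : Fin 6) ≠ 5 by decide), sum_tri x (show (2 : Fin 6) ≠ 4 by decide) (show (2 : Fin 6) ≠ 5 by decide) (show (4 : Fin 6) ≠ 5 by decide), sum_tri x (show (3 : Fin 6) ≠ 4 by decide) (show (3 : Fin 6) ≠ 5 by decide) (show (4 : Fin 6) ≠ 5 by decide)]

end Pool.Agent.TH190.E8
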