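import Pool.Agent.TH190.E8.Arith8

set_option autoImplicit false
set_option maxHeartbeats 4000000
set_option maxRecDepth 10000

/-!
The pointwise inequality for rank six, for the sequences attached to a residue class.
-/

namespace Pool.Agent.TH190.E8

open Finset Pool.Agent.W280.PC Pool.Agent.W280.PE

lemma good_align {N : ℕ} (hN : 0 < N) {e1 e2 e3 : Fin 6 → ℤ} {a : ℤ}
    (d0 : (N : ℤ) ∣ e2 0 - e2 1) (d1 : (N : ℤ) ∣ e2 2 - e2 3) (d2 : (N : ℤ) ∣ e2 4 - e2 5)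
    (c1 : (N : ℤ) ∣ e3 0 - e3 1) (c2 : (N : ℤ) ∣ e3 0 - e3 2) (c4 : (N : ℤ) ∣ e3 3 - e3 4)
    (c5 : (N : ℤ) ∣ e3 3 - e3 5)
    {X Y C : ℤ → ℤ} (h : Good N e1 e2 e3 a X Y C) :
    ∃ X Y C, Good N e1 e2 e3 a X Y C ∧ Y 0 = Y 1 ∧ Y 2 = Y 3 ∧ Y 4 = Y 5 ∧ C 0 = C 1 ∧ C 0 = C 2 ∧
      C 3 = C 4 ∧ C 3 = C 5 := by
  have hN' : (0 : ℤ) < N := by exact_mod_cast hN
  obtain ⟨t1, ht1⟩ := c1
  obtain ⟨t2, ht2⟩ := c2
  obtain ⟨t4, ht4⟩ := c4
  obtain ⟨t5, ht5⟩ := c5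
  obtain ⟨s, hs⟩ := h.sC.align hN (d := 3) (by norm_num) (T0 := a * t1 + a * t2 + a * t4 + a * t5)
    (g := fun v => (v - a * e3 0) / (N : ℤ) + (v - a * e3 3) / (N : ℤ)) (by
      intro v
      rw [Fin.sum_univ_six]
      have h1 : v - a * e3 1 = (v - a * e3 0) + N * (a * t1) := by linear_combination a * ht1
      have h2 : v - a * e3 2 = (v - a * e3 0) + N * (a * t2) := by linear_combination a * ht2
      have h4 : v - a * e3 4 = (v - a * e3 3) + N * (a * t4) := by linear_combination a * ht4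
      have h5 : v - a * e3 5 = (v - a * e3 3) + N * (a * t5) := by linear_combination a * ht5
      rw [h1, h2, h4, h5, Int.add_mul_ediv_left _ _ hN'.ne', Int.add_mul_ediv_left _ _ hN'.ne',
        Int.add_mul_ediv_left _ _ hN'.ne', Int.add_mul_ediv_left _ _ hN'.ne']
      push_cast
      ring)
  obtain ⟨r0, hr0⟩ := d0
  obtain ⟨r1, hr1⟩ := d1
  obtain ⟨r2, hr2⟩ := d2
  obtain ⟨t, ht⟩ := h.sY.align hN (d := 2) (by norm_num) (T0 := a * r0 + a * r1 + a * r2)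
    (g := fun v => (v - a * e2 0) / (N : ℤ) + (v - a * e2 2) / (N : ℤ) +
      (v - a * e2 4) / (N : ℤ)) (by
      intro v
      rw [Fin.sum_univ_six]
      have h1 : v - a * e2 1 = (v - a * e2 0) + N * (a * r0) := by linear_combination a * hr0
      have h3 : v - a * e2 3 = (v - a * e2 2) + N * (a * r1) := by linear_combination a * hr1
      have h5 : v - a * e2 5 = (v - a * e2 4) + N * (a * r2) := by linear_combination a * hr2
      rw [h1, h3, h5, Int.add_mul_ediv_left _ _ hN'.ne', Int.add_mul_ediv_left _ _ hN'.ne',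
        Int.add_mul_ediv_left _ _ hN'.ne']
      push_cast
      ring)
  have h1 := ((h.shift s).rot.shift (-t)).rot.rot
  refine ⟨_, _, _, h1, ?_, ?_, ?_, ?_, ?_, ?_, ?_⟩
  · have := ht 0 0 1 le_rfl (by norm_num) (by norm_num) (by norm_num)
    simpa using this
  · have := ht 1 0 1 le_rfl (by norm_num) (by norm_num) (by norm_num)
    simpa [add_assoc] using this
  · have := ht 2 0 1 le_rfl (by norm_num) (by norm_num) (by norm_num)
    simpa [add_assoc] using this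
  · have := hs 0 0 1 le_rfl (by norm_num) (by norm_num) (by norm_num)
    simpa using this
  · have := hs 0 0 2 le_rfl (by norm_num) (by norm_num) (by norm_num)
    simpa using this
  · have := hs 1 0 1 le_rfl (by norm_num) (by norm_num) (by norm_num)
    simpa [add_assoc] using this
  · have := hs 1 0 2 le_rfl (by norm_num) (by norm_num) (by norm_num)
    simpa [add_assoc] using this


/-- The pointwise inequality for rank six. -/
lemma point8 {N : ℕ} (hN : 0 < N) {e1 e2 e3 : Fin 6 → ℤ} {a : ℤ} (ha : IsCoprime a (N : ℤ))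
    (d0 : (N : ℤ) ∣ e2 0 - e2 1) (d1 : (N : ℤ) ∣ e2 2 - e2 3) (d2 : (N : ℤ) ∣ e2 4 - e2 5)
    (c1 : (N : ℤ) ∣ e3 0 - e3 1) (c2 : (N : ℤ) ∣ e3 0 - e3 2) (c4 : (N : ℤ) ∣ e3 3 - e3 4)
    (c5 : (N : ℤ) ∣ e3 3 - e3 5)
    (hF : ∀ i j, ¬ (N : ℤ) ∣ e1 i + y3 e2 j + e3 0) (hF' : ∀ i j, ¬ (N : ℤ) ∣ e1 i + y3 e2 j + e3 3)
    (hG : ∀ i i' (k k' : Fin 3), i ≠ i' → k ≠ k' →
      ¬ (N : ℤ) ∣ (e1 i + e1 i') + (y3 e2 k + y3 e2 k') + (e3 0 + e3 3))
    {X₀ Y₀ C₀ : ℤ → ℤ} (h₀ : Good N e1 e2 e3 a X₀ Y₀ C₀) :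
    Psi (Q N) (fun i => a * e1 i) (fun j => a * y3 e2 j) (a * e3 0) (a * e3 3) < 0 := by
  have hN' : (0 : ℤ) < N := by exact_mod_cast hN
  obtain ⟨X, Y, C, h, hY01, hY23, hY45, hC01, hC02, hC34, hC35⟩ :=
    good_align hN d0 d1 d2 c1 c2 c4 c5 h₀
  obtain ⟨sX, sY, sC, hsum, i1, j1, i2, j2⟩ := h
  obtain ⟨σ, hσ⟩ := sX.res
  obtain ⟨τ, hτ⟩ := sY.res
  obtain ⟨ρ, hρ⟩ := sC.res
  obtain ⟨π, hπ⟩ := match2 τ hτ hY01 hY23 hY45 d0 d1 d2
  have hres := match3 ρ hρ hC01 hC02 hC34 hC35 c1 c2 c4 c5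
  have hQc : ∀ z z', (N : ℤ) ∣ z - z' → Q N z = Q N z' := fun z z' => Q_congr
  have hred : Psi (Q N) (fun i => a * e1 i) (fun j => a * y3 e2 j) (a * e3 0) (a * e3 3) =
      Psi (Q N) (fun i : Fin 6 => X ((i : ℕ) : ℤ)) (fun j : Fin 3 => Y (2 * ((j : ℕ) : ℤ)))
        (C 0) (C 3) := by
    rw [← Psi_permX _ _ _ _ _ σ, ← Psi_permY _ _ _ _ _ π]
    rcases hres with ⟨k0, k2⟩ | ⟨k0, k2⟩
    · exact (Psi_congr hQc hσ hπ k0 k2).symm
    · rw [Psi_symm (Q_neg hN) _ _ (a * e3 0) (a * e3 3)]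
      exact (Psi_congr hQc hσ hπ k0 k2).symm
  rw [hred]
  -- nonresonance
  have hcc : (N : ℤ) ∣ (C 0 + C 3) - a * (e3 0 + e3 3) := by
    rcases hres with ⟨k0, k2⟩ | ⟨k0, k2⟩
    · have := dvd_add k0 k2
      rwa [show C 0 - a * e3 0 + (C 3 - a * e3 3) = (C 0 + C 3) - a * (e3 0 + e3 3) by ring]
        at this
    · have := dvd_add k0 k2
      rwa [show C 0 - a * e3 3 + (C 3 - a * e3 0) = (C 0 + C 3) - a * (e3 0 + e3 3) by ring]
        at this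
  have nz2 : ∀ (i i' : Fin 6) (j j' : Fin 3), i ≠ i' → j ≠ j' →
      X ((i : ℕ) : ℤ) + X ((i' : ℕ) : ℤ) + Y (2 * ((j : ℕ) : ℤ)) + Y (2 * ((j' : ℕ) : ℤ)) + C 0 + C 3 ≠ 0 ∧
      X ((i : ℕ) : ℤ) + X ((i' : ℕ) : ℤ) + Y (2 * ((j : ℕ) : ℤ)) + Y (2 * ((j' : ℕ) : ℤ)) + C 0 + C 3 ≠ N ∧
      X ((i : ℕ) : ℤ) + X ((i' : ℕ) : ℤ) + Y (2 * ((j : ℕ) : ℤ)) + Y (2 * ((j' : ℕ) : ℤ)) + C 0 + C 3 ≠ -N := by
    intro i i' j j' hi hj
    have hnd : ¬ (N : ℤ) ∣ X ((i : ℕ) : ℤ) + X ((i' : ℕ) : ℤ) + Y (2 * ((j : ℕ) : ℤ)) +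
        Y (2 * ((j' : ℕ) : ℤ)) + C 0 + C 3 := by
      intro hd
      have h1 := dvd_add (dvd_add (dvd_add (hσ i) (hσ i')) (dvd_add (hπ j) (hπ j'))) hcc
      have h2 := dvd_sub hd h1
      rw [show X ((i : ℕ) : ℤ) + X ((i' : ℕ) : ℤ) + Y (2 * ((j : ℕ) : ℤ)) +
        Y (2 * ((j' : ℕ) : ℤ)) + C 0 + C 3 - (X ((i : ℕ) : ℤ) - a * e1 (σ i) +
        (X ((i' : ℕ) : ℤ) - a * e1 (σ i')) + (Y (2 * ((j : ℕ) : ℤ)) - a * y3 e2 (π j) +
        (Y (2 * ((j' : ℕ) : ℤ)) - a * y3 e2 (π j'))) + ((C 0 + C 3) - a * (e3 0 + e3 3))) =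
        a * ((e1 (σ i) + e1 (σ i')) + (y3 e2 (π j) + y3 e2 (π j')) + (e3 0 + e3 3)) by ring,
        coprime_scale ha] at h2
      exact hG _ _ _ _ (fun h => hi (σ.injective h)) (fun h => hj (π.injective h)) h2
    refine ⟨fun h0 => hnd ?_, fun h0 => hnd ?_, fun h0 => hnd ?_⟩
    · rw [h0]; exact dvd_zero _
    · rw [h0]
    · rw [h0]; exact (dvd_neg).2 dvd_rfl
  have nz1 : ∀ (i : Fin 6) (j : Fin 3) (c : ℤ), (c = C 0 ∨ c = C 3) →
      X ((i : ℕ) : ℤ) + Y (2 * ((j : ℕ) : ℤ)) + c ≠ 0 ∧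
      X ((i : ℕ) : ℤ) + Y (2 * ((j : ℕ) : ℤ)) + c ≠ N ∧
      X ((i : ℕ) : ℤ) + Y (2 * ((j : ℕ) : ℤ)) + c ≠ -N := by
    intro i j c hc
    have hnd : ¬ (N : ℤ) ∣ X ((i : ℕ) : ℤ) + Y (2 * ((j : ℕ) : ℤ)) + c := by
      intro hd
      have hc' : (N : ℤ) ∣ c - a * e3 0 ∨ (N : ℤ) ∣ c - a * e3 3 := by
        rcases hres with ⟨k0, k2⟩ | ⟨k0, k2⟩ <;> rcases hc with rfl | rfl
        · exact Or.inl k0
        · exact Or.inr k2
        · exact Or.inr k0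
        · exact Or.inl k2
      rcases hc' with hc' | hc'
      · have h1 := dvd_sub hd (dvd_add (dvd_add (hσ i) (hπ j)) hc')
        rw [show X ((i : ℕ) : ℤ) + Y (2 * ((j : ℕ) : ℤ)) + c - (X ((i : ℕ) : ℤ) - a * e1 (σ i) +
          (Y (2 * ((j : ℕ) : ℤ)) - a * y3 e2 (π j)) + (c - a * e3 0)) =
          a * (e1 (σ i) + y3 e2 (π j) + e3 0) by ring, coprime_scale ha] at h1
        exact hF _ _ h1
      · have h1 := dvd_sub hd (dvd_add (dvd_add (hσ i) (hπ j)) hc')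
        rw [show X ((i : ℕ) : ℤ) + Y (2 * ((j : ℕ) : ℤ)) + c - (X ((i : ℕ) : ℤ) - a * e1 (σ i) +
          (Y (2 * ((j : ℕ) : ℤ)) - a * y3 e2 (π j)) + (c - a * e3 3)) =
          a * (e1 (σ i) + y3 e2 (π j) + e3 3) by ring, coprime_scale ha] at h1
        exact hF' _ _ h1
    refine ⟨fun h0 => hnd ?_, fun h0 => hnd ?_, fun h0 => hnd ?_⟩
    · rw [h0]; exact dvd_zero _
    · rw [h0]
    · rw [h0]; exact (dvd_neg).2 dvd_rfl
  have hs : X 0 + X 1 + X 2 + X 3 + X 4 + X 5 + 2 * Y 0 + 2 * Y 2 + 2 * Y 4 + 3 * C 0 + 3 * C 3 =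
      0 := by
    simp only [Fin.sum_univ_six, Fin.isValue, Fin.coe_ofNat_eq_mod, Nat.zero_mod, Nat.one_mod,
      Nat.reduceMod, Nat.cast_zero, Nat.cast_one, Nat.cast_ofNat] at hsum
    linarith
  -- periodicity
  have pC : ∀ i q, C (i + 6 * q) = C i + N * q := fun i q => by exact_mod_cast sC.per i q
  have pX : ∀ i q, X (i + 6 * q) = X i + N * q := fun i q => by exact_mod_cast sX.per i q
  have pY : ∀ i q, Y (i + 6 * q) = Y i + N * q := fun i q => by exact_mod_cast sY.per i q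
  have cm3 : C (-3) = C 3 - N := by have := pC 3 (-1); norm_num at this; linarith
  have c6 : C 6 = C 0 + N := by have := pC 0 1; norm_num at this; linarith
  have c8 : C 8 = C 2 + N := by have := pC 2 1; norm_num at this; linarith
  have x6 : X 6 = X 0 + N := by have := pX 0 1; norm_num at this; linarith
  have y6 : Y 6 = Y 0 + N := by have := pY 0 1; norm_num at this; linarith
  have I : ∀ i k l : ℤ, i + k + l ≤ 5 → X i + Y k + C l ≤ 0 := fun i k l h1 =>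
    i1 i k l (by push_cast; linarith)
  have J : ∀ i k l : ℤ, 10 ≤ i + k + l → 0 ≤ X i + Y k + C l := fun i k l h1 =>
    j1 i k l (by push_cast; linarith)
  have I2' : ∀ i i' k k' l l' : ℤ, i < i' → i' < i + 6 → k < k' → k' < k + 6 → l < l' →
      l' < l + 6 → i + i' + k + k' + l + l' ≤ 11 → i' + k + l ≤ 5 → i + k' + l ≤ 5 →
      i + k + l' ≤ 5 → i' + k' + l' ≤ 11 → X i + X i' + Y k + Y k' + C l + C l' ≤ 0 := by
    intro i i' k k' l l' g1 g2 g3 g4 g5 g6 g7 g8 g9 g10 g11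
    exact i2 i i' k k' l l' g1 (by push_cast; linarith) g3 (by push_cast; linarith) g5
      (by push_cast; linarith) (by push_cast; linarith) (by push_cast; linarith)
      (by push_cast; linarith) (by push_cast; linarith) (by push_cast; linarith)
  have J2' : ∀ i i' k k' l l' : ℤ, i < i' → i' < i + 6 → k < k' → k' < k + 6 → l < l' →
      l' < l + 6 → 19 ≤ i + i' + k + k' + l + l' → 10 ≤ i + k' + l' → 10 ≤ i' + k + l' →
      10 ≤ i' + k' + l → 4 ≤ i + k + l → 0 ≤ X i + X i' + Y k + Y k' + C l + C l' := by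
    intro i i' k k' l l' g1 g2 g3 g4 g5 g6 g7 g8 g9 g10 g11
    exact j2 i i' k k' l l' g1 (by push_cast; linarith) g3 (by push_cast; linarith) g5
      (by push_cast; linarith) (by push_cast; linarith) (by push_cast; linarith)
      (by push_cast; linarith) (by push_cast; linarith) (by push_cast; linarith)
  have u011 := I 0 2 (3) (by norm_num)
  have nu011 := nz1 0 1 (C 3) (by simp)
  have l021 := J 0 5 (5) (by norm_num)
  have nl021 := nz1 0 2 (C 3) (by simp)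
  have l100 := J 1 1 (8) (by norm_num)
  have nl100 := nz1 1 0 (C 0) (by simp)
  have u120 := I 1 4 (0) (by norm_num)
  have nu120 := nz1 1 2 (C 0) (by simp)
  have u201 := I 2 0 (3) (by norm_num)
  have nu201 := nz1 2 0 (C 3) (by simp)
  have l211 := J 2 3 (5) (by norm_num)
  have nl211 := nz1 2 1 (C 3) (by simp)
  have u310 := I 3 2 (0) (by norm_num)
  have nu310 := nz1 3 1 (C 0) (by simp)
  have l320 := J 3 5 (2) (by norm_num)
  have nl320 := nz1 3 2 (C 0) (by simp)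
  have l401 := J 4 1 (5) (by norm_num)
  have nl401 := nz1 4 0 (C 3) (by simp)
  have u421 := I 4 4 (-3) (by norm_num)
  have nu421 := nz1 4 2 (C 3) (by simp)
  have u500 := I 5 0 (0) (by norm_num)
  have nu500 := nz1 5 0 (C 0) (by simp)
  have l510 := J 5 3 (2) (by norm_num)
  have nl510 := nz1 5 1 (C 0) (by simp)
  have m0201 := J2' (0) (2) (1) (3) (5) (8) (by norm_num) (by norm_num) (by norm_num) (by norm_num) (by norm_num) (by norm_num) (by norm_num) (by norm_num) (by norm_num) (by norm_num) (by norm_num)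
  have nm0201 := nz2 0 2 0 1 (by decide) (by decide)
  have p0212 := I2' (0) (2) (2) (4) (0) (3) (by norm_num) (by norm_num) (by norm_num) (by norm_num) (by norm_num) (by norm_num) (by norm_num) (by norm_num) (by norm_num) (by norm_num) (by norm_num)
  have np0212 := nz2 0 2 1 2 (by decide) (by decide)
  have p0402 := I2' (0) (4) (0) (4) (0) (3) (by norm_num) (by norm_num) (by norm_num) (by norm_num) (by norm_num) (by norm_num) (by norm_num) (by norm_num) (by norm_num) (by norm_num) (by norm_num)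
  have np0402 := nz2 0 4 0 2 (by decide) (by decide)
  have m0412 := J2' (0) (4) (3) (5) (2) (5) (by norm_num) (by norm_num) (by norm_num) (by norm_num) (by norm_num) (by norm_num) (by norm_num) (by norm_num) (by norm_num) (by norm_num) (by norm_num)
  have nm0412 := nz2 0 4 1 2 (by decide) (by decide)
  have p1302 := I2' (1) (3) (0) (4) (0) (3) (by norm_num) (by norm_num) (by norm_num) (by norm_num) (by norm_num) (by norm_num) (by norm_num) (by norm_num) (by norm_num) (by norm_num) (by norm_num)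
  have np1302 := nz2 1 3 0 2 (by decide) (by decide)
  have m1312 := J2' (1) (3) (3) (5) (2) (5) (by norm_num) (by norm_num) (by norm_num) (by norm_num) (by norm_num) (by norm_num) (by norm_num) (by norm_num) (by norm_num) (by norm_num) (by norm_num)
  have nm1312 := nz2 1 3 1 2 (by decide) (by decide)
  have p1501 := I2' (1) (5) (0) (2) (0) (3) (by norm_num) (by norm_num) (by norm_num) (by norm_num) (by norm_num) (by norm_num) (by norm_num) (by norm_num) (by norm_num) (by norm_num) (by norm_num)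
  have np1501 := nz2 1 5 0 1 (by decide) (by decide)
  have m1502 := J2' (1) (5) (1) (5) (2) (5) (by norm_num) (by norm_num) (by norm_num) (by norm_num) (by norm_num) (by norm_num) (by norm_num) (by norm_num) (by norm_num) (by norm_num) (by norm_num)
  have nm1502 := nz2 1 5 0 2 (by decide) (by decide)
  have p2401 := I2' (2) (4) (0) (2) (0) (3) (by norm_num) (by norm_num) (by norm_num) (by norm_num) (by norm_num) (by norm_num) (by norm_num) (by norm_num) (by norm_num) (by norm_num) (by norm_num)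
  have np2401 := nz2 2 4 0 1 (by decide) (by decide)
  have m2402 := J2' (2) (4) (1) (5) (2) (5) (by norm_num) (by norm_num) (by norm_num) (by norm_num) (by norm_num) (by norm_num) (by norm_num) (by norm_num) (by norm_num) (by norm_num) (by norm_num)
  have nm2402 := nz2 2 4 0 2 (by decide) (by decide)
  have m3501 := J2' (3) (5) (1) (3) (2) (5) (by norm_num) (by norm_num) (by norm_num) (by norm_num) (by norm_num) (by norm_num) (by norm_num) (by norm_num) (by norm_num) (by norm_num) (by norm_num)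
  have nm3501 := nz2 3 5 0 1 (by decide) (by decide)
  have p3512 := I2' (3) (5) (2) (4) (-3) (0) (by norm_num) (by norm_num) (by norm_num) (by norm_num) (by norm_num) (by norm_num) (by norm_num) (by norm_num) (by norm_num) (by norm_num) (by norm_num)
  have np3512 := nz2 3 5 1 2 (by decide) (by decide)
  simp only [Fin.isValue, Fin.coe_ofNat_eq_mod, Nat.zero_mod, Nat.one_mod,
    Nat.reduceMod, Nat.cast_zero, Nat.cast_one, Nat.cast_ofNat, mul_zero, mul_one, Int.reduceMul,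
    ← hY01, ← hY23, ← hY45, ← hC01, ← hC02, ← hC34, ← hC35, cm3, c8] at *
  have hpt := e8_point hN (a0 := X 0) (a1 := X 1) (a2 := X 2) (a3 := X 3) (a4 := X 4) (a5 := X 5)
    (b0 := Y 0) (b1 := Y 2) (b2 := Y 4) (c0 := C 0) (c1 := C 3) hs
    (sX.mono _ _ (by norm_num)) (sX.mono _ _ (by norm_num)) (sX.mono _ _ (by norm_num))
    (sX.mono _ _ (by norm_num)) (sX.mono _ _ (by norm_num))
    (by rw [← x6]; exact sX.mono _ _ (by norm_num))
    (sY.mono _ _ (by norm_num)) (sY.mono _ _ (by norm_num))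
    (by rw [← y6]; exact sY.mono _ _ (by norm_num))
    (sC.mono _ _ (by norm_num)) (by rw [← c6]; exact sC.mono _ _ (by norm_num))
    (lt_of_le_of_ne u011 nu011.1)
    (lt_of_le_of_ne l021 (Ne.symm nl021.1))
    (lt_of_le_of_ne (by linarith only [l100]) (Ne.symm nl100.2.2))
    (lt_of_le_of_ne u120 nu120.1)
    (lt_of_le_of_ne u201 nu201.1)
    (lt_of_le_of_ne l211 (Ne.symm nl211.1))
    (lt_of_le_of_ne u310 nu310.1)
    (lt_of_le_of_ne l320 (Ne.symm nl320.1))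
    (lt_of_le_of_ne l401 (Ne.symm nl401.1))
    (lt_of_le_of_ne (by linarith only [u421]) nu421.2.1)
    (lt_of_le_of_ne u500 nu500.1)
    (lt_of_le_of_ne l510 (Ne.symm nl510.1))
    (lt_of_le_of_ne (by linarith only [m0201]) (Ne.symm nm0201.2.2))
    (lt_of_le_of_ne p0212 np0212.1)
    (lt_of_le_of_ne p0402 np0402.1)
    (lt_of_le_of_ne m0412 (Ne.symm nm0412.1))
    (lt_of_le_of_ne p1302 np1302.1)
    (lt_of_le_of_ne m1312 (Ne.symm nm1312.1))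
    (lt_of_le_of_ne p1501 np1501.1)
    (lt_of_le_of_ne m1502 (Ne.symm nm1502.1))
    (lt_of_le_of_ne p2401 np2401.1)
    (lt_of_le_of_ne m2402 (Ne.symm nm2402.1))
    (lt_of_le_of_ne m3501 (Ne.symm nm3501.1))
    (lt_of_le_of_ne (by linarith only [p3512]) np3512.2.1)
  have k2 : ∀ t : ℤ, ∑ k : Fin 3, Q N (t + (∑ j : Fin 3, Y (2 * ((j : ℕ) : ℤ)) -
      Y (2 * ((k : ℕ) : ℤ))) + (C 0 + C 3)) = Q N (t + Y 0 + Y 2 + C 0 + C 3) +
      Q N (t + Y 0 + Y 4 + C 0 + C 3) + Q N (t + Y 2 + Y 4 + C 0 + C 3) := by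
    intro t
    simp only [Fin.sum_univ_three, Fin.isValue, Fin.coe_ofNat_eq_mod, Nat.zero_mod, Nat.one_mod,
      Nat.reduceMod, Nat.cast_zero, Nat.cast_one, Nat.cast_ofNat, mul_zero, mul_one, Int.reduceMul]
    rw [show t + (Y 0 + Y 2 + Y 4 - Y 0) + (C 0 + C 3) = t + Y 2 + Y 4 + C 0 + C 3 by ring,
      show t + (Y 0 + Y 2 + Y 4 - Y 2) + (C 0 + C 3) = t + Y 0 + Y 4 + C 0 + C 3 by ring,
      show t + (Y 0 + Y 2 + Y 4 - Y 4) + (C 0 + C 3) = t + Y 0 + Y 2 + C 0 + C 3 by ring]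
    ring
  have k3 : ∀ t : ℤ, Q N (t + ∑ j : Fin 3, Y (2 * ((j : ℕ) : ℤ)) + (2 * C 0 + C 3)) +
      Q N (t + ∑ j : Fin 3, Y (2 * ((j : ℕ) : ℤ)) + (2 * C 3 + C 0)) =
      Q N (t + Y 0 + Y 2 + Y 4 + 2 * C 0 + C 3) + Q N (t + Y 0 + Y 2 + Y 4 + 2 * C 3 + C 0) := by
    intro t
    simp only [Fin.sum_univ_three, Fin.isValue, Fin.coe_ofNat_eq_mod, Nat.zero_mod, Nat.one_mod,
      Nat.reduceMod, Nat.cast_zero, Nat.cast_one, Nat.cast_ofNat, mul_zero, mul_one, Int.reduceMul]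
    rw [show t + (Y 0 + Y 2 + Y 4) + (2 * C 0 + C 3) = t + Y 0 + Y 2 + Y 4 + 2 * C 0 + C 3 by ring,
      show t + (Y 0 + Y 2 + Y 4) + (2 * C 3 + C 0) = t + Y 0 + Y 2 + Y 4 + 2 * C 3 + C 0 by ring]
  have g012 : Q N (X 0 + X 1 + X 2 + Y 0 + Y 2 + Y 4 + 2 * C 3 + C 0) =
      Q N (X 3 + X 4 + X 5 + Y 0 + Y 2 + Y 4 + 2 * C 0 + C 3) := by
    rw [← Q_neg hN (X 3 + X 4 + X 5 + Y 0 + Y 2 + Y 4 + 2 * C 0 + C 3)]; congr 1; linarith only [hs]
  have g013 : Q N (X 0 + X 1 + X 3 + Y 0 + Y 2 + Y 4 + 2 * C 3 + C 0) =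
      Q N (X 2 + X 4 + X 5 + Y 0 + Y 2 + Y 4 + 2 * C 0 + C 3) := by
    rw [← Q_neg hN (X 2 + X 4 + X 5 + Y 0 + Y 2 + Y 4 + 2 * C 0 + C 3)]; congr 1; linarith only [hs]
  have g014 : Q N (X 0 + X 1 + X 4 + Y 0 + Y 2 + Y 4 + 2 * C 3 + C 0) =
      Q N (X 2 + X 3 + X 5 + Y 0 + Y 2 + Y 4 + 2 * C 0 + C 3) := by
    rw [← Q_neg hN (X 2 + X 3 + X 5 + Y 0 + Y 2 + Y 4 + 2 * C 0 + C 3)]; congr 1; linarith only [hs]
  have g015 : Q N (X 0 + X 1 + X 5 + Y 0 + Y 2 + Y 4 + 2 * C 3 + C 0) =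
      Q N (X 2 + X 3 + X 4 + Y 0 + Y 2 + Y 4 + 2 * C 0 + C 3) := by
    rw [← Q_neg hN (X 2 + X 3 + X 4 + Y 0 + Y 2 + Y 4 + 2 * C 0 + C 3)]; congr 1; linarith only [hs]
  have g023 : Q N (X 0 + X 2 + X 3 + Y 0 + Y 2 + Y 4 + 2 * C 3 + C 0) =
      Q N (X 1 + X 4 + X 5 + Y 0 + Y 2 + Y 4 + 2 * C 0 + C 3) := by
    rw [← Q_neg hN (X 1 + X 4 + X 5 + Y 0 + Y 2 + Y 4 + 2 * C 0 + C 3)]; congr 1; linarith only [hs]
  have g024 : Q N (X 0 + X 2 + X 4 + Y 0 + Y 2 + Y 4 + 2 * C 3 + C 0) =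
      Q N (X 1 + X 3 + X 5 + Y 0 + Y 2 + Y 4 + 2 * C 0 + C 3) := by
    rw [← Q_neg hN (X 1 + X 3 + X 5 + Y 0 + Y 2 + Y 4 + 2 * C 0 + C 3)]; congr 1; linarith only [hs]
  have g025 : Q N (X 0 + X 2 + X 5 + Y 0 + Y 2 + Y 4 + 2 * C 3 + C 0) =
      Q N (X 1 + X 3 + X 4 + Y 0 + Y 2 + Y 4 + 2 * C 0 + C 3) := by
    rw [← Q_neg hN (X 1 + X 3 + X 4 + Y 0 + Y 2 + Y 4 + 2 * C 0 + C 3)]; congr 1; linarith only [hs]
  have g034 : Q N (X 0 + X 3 + X 4 + Y 0 + Y 2 + Y 4 + 2 * C 3 + C 0) =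
      Q N (X 1 + X 2 + X 5 + Y 0 + Y 2 + Y 4 + 2 * C 0 + C 3) := by
    rw [← Q_neg hN (X 1 + X 2 + X 5 + Y 0 + Y 2 + Y 4 + 2 * C 0 + C 3)]; congr 1; linarith only [hs]
  have g035 : Q N (X 0 + X 3 + X 5 + Y 0 + Y 2 + Y 4 + 2 * C 3 + C 0) =
      Q N (X 1 + X 2 + X 4 + Y 0 + Y 2 + Y 4 + 2 * C 0 + C 3) := by
    rw [← Q_neg hN (X 1 + X 2 + X 4 + Y 0 + Y 2 + Y 4 + 2 * C 0 + C 3)]; congr 1; linarith only [hs]
  have g045 : Q N (X 0 + X 4 + X 5 + Y 0 + Y 2 + Y 4 + 2 * C 3 + C 0) =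
      Q N (X 1 + X 2 + X 3 + Y 0 + Y 2 + Y 4 + 2 * C 0 + C 3) := by
    rw [← Q_neg hN (X 1 + X 2 + X 3 + Y 0 + Y 2 + Y 4 + 2 * C 0 + C 3)]; congr 1; linarith only [hs]
  have g123 : Q N (X 1 + X 2 + X 3 + Y 0 + Y 2 + Y 4 + 2 * C 3 + C 0) =
      Q N (X 0 + X 4 + X 5 + Y 0 + Y 2 + Y 4 + 2 * C 0 + C 3) := by
    rw [← Q_neg hN (X 0 + X 4 + X 5 + Y 0 + Y 2 + Y 4 + 2 * C 0 + C 3)]; congr 1; linarith only [hs]
  have g124 : Q N (X 1 + X 2 + X 4 + Y 0 + Y 2 + Y 4 + 2 * C 3 + C 0) =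
      Q N (X 0 + X 3 + X 5 + Y 0 + Y 2 + Y 4 + 2 * C 0 + C 3) := by
    rw [← Q_neg hN (X 0 + X 3 + X 5 + Y 0 + Y 2 + Y 4 + 2 * C 0 + C 3)]; congr 1; linarith only [hs]
  have g125 : Q N (X 1 + X 2 + X 5 + Y 0 + Y 2 + Y 4 + 2 * C 3 + C 0) =
      Q N (X 0 + X 3 + X 4 + Y 0 + Y 2 + Y 4 + 2 * C 0 + C 3) := by
    rw [← Q_neg hN (X 0 + X 3 + X 4 + Y 0 + Y 2 + Y 4 + 2 * C 0 + C 3)]; congr 1; linarith only [hs]
  have g134 : Q N (X 1 + X 3 + X 4 + Y 0 + Y 2 + Y 4 + 2 * C 3 + C 0) =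
      Q N (X 0 + X 2 + X 5 + Y 0 + Y 2 + Y 4 + 2 * C 0 + C 3) := by
    rw [← Q_neg hN (X 0 + X 2 + X 5 + Y 0 + Y 2 + Y 4 + 2 * C 0 + C 3)]; congr 1; linarith only [hs]
  have g135 : Q N (X 1 + X 3 + X 5 + Y 0 + Y 2 + Y 4 + 2 * C 3 + C 0) =
      Q N (X 0 + X 2 + X 4 + Y 0 + Y 2 + Y 4 + 2 * C 0 + C 3) := by
    rw [← Q_neg hN (X 0 + X 2 + X 4 + Y 0 + Y 2 + Y 4 + 2 * C 0 + C 3)]; congr 1; linarith only [hs]
  have g145 : Q N (X 1 + X 4 + X 5 + Y 0 + Y 2 + Y 4 + 2 * C 3 + C 0) =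
      Q N (X 0 + X 2 + X 3 + Y 0 + Y 2 + Y 4 + 2 * C 0 + C 3) := by
    rw [← Q_neg hN (X 0 + X 2 + X 3 + Y 0 + Y 2 + Y 4 + 2 * C 0 + C 3)]; congr 1; linarith only [hs]
  have g234 : Q N (X 2 + X 3 + X 4 + Y 0 + Y 2 + Y 4 + 2 * C 3 + C 0) =
      Q N (X 0 + X 1 + X 5 + Y 0 + Y 2 + Y 4 + 2 * C 0 + C 3) := by
    rw [← Q_neg hN (X 0 + X 1 + X 5 + Y 0 + Y 2 + Y 4 + 2 * C 0 + C 3)]; congr 1; linarith only [hs]
  have g235 : Q N (X 2 + X 3 + X 5 + Y 0 + Y 2 + Y 4 + 2 * C 3 + C 0) =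
      Q N (X 0 + X 1 + X 4 + Y 0 + Y 2 + Y 4 + 2 * C 0 + C 3) := by
    rw [← Q_neg hN (X 0 + X 1 + X 4 + Y 0 + Y 2 + Y 4 + 2 * C 0 + C 3)]; congr 1; linarith only [hs]
  have g245 : Q N (X 2 + X 4 + X 5 + Y 0 + Y 2 + Y 4 + 2 * C 3 + C 0) =
      Q N (X 0 + X 1 + X 3 + Y 0 + Y 2 + Y 4 + 2 * C 0 + C 3) := by
    rw [← Q_neg hN (X 0 + X 1 + X 3 + Y 0 + Y 2 + Y 4 + 2 * C 0 + C 3)]; congr 1; linarith only [hs]
  have g345 : Q N (X 3 + X 4 + X 5 + Y 0 + Y 2 + Y 4 + 2 * C 3 + C 0) =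
      Q N (X 0 + X 1 + X 2 + Y 0 + Y 2 + Y 4 + 2 * C 0 + C 3) := by
    rw [← Q_neg hN (X 0 + X 1 + X 2 + Y 0 + Y 2 + Y 4 + 2 * C 0 + C 3)]; congr 1; linarith only [hs]
  unfold Psi
  simp only [k2, k3]
  rw [sum6_diff (Q_neg hN) (Q_zero (dvd_zero _)), sum3_diff (Q_neg hN) (Q_zero (dvd_zero _)),
    sum_P2 (fun t => Q N (t + Y 0 + Y 2 + C 0 + C 3) +
      Q N (t + Y 0 + Y 4 + C 0 + C 3) + Q N (t + Y 2 + Y 4 + C 0 + C 3)) (fun i : Fin 6 => X ((i : ℕ) : ℤ)),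
    sum_P3 (fun t => Q N (t + Y 0 + Y 2 + Y 4 + 2 * C 0 + C 3) +
      Q N (t + Y 0 + Y 2 + Y 4 + 2 * C 3 + C 0)) (fun i : Fin 6 => X ((i : ℕ) : ℤ)),
    ← Q_neg hN (C 0 - C 3), neg_sub]
  simp only [Fin.sum_univ_six, Fin.sum_univ_three, Fin.isValue, Fin.coe_ofNat_eq_mod, Nat.zero_mod,
    Nat.one_mod, Nat.reduceMod, Nat.cast_zero, Nat.cast_one, Nat.cast_ofNat, mul_zero, mul_one,
    Int.reduceMul]
  rw [g012, g013, g014, g015, g023, g024, g025, g034, g035, g045, g123, g124, g125, g134, g135, g145, g234, g235, g245, g345]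
  linarith only [hpt]

end Pool.Agent.TH190.E8
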